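import Pool.Agent.P.MP_323ce2_nt.QZ.St
import Pool.Agent.P.MP_26a8c3_nt.QB.Base

/-! Moebius inversion on primary elements. -/

namespace Pool.Agent.P.MP_323ce2_nt.QZ

open Pool.Agent.P.MP_26a8c3_nt Pool.Agent.P.MP_26a8c3_nt.QO Pool.Agent.P.MP_26a8c3_nt.QA
open Finset
open scoped Classical

namespace CvP

lemma uM_eq (φ : O → ℂ) {c : O} (hc : Primary c) : uM φ c = mu c * φ c := by
  unfold uM
  split_ifs with h
  · rfl
  · rw [mu_of_not fun e => h ⟨hc, e⟩, zero_mul]

lemma supp {φ : O → ℂ} {c n : O} {z : ℂ} (h : uM φ c * uL φ n * z ≠ 0) :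
    Primary c ∧ Primary n := by
  constructor
  · by_contra e
    exact h (by rw [uM, if_neg fun s => e s.1, zero_mul, zero_mul])
  · by_contra e
    exact h (by rw [uL, if_neg e, mul_zero, zero_mul])

lemma fibre {φ : O → ℂ} (hφ : Mul1 φ) (V : ℝ → ℂ) (k : O) :
    ∑' b : (fun p : O × O => p.1 * p.2) ⁻¹' {k},
      uM φ b.1.1 * uL φ b.1.2 * V (nr b.1.1 * nr b.1.2) = if k = 1 then V 1 else 0 := by
  rw [tsum_subtype ((fun p : O × O => p.1 * p.2) ⁻¹' {k})
    fun p : O × O => uM φ p.1 * uL φ p.2 * V (nr p.1 * nr p.2)]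
  by_cases hk : Primary k
  · have h0 := hk.ne_zero
    rw [tsum_eq_sum (s := (pdiv k).image fun c => (c, quo k c)),
      sum_image fun a _ b _ e => congrArg Prod.fst e]
    · have e : ∀ c ∈ pdiv k, Set.indicator ((fun p : O × O => p.1 * p.2) ⁻¹' {k})
          (fun p : O × O => uM φ p.1 * uL φ p.2 * V (nr p.1 * nr p.2)) (c, quo k c) =
          mu c * (φ k * V (N k)) := by
        intro c hc
        obtain ⟨h1, h2⟩ := (mem_pdiv h0).1 hc
        have h3 := mul_quo h2
        have h4 : Primary (quo k c) := Primary.of_mul (h3.symm ▸ hk) h1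
        have h5 : φ k = φ c * φ (quo k c) := by rw [← hφ.mul _ _ h1 h4, h3]
        have h6 : nr c * nr (quo k c) = N k := by
          rw [nr_eq h1.ne_zero, nr_eq h4.ne_zero, ← Nat.cast_mul, ← map_mul, h3]
        rw [Set.indicator_of_mem (show (c, quo k c) ∈ (fun p : O × O => p.1 * p.2) ⁻¹' {k} from h3)]
        simp only
        rw [uM_eq φ h1, uL, if_pos h4, h5, h6]
        ring
      rw [sum_congr rfl e, ← sum_mul, QB.BaseP.mu_sum hk]
      split_ifs with h
      · simp [h, hφ.one]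
      · rw [zero_mul]
    · rintro ⟨c, n⟩ hp
      by_contra e
      have h7 := Set.mem_of_indicator_ne_zero e
      have h1 : c * n = k := h7
      rw [Set.indicator_of_mem h7] at e
      obtain ⟨h2, -⟩ := supp e
      refine hp (mem_image.2 ⟨c, (mem_pdiv h0).2 ⟨h2, h1 ▸ dvd_mul_right c n⟩, ?_⟩)
      rw [← h1, quo_mul h2.ne_zero]
  · rw [if_neg fun e : k = 1 => hk (by rw [e]; exact primary_one)]
    refine (tsum_congr fun p => ?_).trans tsum_zero
    by_contra e
    have h7 := Set.mem_of_indicator_ne_zero e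
    have h1 : p.1 * p.2 = k := h7
    rw [Set.indicator_of_mem h7] at e
    obtain ⟨h2, h3⟩ := supp e
    exact hk (h1 ▸ h2.mul h3)

end CvP

theorem pCv : S_Cv := by
  intro φ hφ V hV
  have hs : Summable fun p : O × O => uM φ p.1 * uL φ p.2 * V (nr p.1 * nr p.2) :=
    Summable.of_norm_bounded hV fun p => by
      rw [norm_mul]
      exact mul_le_of_le_one_left (norm_nonneg _) (QB.norm_mul_le_one (hφ.uM _) (hφ.uL _))
  rw [← (hs.hasSum.tsum_fiberwise fun p : O × O => p.1 * p.2).tsum_eq,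
    tsum_congr (CvP.fibre hφ V), tsum_ite_eq]

end Pool.Agent.P.MP_323ce2_nt.QZ
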