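import Pool.Agent.P.MP_323ce2_nt.QZ.Ub

/-! Assembly of the zero layer. -/

namespace Pool.Agent.P.MP_323ce2_nt.QZ

open Pool.Agent.P.MP_26a8c3_nt Pool.Agent.P.MP_26a8c3_nt.QO Pool.Agent.P.MP_26a8c3_nt.QA
open Complex Filter

namespace Asm

lemma low {u : O → ℂ} (hu : B1 u) {β z : ℝ} (hβ : β ≤ 1) (t : ℝ) (hz : z ≤ 0) :
    ‖Bk u β t z‖ * (1 + z ^ 2) ≤ 60 * KO * Real.exp z := by
  have hK := one_le_KO
  have h1 := norm_Bk_le hu β t z (k := 3) (by norm_num)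
  have h2 : 1 + z ^ 2 ≤ 2 * Real.exp (-z) := by
    nlinarith [Real.quadratic_le_exp_of_nonneg (x := -z) (by linarith)]
  have h3 : Real.exp (3 ^ 2 / 4 + (3 - β) * z) ≤ 27 * Real.exp (2 * z) := by
    have h4 : Real.exp 3 ≤ 27 := by
      rw [show (3 : ℝ) = (3 : ℕ) * 1 by norm_num, Real.exp_nat_mul, show (27 : ℝ) = 3 ^ 3 by norm_num]
      exact pow_le_pow_left₀ (Real.exp_pos _).le Real.exp_one_lt_three.le 3
    calc _ ≤ Real.exp (3 + 2 * z) := Real.exp_le_exp.2 (by nlinarith)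
      _ ≤ _ := by rw [Real.exp_add]; gcongr
  calc _ ≤ KO * (27 * Real.exp (2 * z)) * (2 * Real.exp (-z)) := by
        gcongr
        exact h1.trans (by gcongr)
    _ = 54 * KO * (Real.exp (2 * z) * Real.exp (-z)) := by ring
    _ ≤ _ := by
        rw [← Real.exp_add, show 2 * z + -z = z by ring]
        gcongr
        norm_num

lemma mid {β β₁ δ η A Λ z : ℝ} (h1 : β₁ ≤ β) (h2 : β - δ ≤ β₁) (hη : 0 ≤ η)
    (hΛ : 0 ≤ Λ) (hδA : δ * A ≤ η) (hz : z ≤ A * Λ) : (β - β₁) * z ≤ η * Λ := by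
  rcases le_total z 0 with h | h
  · nlinarith [mul_nonneg hη hΛ, mul_nonneg (sub_nonneg.2 h1) (neg_nonneg.2 h)]
  · calc _ ≤ δ * (A * Λ) := by gcongr <;> linarith
      _ ≤ _ := by nlinarith

lemma high {l : O → ℂ} {β A Λ t z E : ℝ} (hβ : 0 ≤ β) (hz0 : 0 ≤ z) (hz : A * Λ ≤ z)
    (h : ‖Wsum l (Real.exp z) t‖ ≤ Real.exp (A * Λ) * E / Real.exp z ^ 2) (hE : 0 ≤ E) :
    ‖Bk l β t z‖ * (1 + z ^ 2) ≤ 9 * E * Real.exp (-(A * Λ / 2)) := by
  have h2 : 1 + z ^ 2 ≤ 9 * Real.exp (z / 2) := by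
    nlinarith [Real.quadratic_le_exp_of_nonneg (x := z / 2) (by linarith)]
  have h3 : Real.exp (-(β * z)) ≤ 1 := Real.exp_le_one_iff.2 (by nlinarith)
  rw [norm_Bk]
  calc _ ≤ Real.exp (A * Λ) * E / Real.exp z ^ 2 * 1 * (9 * Real.exp (z / 2)) := by gcongr
    _ = 9 * E * Real.exp (A * Λ - (2 : ℕ) * z + z / 2) := by
        rw [Real.exp_add, Real.exp_sub, Real.exp_nat_mul]; ring
    _ ≤ _ := by
        gcongr
        push_cast
        linarith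

/-- the two sums found by the detection step are both large -/
lemma sat {a l : O → ℂ} {L : ℂ → ℂ} {A Λ β β₁ δ η t z₁ z₂ : ℝ} (D : Dat a l L A Λ) (hA : 1 ≤ A)
    (hη : 0 < η) (hη1 : η ≤ 1 / 20) (hΛ : 0 < Λ) (b0 : 0 ≤ β₁) (b1 : β₁ ≤ β) (b2 : β - δ ≤ β₁)
    (b3 : β ≤ 1) (hδA : δ * A ≤ η) (c1 : 6000 * KO ≤ Real.exp (η * Λ))
    (c2 : 1 + (A * Λ) ^ 2 ≤ Real.exp (η * Λ)) (c3 : (1 + |t|) ^ A ≤ Real.exp (η * Λ))
    (ub : ∀ X : ℝ, 0 < X → ‖Wsum l X t‖ ≤ Real.exp (3 * η * Λ) * X ^ β ∧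
      (X ≤ Real.exp (A * Λ) → ‖Wsum a X t‖ ≤ Real.exp (3 * η * Λ) * X ^ β))
    (h1 : z₁ ≤ A * Λ)
    (h : 1 / 100 ≤ ‖Bk a β₁ t z₁‖ * ‖Bk l β₁ t z₂‖ * ((1 + z₁ ^ 2) * (1 + z₂ ^ 2))) :
    -(20 * η * Λ) ≤ z₁ ∧ -(20 * η * Λ) ≤ z₂ ∧ z₂ ≤ A * Λ ∧
      Real.exp z₁ ^ β ≤ Real.exp (8 * η * Λ) * ‖Wsum a (Real.exp z₁) t‖ ∧
      Real.exp z₂ ^ β ≤ Real.exp (8 * η * Λ) * ‖Wsum l (Real.exp z₂) t‖ := by
  have hK := one_le_KO
  set E := Real.exp (η * Λ) with hE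
  have E0 : 0 < E := Real.exp_pos _
  have En : ∀ n : ℕ, Real.exp (n * η * Λ) = E ^ n := fun n => by
    rw [hE, ← Real.exp_nat_mul, mul_assoc]
  have E1 : 1 ≤ E := by linarith
  have hηΛ : 0 < η * Λ := mul_pos hη hΛ
  have hAΛ : 20 * η * Λ ≤ A * Λ := by nlinarith
  have sq : ∀ z : ℝ, -(20 * η * Λ) ≤ z → z ≤ A * Λ → 1 + z ^ 2 ≤ E := fun z k1 k2 =>
    le_trans (by nlinarith) c2
  have lo : ∀ u : O → ℂ, B1 u → ∀ z : ℝ, z ≤ -(20 * η * Λ) →
      ‖Bk u β₁ t z‖ * (1 + z ^ 2) * E ^ 5 < 1 / 100 := fun u hu z hz => by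
    have k1 := low hu (b1.trans b3) t (z := z) (by linarith)
    have k2 : Real.exp z * E ^ 20 ≤ 1 := by
      rw [← En, ← Real.exp_add, Real.exp_le_one_iff]; push_cast; linarith
    have k3 : E * 2 ≤ E ^ 15 := by
      rw [show E ^ 15 = E * (E * E ^ 13) by ring]
      have := one_le_pow₀ (n := 13) E1
      gcongr
      nlinarith
    refine lt_of_mul_lt_mul_right (a := E ^ 15) ?_ (by positivity)
    calc _ ≤ 60 * KO * Real.exp z * E ^ 5 * E ^ 15 := by gcongr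
      _ = 60 * KO * (Real.exp z * E ^ 20) := by ring
      _ ≤ 60 * KO * 1 := by gcongr
      _ < _ := by linarith
  have E5 : 1 ≤ E ^ 5 := one_le_pow₀ E1
  have up : ∀ u : O → ℂ, B1 u → ∀ z : ℝ, z ≤ A * Λ →
      ‖Wsum u (Real.exp z) t‖ ≤ Real.exp (3 * η * Λ) * Real.exp z ^ β →
      ‖Bk u β₁ t z‖ * (1 + z ^ 2) ≤ E ^ 5 := fun u hu z hz hb => by
    rcases le_total z (-(20 * η * Λ)) with k | k
    · have k1 := lo u hu z k
      have k2 : 0 ≤ ‖Bk u β₁ t z‖ * (1 + z ^ 2) := by positivity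
      nlinarith
    · rw [show E ^ 5 = E ^ 4 * E by ring]
      refine mul_le_mul ?_ (sq z k hz) (by positivity) (by positivity)
      rw [norm_Bk, ← En]
      refine (mul_le_mul_of_nonneg_right hb (Real.exp_pos _).le).trans ?_
      rw [← Real.exp_mul, ← Real.exp_add, ← Real.exp_add, Real.exp_le_exp]
      have := mid b1 b2 hη.le hΛ.le hδA hz
      push_cast
      linarith
  have hi : ∀ z : ℝ, A * Λ ≤ z → ‖Bk l β₁ t z‖ * (1 + z ^ 2) * E ^ 5 < 1 / 100 := fun z hz => by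
    have z0 : 0 ≤ z := by linarith
    have k1 := high b0 z0 hz ((D.dec _ t (Real.one_le_exp z0)).trans
      (by gcongr : _ ≤ Real.exp (A * Λ) * E / Real.exp z ^ 2)) E0.le
    have k2 : Real.exp (-(A * Λ / 2)) * E ^ 10 ≤ 1 := by
      rw [← En, ← Real.exp_add, Real.exp_le_one_iff]; push_cast; linarith
    have k3 : E * 1 ≤ E ^ 4 := by
      rw [show E ^ 4 = E * E ^ 3 by ring]
      gcongr
      exact one_le_pow₀ E1
    refine lt_of_mul_lt_mul_right (a := E ^ 4) ?_ (by positivity)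
    calc _ ≤ 9 * E * Real.exp (-(A * Λ / 2)) * E ^ 5 * E ^ 4 := by gcongr
      _ = 9 * (Real.exp (-(A * Λ / 2)) * E ^ 10) := by ring
      _ ≤ 9 * 1 := by gcongr
      _ < _ := by linarith
  set F := ‖Bk a β₁ t z₁‖ * (1 + z₁ ^ 2) with hF
  set G := ‖Bk l β₁ t z₂‖ * (1 + z₂ ^ 2) with hG
  have hFG : 1 / 100 ≤ F * G := h.trans_eq (by rw [hF, hG]; ring)
  have F0 : 0 ≤ F := by positivity
  have G0 : 0 ≤ G := by positivity
  have F1 : F ≤ E ^ 5 := up a D.ha z₁ h1 ((ub _ (Real.exp_pos _)).2 (Real.exp_le_exp.2 h1))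
  have G2 : 1 / 100 ≤ G * E ^ 5 := hFG.trans (by rw [mul_comm]; gcongr)
  have r3 : z₂ ≤ A * Λ := by_contra fun k => (hi z₂ (not_le.1 k).le).not_ge G2
  have G1 : G ≤ E ^ 5 := up l D.hl z₂ r3 (ub _ (Real.exp_pos _)).1
  have F2 : 1 / 100 ≤ F * E ^ 5 := hFG.trans (by gcongr)
  have r1 : -(20 * η * Λ) ≤ z₁ := by_contra fun k => (lo a D.ha z₁ (not_le.1 k).le).not_ge F2
  have r2 : -(20 * η * Λ) ≤ z₂ := by_contra fun k => (lo l D.hl z₂ (not_le.1 k).le).not_ge G2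
  have fin : ∀ (u : O → ℂ) (z : ℝ), -(20 * η * Λ) ≤ z → z ≤ A * Λ →
      1 / 100 ≤ ‖Bk u β₁ t z‖ * (1 + z ^ 2) * E ^ 5 →
      Real.exp z ^ β ≤ Real.exp (8 * η * Λ) * ‖Wsum u (Real.exp z) t‖ := fun u z k1 k2 k3 => by
    have k4 : Real.exp z ^ β * Real.exp (-(β₁ * z)) ≤ E := by
      rw [← Real.exp_mul, ← Real.exp_add, hE, Real.exp_le_exp]
      linarith [mid b1 b2 hη.le hΛ.le hδA k2]
    have k5 : 1 ≤ 100 * (‖Wsum u (Real.exp z) t‖ * Real.exp (-(β₁ * z)) * E * E ^ 5) := by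
      rw [← norm_Bk]
      have : ‖Bk u β₁ t z‖ * (1 + z ^ 2) * E ^ 5 ≤ ‖Bk u β₁ t z‖ * E * E ^ 5 := by
        gcongr
        exact sq z k1 k2
      linarith
    have k6 := En 8
    push_cast at k6
    rw [k6]
    calc _ ≤ Real.exp z ^ β *
          (100 * (‖Wsum u (Real.exp z) t‖ * Real.exp (-(β₁ * z)) * E * E ^ 5)) :=
          le_mul_of_one_le_right (by positivity) k5
      _ = 100 * (Real.exp z ^ β * Real.exp (-(β₁ * z))) * E ^ 6 * ‖Wsum u (Real.exp z) t‖ := by ring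
      _ ≤ E * E * E ^ 6 * ‖Wsum u (Real.exp z) t‖ := by
          gcongr
          linarith
      _ = _ := by ring
  exact ⟨r1, r2, r3, fin a z₁ r1 h1 F2, fin l z₂ r2 r3 G2⟩

end Asm

theorem pZero (h1 : S_Lw) (h2 : S_Up) (h3 : S_Cont) (h4 : S_Cv) (h5 : S_Cvl) (h6 : S_Det) :
    S_Zero := by
  classical
  intro ε A hε hA
  have hK := one_le_KO
  set η := min ε 1 / 20 with hηd
  have hη : 0 < η := by positivity
  have hη1 : η ≤ 1 / 20 := by have := min_le_right ε 1; linarith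
  have hη2 : 20 * η ≤ ε := by have := min_le_left ε 1; linarith
  obtain ⟨J, hJ⟩ := exists_nat_ge (A / η)
  rw [div_le_iff₀ hη] at hJ
  have J1 : (1 : ℝ) ≤ J := by nlinarith [Nat.cast_nonneg (α := ℝ) J]
  set δ : ℝ := 1 / (2 * J) with hδd
  have hδ : 0 < δ := by positivity
  have hδJ : δ * J = 1 / 2 := by rw [hδd]; field_simp
  have hδA : δ * A ≤ η := by nlinarith
  set k := 4 + (2 * A + 1) / (20 * η) with hk
  set c := 6000 * KO + A + 3 * J + 8 with hc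
  obtain ⟨L₀, hW⟩ := bound_W h1 h2 hδ hη (by linarith) hA hδA
  obtain ⟨L₁, hL⟩ := eventually_atTop.1 ((ev_lin c (κ := η / (2 * A)) (by positivity)).and
    ((eventually_ge_atTop L₀).and ((eventually_ge_atTop 1).and
      (eventually_ge_atTop (10 * KO ^ 2 * Real.exp (1 + k ^ 2 / 4))))))
  refine ⟨Real.exp L₁ + (3 * J + 4), by linarith [Real.exp_pos L₁], fun Z 𝒯 hZ hT => ?_⟩
  have Z0 : 0 < Z := by linarith [Real.exp_pos L₁]
  obtain ⟨k1, k2, k3, k4⟩ := hL (Real.log Z) ((Real.le_log_iff_exp_le Z0).2 (by linarith))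
  set Λ := Real.log Z with hΛ
  have pw : ∀ x : ℝ, Z ^ x = Real.exp (x * Λ) := fun x => by
    rw [Real.rpow_def_of_pos Z0, mul_comm]
  simp only [pw] at hT ⊢
  have hΛ0 : 0 < Λ := by linarith
  have c0 : 1 ≤ c := by linarith
  have e0 : η / (2 * A) * Λ * (2 * A) = η * Λ := by field_simp
  have e1 : 1 + c * Λ ≤ Real.exp (η / (2 * A) * Λ) :=
    (le_mul_of_one_le_left (by positivity) c0).trans k1
  have e2 : ∀ x : ℝ, 0 ≤ x → x ≤ 2 * A → (1 + c * Λ) ^ x ≤ Real.exp (η * Λ) := fun x x0 x1 => by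
    refine (Real.rpow_le_rpow (by positivity) e1 x0).trans ?_
    rw [← Real.exp_mul, Real.exp_le_exp, ← e0]
    gcongr
  have e3 : 1 + c * Λ ≤ Real.exp (η * Λ) := by simpa using e2 1 zero_le_one (by linarith)
  have e4 : Real.exp (η * Λ) ≤ Real.exp Λ := Real.exp_le_exp.2 (by nlinarith)
  have hex : ∀ φ : 𝒯, ∃ L, Dat (uM φ.1) (uL φ.1) L A Λ := fun φ => by
    obtain ⟨m, hd⟩ := hT φ.1 φ.2
    obtain ⟨L, l1, l2, l3, l4⟩ := h3 (uL φ.1) (fun t => Real.exp (A * Λ) * (1 + |t|) ^ A) m.uL hd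
    exact ⟨L, m.uM, m.uL, h4 _ m, hd, l1, l2, fun σ t a b => by simpa using l3 σ t a b, l4⟩
  choose L D using hex
  set P : ℕ → Prop := fun j => ∀ (φ : 𝒯) (s : ℂ), 1 - j * δ < s.re →
    |s.im| ≤ (3 * ((J : ℝ) - j) + 4) * Λ → L φ s ≠ 0 with hP
  have P0 : P 0 := fun φ s hs _ => ((D φ).inv (by simpa using hs)).1
  set j := Nat.findGreatest P J with hj
  have Pj : P j := Nat.findGreatest_spec (Nat.zero_le J) P0
  have jJ : (j : ℝ) ≤ J := by exact_mod_cast Nat.findGreatest_le J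
  have j0 : (0 : ℝ) ≤ j := Nat.cast_nonneg j
  set β := 1 - j * δ with hβ
  set T := (3 * ((J : ℝ) - j) + 1) * Λ with hTd
  have b0 : 1 / 2 ≤ β := by nlinarith
  have b1 : β ≤ 1 := by nlinarith
  have T1 : T + 3 * Λ ≤ c * Λ := by nlinarith
  have ub := fun φ : 𝒯 => hW _ _ _ Λ β T k2 (D φ) b0 b1 (by linarith)
    fun s s0 s1 => Pj φ s s0 (by linarith)
  have e5 : ∀ n : ℝ, n ≤ 20 → Real.exp (n * η * Λ) ≤ Real.exp (ε * Λ) := fun n hn =>
    Real.exp_le_exp.2 (by nlinarith [mul_pos hη hΛ0])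
  refine ⟨β, T, b0, b1, by nlinarith, by nlinarith [mul_pos (Real.exp_pos L₁) hΛ0],
    fun φ hφ X t hX ht => ?_, ?_⟩
  · have e6 : Real.exp (3 * η * Λ) * X ^ β ≤ Real.exp (ε * Λ) * X ^ β :=
      mul_le_mul_of_nonneg_right (e5 3 (by norm_num)) (by positivity)
    exact ⟨(ub ⟨φ, hφ⟩ X t hX ht).1.trans e6, fun h => ((ub ⟨φ, hφ⟩ X t hX ht).2 h).trans e6⟩
  by_cases hjJ : j = J
  · left
    rw [hβ, hjJ]
    linarith
  right
  have hn : ¬ P (j + 1) := Nat.findGreatest_is_greatest (Nat.lt_succ_self j)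
    (Nat.succ_le_of_lt (lt_of_le_of_ne (Nat.findGreatest_le J) hjJ))
  simp only [hP, not_forall, not_not] at hn
  obtain ⟨φ, ρ, r0, r1, r2⟩ := hn
  push_cast at r0 r1
  have r3 : |ρ.im| ≤ T := r1.trans_eq (by ring)
  have r4 : ρ.re ≤ β := by_contra fun h => Pj φ ρ (not_le.1 h) (by linarith) r2
  have r5 : β - δ ≤ ρ.re := by linarith
  have hδ1 : δ ≤ 1 / 2 := by nlinarith
  refine ⟨φ.1, φ.2, -ρ.im, by rwa [abs_neg], fun U U0 U1 => ?_⟩
  have U2 : 0 < U := (Real.exp_pos _).trans_le U0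
  have U3 : ε * Λ ≤ Real.log U := (Real.le_log_iff_exp_le U2).2 U0
  have U4 : Real.log U ≤ A * Λ := (Real.log_le_iff_le_exp U2).2 U1
  obtain ⟨i1, i2⟩ := (D φ).zer ρ.re ρ.im (by linarith) (by linarith)
  have e7 : (k - 1) * (20 * η * Λ) = (60 * η + (2 * A + 1)) * Λ := by rw [hk]; field_simp; ring
  obtain ⟨z₁, z₂, s1, s2, s3⟩ := h6 (Bk (uM φ.1) ρ.re (-ρ.im)) (Bk (uL φ.1) ρ.re (-ρ.im)) ρ.re KO k
    (Real.log U) (20 * η * Λ) (continuous_Bk (D φ).ha _ _) (continuous_Bk (D φ).hl _ _)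
    (by linarith) (by linarith) (by linarith)
    (fun i z hi => norm_Bk_le (D φ).ha _ _ z (by linarith))
    (fun i z hi => norm_Bk_le (D φ).hl _ _ z (by linarith)) i1 (i2 (by rwa [re_add_im]))
    (fun Y => h5 _ _ _ _ Y (D φ).ha (D φ).hl (D φ).cv)
    (le_add_of_nonneg_right (by positivity)) (by positivity) (by nlinarith) (by
      have e8 : Real.exp (1 + k ^ 2 / 4 + 2 * Real.log U - (k - 1) * (20 * η * Λ)) ≤
          Real.exp (1 + k ^ 2 / 4) / Real.exp Λ := by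
        rw [← Real.exp_sub, Real.exp_le_exp, e7]
        nlinarith [mul_pos hη hΛ0]
      refine (mul_le_mul_of_nonneg_left e8 (by positivity)).trans ?_
      rw [← mul_div_assoc, div_le_iff₀ (Real.exp_pos _)]
      linarith [Real.add_one_le_exp Λ])
  obtain ⟨t1, t2, t3, t4, t5⟩ := Asm.sat (D φ) hA hη hη1 hΛ0 (by linarith) r4 r5 b1 hδA
    (by nlinarith)
    (le_trans (by
      rw [Real.rpow_two]
      have : A * Λ ≤ c * Λ := by gcongr; linarith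
      nlinarith [mul_pos (by linarith : 0 < A) hΛ0]) (e2 2 zero_le_two (by linarith)))
    ((Real.rpow_le_rpow (by positivity) (by rw [abs_neg]; linarith) (by linarith)).trans
      (e2 A (by linarith) (by linarith)))
    (fun X hX => ub φ X (-ρ.im) hX (by rw [abs_neg]; linarith)) (s1.trans U4) s3
  have hεη : 20 * η * Λ ≤ ε * Λ := by gcongr
  refine ⟨Real.exp z₁, Real.exp z₂, Real.exp_le_exp.2 (by linarith),
    (Real.le_log_iff_exp_le U2).1 s1, Real.exp_le_exp.2 (by linarith), Real.exp_le_exp.2 t3, ?_,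
    t4.trans (mul_le_mul_of_nonneg_right (e5 8 (by norm_num)) (norm_nonneg _)),
    t5.trans (mul_le_mul_of_nonneg_right (e5 8 (by norm_num)) (norm_nonneg _))⟩
  rw [← Real.exp_add, ← Real.exp_add, ← Real.log_le_iff_le_exp U2]
  linarith

end Pool.Agent.P.MP_323ce2_nt.QZ
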