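import Pool.Agent.P.MP_323ce2_nt.QZ.St

/-! Continuation of the Dirichlet series from the decay of long sums. -/

namespace Pool.Agent.P.MP_323ce2_nt.QZ

open Pool.Agent.P.MP_26a8c3_nt Pool.Agent.P.MP_26a8c3_nt.QO Pool.Agent.P.MP_26a8c3_nt.QA
open Complex MeasureTheory Set Filter Asymptotics Topology

namespace Cont

/-- the square root of pi -/
noncomputable def kp : ℂ := (Real.pi : ℂ) ^ (1 / 2 : ℂ)

lemma one_le_kp : 1 ≤ ‖kp‖ := by
  rw [kp, norm_cpow_eq_rpow_re_of_pos Real.pi_pos]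
  exact Real.one_le_rpow (by linarith [Real.pi_gt_three]) (by norm_num)

lemma kp_ne : kp ≠ 0 := fun h => by
  have := one_le_kp
  rw [h, norm_zero] at this
  linarith

lemma chg (A : ℝ → ℂ) (s : ℂ) :
    mellin A (-s) = ∫ z : ℝ, A (Real.exp z) * cexp (-(s * z)) := by
  have h2 := integral_image_eq_integral_abs_deriv_smul (s := univ) (f := Real.exp) (f' := Real.exp)
    MeasurableSet.univ (fun x _ => (Real.hasDerivAt_exp x).hasDerivWithinAt)
    Real.exp_injective.injOn (fun t : ℝ => (t : ℂ) ^ (-s - 1) • A t)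
  rw [image_univ, Real.range_exp, Measure.restrict_univ] at h2
  rw [mellin, h2]
  refine integral_congr_ae (Eventually.of_forall fun x => ?_)
  simp only [abs_of_pos (Real.exp_pos x), real_smul, smul_eq_mul]
  rw [cpow_eq (Real.exp_pos x), Real.log_exp, ofReal_exp, ← mul_assoc, ← exp_add, mul_comm]
  congr 2
  ring

lemma term_eq (y t z : ℝ) (s : ℂ) : W (Real.exp z) t y * cexp (-(s * z)) =
    cexp (-1 * (z : ℂ) ^ 2 + (2 * Real.log y - s) * z +
      (-(Real.log y : ℂ) ^ 2 + t * Real.log y * I)) := by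
  rw [W, Real.log_exp, ← exp_add]
  congr 1
  push_cast
  ring

lemma int_term (y t : ℝ) (s : ℂ) :
    Integrable fun z : ℝ => W (Real.exp z) t y * cexp (-(s * z)) := by
  simp only [term_eq]
  exact integrable_cexp_quadratic' (by simp) _ _

lemma gauss {y : ℝ} (hy : 0 < y) (t : ℝ) (s : ℂ) :
    ∫ z : ℝ, W (Real.exp z) t y * cexp (-(s * z)) =
      kp * cexp (s ^ 2 / 4) * (y : ℂ) ^ (-(s - t * I)) := by
  simp only [term_eq]
  rw [integral_cexp_quadratic (by simp), cpow_eq hy, mul_assoc kp, ← exp_add, kp]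
  congr 2 <;> ring

lemma gauss_norm {y : ℝ} (hy : 0 < y) (t : ℝ) (s : ℂ) :
    ∫ z : ℝ, ‖W (Real.exp z) t y * cexp (-(s * z))‖ ≤
      ‖kp * cexp ((s.re : ℂ) ^ 2 / 4)‖ * y ^ (-s.re) := by
  have e : ((∫ z : ℝ, ‖W (Real.exp z) t y * cexp (-(s * z))‖ : ℝ) : ℂ) =
      ∫ z : ℝ, W (Real.exp z) (0 : ℝ) y * cexp (-((s.re : ℂ) * z)) := by
    rw [← integral_complex_ofReal]
    refine integral_congr_ae (Eventually.of_forall fun z => ?_)
    simp only
    rw [norm_mul, norm_W, norm_exp, W]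
    simp
  refine (Real.le_norm_self _).trans ?_
  rw [← norm_real, e, gauss hy, norm_mul, norm_cpow_eq_rpow_re_of_pos hy]
  simp

/-- the Laplace transform of the weighted sum -/
noncomputable def GG (u : O → ℂ) (t : ℝ) (s : ℂ) : ℂ := mellin (fun X => Wsum u X t) (-s)

variable {u : O → ℂ}

lemma GG_eq (hu : B1 u) (t : ℝ) {s : ℂ} (hs : 1 < s.re) :
    GG u t s = kp * cexp (s ^ 2 / 4) * DD u (s - t * I) := by
  have hsum := hasSum_integral_of_summable_integral_norm
    (F := fun (c : O) (z : ℝ) => u c * (W (Real.exp z) t (nr c) * cexp (-(s * z))))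
    (fun c => (int_term _ t s).const_mul _)
    (Summable.of_nonneg_of_le (fun c => integral_nonneg fun z => norm_nonneg _) (fun c => by
      simp only [norm_mul (u c), integral_const_mul]
      exact (mul_le_of_le_one_left (integral_nonneg fun z => norm_nonneg _) (hu c)).trans
        (gauss_norm (nr_pos c) t s)) ((QB.summable_nr hs).mul_left _))
  simp only [integral_const_mul, gauss (nr_pos _)] at hsum
  rw [GG, chg, DD, ← tsum_mul_left]
  refine Eq.trans ?_ (hsum.tsum_eq.symm.trans (tsum_congr fun c => by ring))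
  simp only [Wsum, ← tsum_mul_right, mul_assoc]

lemma GG_diff (hu : B1 u) {t B : ℝ} (hB : ∀ X : ℝ, 1 ≤ X → ‖Wsum u X t‖ ≤ B / X ^ 2) {s : ℂ}
    (hs : -2 < s.re) : DifferentiableAt ℂ (GG u t) s := by
  have hc : ContinuousOn (fun X => Wsum u X t) (Ioi 0) := by
    refine ((continuous_Bk hu 0 t).comp_continuousOn
      (Real.continuousOn_log.mono fun y hy => ne_of_gt hy)).congr fun X hX => ?_
    simp [Bk, Real.exp_log hX]
  refine DifferentiableAt.comp s (g := mellin fun X => Wsum u X t) (f := fun s : ℂ => -s)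
    (mellin_differentiableAt_of_isBigO_rpow (a := 2) (b := -(s.re + 4))
      (hc.locallyIntegrableOn measurableSet_Ioi) (IsBigO.of_bound B ?_) (by simp; linarith)
      (IsBigO.of_bound (KO * Real.exp ((s.re + 4) ^ 2 / 4)) ?_) (by simp)) (by fun_prop)
  · filter_upwards [eventually_ge_atTop 1] with X hX
    rw [Real.norm_of_nonneg (by positivity), Real.rpow_neg (by linarith), Real.rpow_two]
    exact hB X hX
  · filter_upwards [self_mem_nhdsWithin] with X hX
    have hX' : (0 : ℝ) < X := hX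
    rw [Real.norm_of_nonneg (by positivity), neg_neg, mul_assoc]
    exact norm_Wsum_le hu hX' t (by linarith)

lemma exp_le : Real.exp (3 ^ 2 / 4) ≤ 10 := by
  refine le_of_pow_le_pow_left₀ (n := 4) (by norm_num) (by norm_num) ?_
  rw [← Real.exp_nat_mul, show ((4 : ℕ) : ℝ) * (3 ^ 2 / 4) = (9 : ℕ) * 1 by norm_num,
    Real.exp_nat_mul]
  exact (pow_le_pow_left₀ (Real.exp_pos _).le Real.exp_one_lt_d9.le 9).trans (by norm_num)

lemma Bk_bd (hu : B1 u) {t B σ : ℝ} (hB : ∀ X : ℝ, 1 ≤ X → ‖Wsum u X t‖ ≤ B / X ^ 2)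
    (h0 : 0 ≤ σ) (h2 : σ ≤ 2) : Integrable (Bk u σ t) ∧ ‖∫ z, Bk u σ t z‖ ≤ B + 10 * KO := by
  have B0 : 0 ≤ B := by simpa using (norm_nonneg _).trans (hB 1 le_rfl)
  have K0 : 0 ≤ KO := zero_le_one.trans one_le_KO
  have hm := (continuous_Bk hu σ t).aestronglyMeasurable (μ := volume)
  have a1 : ∀ᵐ z ∂(volume.restrict (Iic (0 : ℝ))), ‖Bk u σ t z‖ ≤ 10 * KO * Real.exp z := by
    refine (ae_restrict_iff' measurableSet_Iic).2 (Eventually.of_forall fun z hz => ?_)
    have hz' : z ≤ 0 := hz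
    refine (norm_Bk_le hu σ t z (k := 3) (by norm_num)).trans ?_
    rw [Real.exp_add, mul_comm 10, mul_assoc]
    refine mul_le_mul_of_nonneg_left (mul_le_mul exp_le (Real.exp_le_exp.2 ?_)
      (Real.exp_pos _).le (by norm_num)) K0
    nlinarith
  have a2 : ∀ᵐ z ∂(volume.restrict (Ioi (0 : ℝ))), ‖Bk u σ t z‖ ≤ B * Real.exp (-z) := by
    refine (ae_restrict_iff' measurableSet_Ioi).2 (Eventually.of_forall fun z hz => ?_)
    have hz' : 0 < z := hz
    rw [norm_Bk]
    refine (mul_le_mul_of_nonneg_right (hB _ (Real.one_le_exp hz'.le)) (Real.exp_pos _).le).trans ?_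
    rw [div_eq_mul_inv, ← Real.exp_nat_mul, ← Real.exp_neg, mul_assoc, ← Real.exp_add]
    refine mul_le_mul_of_nonneg_left (Real.exp_le_exp.2 ?_) B0
    push_cast
    nlinarith
  have i1 := (integrableOn_exp_Iic 0).const_mul (10 * KO)
  have i2 := (integrableOn_exp_neg_Ioi 0).const_mul B
  have j1 : IntegrableOn (Bk u σ t) (Iic 0) := i1.mono' hm.restrict a1
  have j2 : IntegrableOn (Bk u σ t) (Ioi 0) := i2.mono' hm.restrict a2
  refine ⟨?_, ?_⟩
  · rw [← integrableOn_univ, ← Iic_union_Ioi (a := (0 : ℝ))]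
    exact j1.union j2
  · rw [← intervalIntegral.integral_Iic_add_Ioi j1 j2]
    have b1 := norm_integral_le_of_norm_le i1 a1
    have b2 := norm_integral_le_of_norm_le i2 a2
    rw [integral_const_mul, integral_exp_Iic_zero] at b1
    rw [integral_const_mul, integral_exp_neg_Ioi_zero] at b2
    exact (norm_add_le _ _).trans (by linarith)

end Cont

open Cont in
theorem pCont : S_Cont := by
  intro u Bd hu hB
  have hU : IsOpen {s : ℂ | -2 < s.re} := isOpen_lt continuous_const continuous_re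
  set L : ℂ → ℂ := fun s => GG u 0 s * (cexp (-(s ^ 2 / 4)) / kp) with hL
  have dL : ∀ s : ℂ, -2 < s.re → DifferentiableAt ℂ L s := fun s hs =>
    (GG_diff hu (fun X => hB X 0) hs).mul (by fun_prop)
  have eL : ∀ s : ℂ, 1 < s.re → L s = DD u s := fun s hs => by
    simp only [hL]
    rw [GG_eq hu 0 hs, ofReal_zero, zero_mul, sub_zero, exp_neg]
    have := kp_ne
    have := exp_ne_zero (s ^ 2 / 4)
    field_simp
  have key : ∀ σ t : ℝ, 0 ≤ σ →
      ∫ z, Bk u σ (-t) z = kp * cexp ((σ : ℂ) ^ 2 / 4) * L (σ + t * I) := by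
    intro σ t h0
    have a1 : AnalyticOnNhd ℂ (GG u (-t)) {s : ℂ | -2 < s.re} :=
      DifferentiableOn.analyticOnNhd (fun z hz =>
        (GG_diff hu (fun X => hB X (-t)) hz).differentiableWithinAt) hU
    have a2 : AnalyticOnNhd ℂ (fun s => kp * cexp (s ^ 2 / 4) * L (s + t * I))
        {s : ℂ | -2 < s.re} :=
      DifferentiableOn.analyticOnNhd (fun z hz => (DifferentiableAt.mul (by fun_prop)
        ((dL (z + t * I) (by simpa using hz)).comp z
          (f := fun s : ℂ => s + t * I) (by fun_prop))).differentiableWithinAt) hU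
    have e := a1.eqOn_of_preconnected_of_eventuallyEq a2
      (convex_halfSpace_re_gt (-2)).isPreconnected (z₀ := 2) (by simp) (by
        filter_upwards [(isOpen_lt continuous_const continuous_re).mem_nhds
          (show (2 : ℂ) ∈ {s : ℂ | 1 < s.re} by simp)] with z hz
        rw [GG_eq hu _ hz, eL _ (by simpa using hz)]
        congr 2
        push_cast
        ring) (show (σ : ℂ) ∈ {s : ℂ | -2 < s.re} by simp; linarith)
    refine Eq.trans ?_ e
    rw [GG, chg]
    refine integral_congr_ae (Eventually.of_forall fun z => ?_)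
    simp [Bk]
  refine ⟨L, fun s hs => (dL s hs).differentiableWithinAt, eL, fun σ t h0 h2 => ?_,
    fun σ t h0 h2 => ⟨(Bk_bd hu (fun X => hB X (-t)) h0 h2).1, fun h => by
      rw [key σ t h0, h, mul_zero]⟩⟩
  refine le_trans ?_ (Bk_bd hu (fun X => hB X (-t)) h0 h2).2
  rw [key σ t h0, norm_mul (kp * _), norm_mul kp]
  refine le_mul_of_one_le_left (norm_nonneg (L (σ + t * I))) (one_le_mul_of_one_le_of_one_le one_le_kp ?_)
  rw [show (σ : ℂ) ^ 2 / 4 = ((σ ^ 2 / 4 : ℝ) : ℂ) by push_cast; ring, norm_exp_ofReal]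
  exact Real.one_le_exp (by positivity)

end Pool.Agent.P.MP_323ce2_nt.QZ
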