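import Pool.Agent.P.MP_323ce2_nt.QZ.St

/-! The additive convolution of the two block functions. -/

namespace Pool.Agent.P.MP_323ce2_nt.QZ

open Pool.Agent.P.MP_26a8c3_nt Pool.Agent.P.MP_26a8c3_nt.QO Pool.Agent.P.MP_26a8c3_nt.QA
open Complex MeasureTheory

namespace Cvl

/-- a shifted Gaussian -/
noncomputable def gs (m z : ℝ) : ℝ := Real.exp (-2 * (z - m) ^ 2)

lemma gs_int (m : ℝ) : Integrable (gs m) :=
  (integrable_exp_neg_mul_sq two_pos).comp_sub_right m

lemma gs_val (m : ℝ) : ∫ z, gs m z = √(Real.pi / 2) :=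
  (integral_sub_right_eq_self (fun z : ℝ => Real.exp (-2 * z ^ 2)) m).trans (integral_gaussian 2)

/-- the test function -/
noncomputable def vv (t Z y : ℝ) : ℂ :=
  cexp ((-(Real.log y - Z) ^ 2 / 2 : ℝ) + t * Real.log y * I)

lemma norm_vv (t Z y : ℝ) : ‖vv t Z y‖ = Real.exp (-(Real.log y - Z) ^ 2 / 2) := by
  rw [vv, Complex.norm_exp]
  congr 1
  simp only [add_re, ofReal_re, mul_re, ofReal_im, mul_zero, sub_zero, I_re, mul_im,
    zero_mul, add_zero, I_im, mul_one, sub_self]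

lemma two_W {x y : ℝ} (hx : 0 < x) (hy : 0 < y) (t Z z : ℝ) :
    W (Real.exp z) t x * W (Real.exp (Z - z)) t y =
      vv t Z (x * y) * gs ((Real.log x - Real.log y + Z) / 2) z := by
  rw [W, W, vv, gs, Real.log_exp, Real.log_exp, Real.log_mul hx.ne' hy.ne', ofReal_exp,
    ← Complex.exp_add, ← Complex.exp_add]
  congr 1
  push_cast
  ring

lemma summable_vv (t Z : ℝ) : Summable fun p : O × O => ‖vv t Z (nr p.1 * nr p.2)‖ := by
  have h := QB.summable_nr one_lt_two
  have h0 : ∀ c : O, 0 ≤ nr c ^ (-(2 : ℝ)) := fun c => (Real.rpow_pos_of_pos (nr_pos c) _).le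
  refine Summable.of_nonneg_of_le (fun _ => norm_nonneg _) (fun p => ?_)
    ((h.mul_of_nonneg h h0 h0).mul_left (Real.exp (2 + 2 * Z)))
  rw [norm_vv, Real.log_mul (nr_pos _).ne' (nr_pos _).ne', Real.rpow_def_of_pos (nr_pos _),
    Real.rpow_def_of_pos (nr_pos _), ← Real.exp_add, ← Real.exp_add, Real.exp_le_exp]
  nlinarith [sq_nonneg (Real.log (nr p.1) + Real.log (nr p.2) - Z - 2)]

end Cvl

open Cvl in
theorem pCvl : S_Cvl := by
  intro a l β t Z ha hl h
  let F : O × O → ℝ → ℂ := fun p z => a p.1 * l p.2 * vv t Z (nr p.1 * nr p.2) *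
    gs ((Real.log (nr p.1) - Real.log (nr p.2) + Z) / 2) z
  have h1 : ∀ z, Bk a β t z * Bk l β t (Z - z) =
      (Real.exp (-(β * Z)) : ℝ) * ∑' p : O × O, F p z := fun z => by
    rw [Bk, Bk, mul_mul_mul_comm, Wsum, Wsum, tsum_mul_tsum_of_summable_norm
      (QB.summable_W1 ha (Real.exp_pos _) t) (QB.summable_W1 hl (Real.exp_pos _) t),
      ← ofReal_mul, ← Real.exp_add, mul_comm]
    congr 1
    · congr 2
      ring
    · refine tsum_congr fun p => ?_
      rw [mul_mul_mul_comm, two_W (nr_pos _) (nr_pos _), ← mul_assoc]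
  have h2 : ∀ p, Integrable (F p) := fun p => (gs_int _).ofReal.const_mul _
  have h3 : Summable fun p => ∫ z, ‖F p z‖ := by
    refine Summable.of_nonneg_of_le (fun p => integral_nonneg fun _ => norm_nonneg _)
      (fun p => ?_) ((summable_vv t Z).mul_right √(Real.pi / 2))
    have e : ∀ z, ‖F p z‖ = ‖a p.1 * l p.2‖ * ‖vv t Z (nr p.1 * nr p.2)‖ *
        gs ((Real.log (nr p.1) - Real.log (nr p.2) + Z) / 2) z := fun z => by
      rw [norm_mul, norm_mul, norm_real, gs, Real.norm_of_nonneg (Real.exp_pos _).le]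
    simp only [e]
    rw [integral_const_mul, gs_val]
    exact mul_le_mul_of_nonneg_right (mul_le_of_le_one_left (norm_nonneg _)
      (QB.norm_mul_le_one (ha _) (hl _))) (Real.sqrt_nonneg _)
  have h4 : ∀ p, ∫ z, F p z =
      a p.1 * l p.2 * vv t Z (nr p.1 * nr p.2) * (√(Real.pi / 2) : ℝ) := fun p => by
    rw [integral_const_mul, integral_complex_ofReal, gs_val]
  simp only [h1]
  rw [integral_const_mul, ← (hasSum_integral_of_summable_integral_norm h2 h3).tsum_eq]
  simp only [h4]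
  rw [tsum_mul_right, h (vv t Z) (summable_vv t Z), vv, Real.log_one, sub_eq_add_neg (-(β * Z)),
    Real.exp_add]
  push_cast
  rw [mul_zero, zero_mul, add_zero, zero_sub, neg_sq, neg_div]
  ring

end Pool.Agent.P.MP_323ce2_nt.QZ
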