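import Pool.Agent.P.MP_323ce2_nt.QZ.St

/-! Detection, as a statement on two functions of a real variable. -/

namespace Pool.Agent.P.MP_323ce2_nt.QZ

open MeasureTheory Set Real

namespace Det

lemma shift (g : ℝ → ℂ) (a z : ℝ) : ∫ Z in Iic a, g (Z - z) = ∫ w in Iic (a - z), g w := by
  rw [← integral_indicator measurableSet_Iic, ← integral_indicator measurableSet_Iic,
    ← integral_sub_right_eq_self ((Iic (a - z)).indicator g) z]
  congr 1
  funext Z
  simp only [indicator, mem_Iic, sub_le_sub_iff_right]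

lemma exp_abs (z : ℝ) : exp (-(2 * |z|)) ≤ (1 + z ^ 2)⁻¹ := by
  rw [exp_neg]
  refine inv_anti₀ (by positivity) ?_
  have h1 := add_one_le_exp |z|
  have h2 := abs_nonneg z
  rw [two_mul, exp_add, ← sq_abs z]
  nlinarith

lemma dom {f g : ℝ → ℂ} {β K a Z : ℝ} (hβ0 : 0 ≤ β) (hβ1 : β ≤ 1) (hK : 0 ≤ K)
    (bf : ∀ j z : ℝ, 2 ≤ j → ‖f z‖ ≤ K * exp (j ^ 2 / 4 + (j - β) * z))
    (bg : ∀ j z : ℝ, 2 ≤ j → ‖g z‖ ≤ K * exp (j ^ 2 / 4 + (j - β) * z))
    (ha : 0 ≤ a) (hZ : Z ≤ a) (z : ℝ) :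
    ‖f z * g (Z - z)‖ ≤ K ^ 2 * exp (5 + 3 * a) * exp Z * (1 + z ^ 2)⁻¹ := by
  have key : ∀ i j : ℝ, 2 ≤ i → 2 ≤ j →
      i ^ 2 / 4 + (i - β) * z + (j ^ 2 / 4 + (j - β) * (Z - z)) ≤ 5 + 3 * a + Z + -(2 * |z|) →
      ‖f z * g (Z - z)‖ ≤ K ^ 2 * exp (5 + 3 * a) * exp Z * (1 + z ^ 2)⁻¹ := by
    intro i j hi hj h
    rw [norm_mul]
    refine (mul_le_mul (bf i z hi) (bg j _ hj) (norm_nonneg _) (by positivity)).trans ?_
    refine le_trans ?_ (mul_le_mul_of_nonneg_left (exp_abs z) (by positivity))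
    rw [mul_mul_mul_comm, ← exp_add, ← sq, mul_assoc, mul_assoc, ← exp_add, ← exp_add]
    exact mul_le_mul_of_nonneg_left (exp_le_exp.2 (by linarith)) (by positivity)
  have h1 : (3 - β) * Z ≤ 3 * a := by
    rcases le_total 0 Z with h | h <;> nlinarith
  have h2 : (1 - β) * Z ≤ 3 * a := by
    rcases le_total 0 Z with h | h <;> nlinarith
  rcases le_total 0 z with h | h
  · refine key 2 4 le_rfl (by norm_num) ?_
    rw [abs_of_nonneg h]
    nlinarith
  · refine key 4 2 (by norm_num) le_rfl ?_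
    rw [abs_of_nonpos h]
    nlinarith

lemma low {β a : ℝ} (hβ0 : 0 ≤ β) (ha : 0 ≤ a)
    (hi : IntegrableOn (fun Z => √(π / 2) * exp (-(β * Z) - Z ^ 2 / 2)) (Iic a)) :
    1 / 2 ≤ ∫ Z in Iic a, √(π / 2) * exp (-(β * Z) - Z ^ 2 / 2) := by
  have hs : Icc (-1 : ℝ) 0 ⊆ Iic a := fun _ h => h.2.trans ha
  refine le_trans ?_ (setIntegral_mono_set hi (ae_of_all _ fun Z => by positivity) hs.eventuallyLE)
  refine le_trans ?_ (setIntegral_mono_on (f := fun _ => (1 / 2 : ℝ)) (by simp) (hi.mono_set hs)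
    measurableSet_Icc fun Z hZ => ?_)
  · simp
  · have h1 : 1 ≤ √(π / 2) := one_le_sqrt.2 (by linarith [two_le_pi])
    have h2 := add_one_le_exp (-(β * Z) - Z ^ 2 / 2)
    have h3 : 0 ≤ -(β * Z) := by nlinarith [hZ.2]
    have h4 : Z ^ 2 ≤ 1 := by nlinarith [hZ.1, hZ.2]
    nlinarith [exp_pos (-(β * Z) - Z ^ 2 / 2)]

lemma tail {g : ℝ → ℂ} {β K k w : ℝ} (hβ1 : β ≤ 1) (hK : 0 ≤ K) (hk : 2 ≤ k) (hw : w ≤ 0)
    (bg : ∀ z : ℝ, ‖g z‖ ≤ K * exp (k ^ 2 / 4 + (k - β) * z)) :
    ‖∫ v in Iic w, g v‖ ≤ K * exp (k ^ 2 / 4 + (k - 1) * w) := by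
  refine (norm_integral_le_of_norm_le
    ((integrableOn_exp_Iic w).const_mul (K * exp (k ^ 2 / 4 + (k - 2) * w)))
    (ae_restrict_of_forall_mem measurableSet_Iic fun v hv => (bg v).trans ?_)).trans (le_of_eq ?_)
  · rw [mul_assoc, ← exp_add]
    refine mul_le_mul_of_nonneg_left (exp_le_exp.2 ?_) hK
    have h1 : v ≤ w := hv
    nlinarith [mul_nonneg (sub_nonneg.2 hk) (sub_nonneg.2 h1),
      mul_nonneg (sub_nonneg.2 hβ1) (neg_nonneg.2 (h1.trans hw))]
  · rw [integral_const_mul, integral_exp_Iic, mul_assoc, ← exp_add]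
    congr 2
    ring

lemma head {g : ℝ → ℂ} (ig : Integrable g) (zg : ∫ z, g z = 0) {c : ℂ} {b w : ℝ} (hb : 0 ≤ b)
    (h : ∀ v, w < v → ‖c‖ * ‖g v‖ ≤ b * (1 + v ^ 2)⁻¹) : ‖c * ∫ v in Iic w, g v‖ ≤ π * b := by
  have h1 := integral_add_compl (measurableSet_Iic (a := w)) ig
  rw [zg, compl_Iic] at h1
  rw [eq_neg_of_add_eq_zero_left h1, mul_neg, norm_neg, ← integral_const_mul]
  have h2 := integrable_inv_one_add_sq.const_mul b
  refine (norm_integral_le_of_norm_le h2.integrableOn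
    (ae_restrict_of_forall_mem measurableSet_Ioi fun v hv => ?_)).trans ?_
  · rw [norm_mul]
    exact h v hv
  · refine (setIntegral_le_integral h2 (ae_of_all _ fun v => by positivity)).trans (le_of_eq ?_)
    rw [integral_const_mul, integral_univ_inv_one_add_sq, mul_comm]

end Det

open Det in
theorem pDet : S_Det := by
  intro f g β K k u R hf hg hβ0 hβ1 hK bf bg ig zg cv hk hR hRu hsm
  by_contra hc
  push Not at hc
  have ha : 0 ≤ u - R := by linarith
  have hint : Integrable (Function.uncurry fun Z z : ℝ => f z * g (Z - z))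
      ((volume.restrict (Iic (u - R))).prod volume) := by
    refine Integrable.mono' (((integrableOn_exp_Iic (u - R)).const_mul
      (K ^ 2 * exp (5 + 3 * (u - R)))).mul_prod integrable_inv_one_add_sq) ?_ ?_
    · exact Continuous.aestronglyMeasurable (by unfold Function.uncurry; fun_prop)
    · rw [Measure.restrict_prod_eq_prod_univ]
      refine ae_restrict_of_forall_mem (measurableSet_Iic.prod MeasurableSet.univ) ?_
      rintro ⟨Z, z⟩ ⟨hZ, -⟩
      exact dom hβ0 hβ1 hK bf bg ha hZ z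
  have hsw := integral_integral_swap hint
  have hi := hint.integral_prod_left.norm
  simp only [Function.uncurry, cv] at hi
  have hl := low hβ0 ha (hi.congr (ae_of_all _ fun Z => by
    simp only [Complex.norm_real]
    exact Real.norm_of_nonneg (by positivity)))
  simp only [cv, integral_const_mul, shift, integral_complex_ofReal] at hsw
  set E := K ^ 2 * exp (1 + k ^ 2 / 4 + 2 * u - (k - 1) * R) with hE
  have i1 := integrable_inv_one_add_sq.const_mul (π / 100)
  have i2 : Integrable ((Ioi u).indicator fun z : ℝ => E * exp u * exp (-z)) :=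
    (integrable_indicator_iff measurableSet_Ioi).2
      ((integrableOn_exp_neg_Ioi u).const_mul (E * exp u))
  have hu := norm_integral_le_of_norm_le
    (f := fun z => f z * ∫ w in Iic (u - R - z), g w) (i1.add i2) (ae_of_all _ fun z => by
      simp only [Pi.add_apply]
      rcases le_or_gt z u with hz | hz
      · rw [indicator_of_notMem (by simpa using hz), add_zero]
        refine (head ig zg (b := 1 / 100 * (1 + z ^ 2)⁻¹) (by positivity) fun v hv => ?_).trans
          (le_of_eq (by ring))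
        rw [mul_assoc, ← mul_inv, ← div_eq_mul_inv, le_div_iff₀ (by positivity)]
        exact (hc z v hz (by linarith)).le
      · rw [indicator_of_mem (mem_Ioi.2 hz), norm_mul]
        refine le_trans ?_ (le_add_of_nonneg_left (by positivity))
        refine (mul_le_mul (bf 2 z le_rfl) (tail hβ1 hK (k := k) (by linarith) (by linarith)
          fun v => bg k v (by linarith)) (norm_nonneg _) (by positivity)).trans ?_
        rw [hE, mul_mul_mul_comm, ← exp_add, ← sq, mul_assoc, mul_assoc, ← exp_add, ← exp_add]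
        refine mul_le_mul_of_nonneg_left (exp_le_exp.2 ?_) (by positivity)
        nlinarith [mul_nonneg hβ0 (show 0 ≤ z by linarith),
          mul_nonneg (sub_nonneg.2 hk) (sub_nonneg.2 hz.le)])
  rw [← hsw, Complex.norm_real, integral_add' i1 i2, integral_const_mul,
    integral_univ_inv_one_add_sq, integral_indicator measurableSet_Ioi, integral_const_mul,
    integral_exp_neg_Ioi, mul_assoc E, ← exp_add, add_neg_cancel, exp_zero, mul_one] at hu
  have h1 := (le_abs_self _).trans hu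
  rw [integral_const_mul] at hl
  nlinarith [pi_le_four, pi_pos]

end Pool.Agent.P.MP_323ce2_nt.QZ
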