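import Pool.Agent.P.MP_323ce2_nt.QZ.St
import Pool.Agent.P.MP_323ce2_nt.Littlewood

/-! Growth of the inverse of zeta inside a zero free half plane. -/

namespace Pool.Agent.P.MP_323ce2_nt.QZ

open Complex Metric Set

namespace Inv

lemma inv_eq {s : ℂ} (hs : s ≠ 1) : (s - 1) / riemannZeta₁ s = (riemannZeta s)⁻¹ := by
  rw [riemannZeta_eq_inv_sub_mul hs, mul_inv, inv_inv, div_eq_mul_inv]

lemma ne_zero {θ : ℝ} (h : ZZ θ) {s : ℂ} (hs : θ < s.re) : riemannZeta₁ s ≠ 0 := by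
  by_cases h1 : s = 1
  · rw [h1, riemannZeta₁_one]
    exact one_ne_zero
  · intro h0
    exact h s hs (by rw [riemannZeta_eq_inv_sub_mul h1, h0, mul_zero])

lemma re_gt {T r : ℝ} {z : ℂ} (hz : z ∈ ball (2 + T * I) r) : 2 - r < z.re := by
  rw [mem_ball, dist_eq_norm] at hz
  have h := abs_lt.1 ((abs_re_le_norm (z - (2 + T * I))).trans_lt hz)
  have e : (z - (2 + T * I)).re = z.re - 2 := by simp
  rw [e] at h
  linarith [h.1]

lemma far (h : S_Lw) {θ σ η : ℝ} (h1 : 1 / 2 ≤ θ) (h2 : θ ≤ 1) (h3 : θ < σ) (hη : 0 < η)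
    (hz : ZZ θ) : ∃ T1 : ℝ, ∀ s : ℂ, σ ≤ s.re → s.re ≤ 2 → T1 ≤ |s.im| →
      ‖(s - 1) / riemannZeta₁ s‖ ≤ (1 + |s.im|) ^ η := by
  obtain ⟨L, hL⟩ := h (σ - θ) η 4 K0 (by linarith) hη (by norm_num) one_le_K0
  refine ⟨max 3 (Real.exp L), fun s hs1 hs2 hT => ?_⟩
  have hT3 : 3 ≤ |s.im| := (le_max_left _ _).trans hT
  have hT0 : 0 < |s.im| := by linarith
  have hTL : L ≤ Real.log |s.im| :=
    (Real.le_log_iff_exp_le hT0).2 ((le_max_right _ _).trans hT)
  have hs : s ≠ 1 := by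
    rintro rfl
    rw [one_im, abs_zero] at hT0
    exact lt_irrefl _ hT0
  have hdiff : DifferentiableOn ℂ riemannZeta (ball (2 + s.im * I) 2) := by
    simpa using differentiableOn_zeta hT3 2
  have hmem : s ∈ closedBall (2 + s.im * I) (2 - θ - (σ - θ)) := by
    rw [mem_closedBall, dist_eq_norm]
    have e : s - (2 + s.im * I) = ((s.re - 2 : ℝ) : ℂ) := by
      apply Complex.ext <;> simp
    rw [e, norm_real, Real.norm_eq_abs, abs_le]
    constructor <;> linarith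
  have key := (hL riemannZeta (2 + s.im * I) (2 - θ) (Real.log |s.im|) hTL (by linarith)
    (by linarith) (hdiff.mono (ball_subset_ball (by linarith)))
    (fun z hzm => ⟨hz z (by linarith [re_gt hzm]), zeta_poly hT3
      (ball_subset_closedBall (ball_subset_ball (by linarith) hzm))⟩)
    (fun z hzm => norm_zeta_le_K0 (by linarith [re_gt hzm]))
    (norm_inv_zeta_le_K0 (by simp; norm_num)) s hmem).2
  rw [inv_eq hs, norm_inv]
  refine key.trans ?_
  rw [mul_comm, ← Real.rpow_def_of_pos hT0]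
  exact Real.rpow_le_rpow hT0.le (by linarith) hη.le

end Inv

theorem pInv (h : S_Lw) : S_Inv := by
  intro θ σ η h1 h2 h3 hη hz
  obtain ⟨T, hT⟩ := Inv.far h h1 h2 h3 hη hz
  have hK : IsCompact (Icc σ 2 ×ℂ Icc (-T) T) := isCompact_Icc.reProdIm isCompact_Icc
  have hc : ContinuousOn (fun s : ℂ => (s - 1) / riemannZeta₁ s) (Icc σ 2 ×ℂ Icc (-T) T) :=
    ContinuousOn.div (by fun_prop) differentiable_riemannZeta₁.continuous.continuousOn
      fun s hs => Inv.ne_zero hz (h3.trans_le (mem_reProdIm.1 hs).1.1)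
  obtain ⟨C, hC⟩ := hK.exists_bound_of_continuousOn hc
  refine ⟨max C 1, le_max_of_le_right zero_le_one, fun s hs1 hs2 => ?_⟩
  have h4 : 1 ≤ (1 + |s.im|) ^ η := Real.one_le_rpow (by linarith [abs_nonneg s.im]) hη.le
  rcases le_total T |s.im| with h5 | h5
  · exact (hT s hs1 hs2 h5).trans (le_mul_of_one_le_left (by linarith) (le_max_right _ _))
  · refine ((hC s (mem_reProdIm.2 ⟨⟨hs1, hs2⟩, abs_le.1 h5⟩)).trans (le_max_left C 1)).trans ?_
    exact le_mul_of_one_le_right (le_max_of_le_right zero_le_one) h4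

end Pool.Agent.P.MP_323ce2_nt.QZ
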