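import Pool.Agent.P.MP_323ce2_nt.QZ.St
import Pool.Agent.P.MP_0ad054_nt.An.TauberA
import Pool.Agent.P.MP_323ce2_nt.Zeta

/-! From the growth of the inverse of zeta to the Mertens function. -/

namespace Pool.Agent.P.MP_323ce2_nt.QZ

open Pool.Agent.P.MP_26a8c3_nt Pool.Agent.P.MP_26a8c3_nt.QO Pool.Agent.P.MP_26a8c3_nt.QA
open Pool.Agent.P.MP_0ad054_nt.An.TauberP
open Complex MeasureTheory Filter Topology

namespace MertP

/-- the power -/
noncomputable def E (Z : ℝ) (s : ℂ) : ℂ := cexp ((s + 1) * Real.log Z)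

/-- the inverse of zeta -/
noncomputable def F (s : ℂ) : ℂ := (s - 1) / riemannZeta₁ s

theorem norm_E' {Z : ℝ} (hZ : 0 < Z) (s : ℂ) : ‖E Z s‖ = Z ^ (s.re + 1) := by
  rw [E, norm_E, Real.rpow_def_of_pos hZ, mul_comm]
  simp

theorem E_eq {Z : ℝ} (hZ : 0 < Z) (s : ℂ) : E Z s = Z * cexp (s * Real.log Z) := by
  rw [E, add_mul, Complex.exp_add, one_mul, ← ofReal_exp, Real.exp_log hZ, mul_comm]

theorem F_eq {s : ℂ} (hs : s ≠ 1) : F s = (riemannZeta s)⁻¹ := by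
  rw [riemannZeta_eq_inv_sub_mul hs, mul_inv, inv_inv, F, div_eq_mul_inv]

theorem E_sub {y : ℝ} (hy : 0 < y) {s : ℂ} (hs : 0 ≤ s.re) :
    ‖E (y + 1) s - E y s‖ ≤ ‖s + 1‖ * (y + 1) ^ s.re := by
  have h := norm_image_sub_le_of_norm_deriv_le_segment' (f := fun Z : ℝ => E Z s)
    (f' := fun Z : ℝ => E Z s * ((s + 1) * ((Z⁻¹ : ℝ) : ℂ))) (a := y) (b := y + 1)
    (C := ‖s + 1‖ * (y + 1) ^ s.re) (fun Z hZ => ?_) (fun Z hZ => ?_) (y + 1) (by simp)
  · simpa using h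
  · have hZ0 : Z ≠ 0 := (hy.trans_le hZ.1).ne'
    exact (((Real.hasDerivAt_log hZ0).ofReal_comp.const_mul (s + 1)).cexp).hasDerivWithinAt
  · have hZ0 : 0 < Z := hy.trans_le hZ.1
    rw [norm_mul, norm_mul, norm_E' hZ0, norm_real, Real.norm_of_nonneg (by positivity),
      Real.rpow_add_one hZ0.ne']
    have h1 : Z ^ s.re ≤ (y + 1) ^ s.re := Real.rpow_le_rpow hZ0.le hZ.2.le hs
    calc Z ^ s.re * Z * (‖s + 1‖ * Z⁻¹) = ‖s + 1‖ * Z ^ s.re := by field_simp
      _ ≤ _ := by gcongr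

theorem interp {u a b θ : ℝ} (hu : 0 ≤ u) (ha : u ≤ a) (hb : u ≤ b) (h0 : 0 ≤ θ) (h1 : θ ≤ 1) :
    u ≤ a ^ (1 - θ) * b ^ θ := by
  have e : u = u ^ (1 - θ) * u ^ θ := by
    rw [← Real.rpow_add' hu (by norm_num)]
    simp
  rw [e]
  exact mul_le_mul (Real.rpow_le_rpow hu ha (by linarith)) (Real.rpow_le_rpow hu hb h0)
    (by positivity) (Real.rpow_nonneg (hu.trans ha) _)

theorem E_sub' {y σ θ : ℝ} (hy : 0 < y) (h0 : 0 ≤ σ) (h2 : σ ≤ 2) (hθ : 0 ≤ θ) (hθ1 : θ ≤ 1)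
    (t : ℝ) : ‖E (y + 1) (σ + t * I) - E y (σ + t * I)‖ ≤
      3 * (y + 1) ^ σ * (2 * (y + 1)) ^ θ * (1 + |t|) ^ (1 - θ) := by
  have hre : ((σ : ℂ) + t * I).re = σ := by simp
  have hY : 0 < (y + 1) ^ σ := by positivity
  have h1 := E_sub hy (s := σ + t * I) (by rwa [hre])
  have h3 : ‖(σ : ℂ) + t * I + 1‖ ≤ 3 * (1 + |t|) := by
    refine (norm_le_abs_re_add_abs_im _).trans ?_
    simp only [add_re, hre, one_re, add_im, ofReal_im, mul_im, ofReal_re, I_im, mul_one, I_re,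
      mul_zero, add_zero, zero_add, one_im]
    rw [abs_of_nonneg (by linarith)]
    linarith [abs_nonneg t]
  have h4 : ‖E (y + 1) (σ + t * I) - E y (σ + t * I)‖ ≤ 2 * (y + 1) * (y + 1) ^ σ := by
    refine (norm_sub_le _ _).trans ?_
    rw [norm_E' (by linarith), norm_E' hy, hre]
    have h5 : y ^ (σ + 1) ≤ (y + 1) ^ (σ + 1) := Real.rpow_le_rpow hy.le (by linarith) (by linarith)
    rw [Real.rpow_add_one (by linarith : y + 1 ≠ 0)] at h5 ⊢
    linarith
  rw [hre] at h1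
  have h6 := interp (u := ‖E (y + 1) (σ + t * I) - E y (σ + t * I)‖ / (y + 1) ^ σ)
    (a := 3 * (1 + |t|)) (b := 2 * (y + 1)) (by positivity)
    ((div_le_iff₀ hY).2 (h1.trans (by gcongr))) ((div_le_iff₀ hY).2 h4) hθ hθ1
  rw [div_le_iff₀ hY, Real.mul_rpow (by norm_num) (by positivity)] at h6
  have h7 : (3 : ℝ) ^ (1 - θ) ≤ 3 :=
    (Real.rpow_le_rpow_of_exponent_le (by norm_num) (by linarith : 1 - θ ≤ 1)).trans (by simp)
  refine h6.trans ?_
  calc _ ≤ 3 * (1 + |t|) ^ (1 - θ) * (2 * (y + 1)) ^ θ * (y + 1) ^ σ := by gcongr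
    _ = _ := by ring

theorem pt {σ η C B t : ℝ} (hσ : 1 / 2 ≤ σ) (hB : 0 ≤ B) {e : ℂ}
    (he : ‖e‖ ≤ B * (1 + |t|) ^ (1 - 2 * η)) (hF : ‖F (σ + t * I)‖ ≤ C * (1 + |t|) ^ η) :
    ‖e * g (σ + t * I) * F (σ + t * I)‖ ≤ 8 * B * C * (1 + |t|) ^ (-(1 + η)) := by
  have h0 : 0 < 1 + |t| := by positivity
  have h1 : ‖g (σ + t * I)‖ ≤ 8 * (1 + |t|) ^ (-2 : ℝ) := by
    refine (norm_g_half hσ t).trans ?_
    rw [Real.rpow_neg h0.le, Real.rpow_two, ← div_eq_mul_inv, ← div_eq_mul_inv,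
      div_le_div_iff₀ (by positivity) (by positivity), ← sq_abs t]
    nlinarith [sq_nonneg (|t| - 1)]
  have h2 : (1 + |t|) ^ (-(1 + η)) =
      (1 + |t|) ^ (1 - 2 * η) * (1 + |t|) ^ (-2 : ℝ) * (1 + |t|) ^ η := by
    rw [← Real.rpow_add h0, ← Real.rpow_add h0]
    congr 1
    ring
  rw [norm_mul, norm_mul, h2]
  calc _ ≤ B * (1 + |t|) ^ (1 - 2 * η) * (8 * (1 + |t|) ^ (-2 : ℝ)) * (C * (1 + |t|) ^ η) := by
        gcongr
    _ = _ := by ring

end MertP

open MertP in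
theorem pMert : S_Mert := by
  intro σ η C hσ hσ1 hη hη1 hC hz hb
  have hF : ∀ σ' t : ℝ, σ ≤ σ' → σ' ≤ 2 → ‖F (σ' + t * I)‖ ≤ C * (1 + |t|) ^ η :=
    fun σ' t h1 h2 => by simpa [F] using hb (σ' + t * I) (by simpa using h1) (by simpa using h2)
  have hJ : Integrable fun t : ℝ => (1 + |t|) ^ (-(1 + η)) :=
    integrable_one_add_norm (E := ℝ) (r := 1 + η) (by simpa using hη)
  have hd : ∀ (Z : ℝ) (s : ℂ), σ ≤ s.re → DifferentiableAt ℂ (fun s => E Z s * g s * F s) s :=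
    fun Z s hs => ((by unfold E; fun_prop : DifferentiableAt ℂ (E Z) s).mul
      (differentiableAt_g (by linarith))).mul
      ((by fun_prop : DifferentiableAt ℂ (fun s : ℂ => s - 1) s).div
        (differentiable_riemannZeta₁ s) (hz s hs))
  have hP : ∀ Z σ' t : ℝ, 1 ≤ Z → σ ≤ σ' → σ' ≤ 2 →
      ‖E Z (σ' + t * I) * g (σ' + t * I) * F (σ' + t * I)‖ ≤
        8 * Z ^ (3 : ℝ) * C * (1 + |t|) ^ (-(1 + η)) := fun Z σ' t hZ h1 h2 => by
    refine pt (by linarith) (by positivity) ?_ (hF σ' t h1 h2)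
    rw [norm_E' (by linarith)]
    refine (Real.rpow_le_rpow_of_exponent_le hZ (by simp; linarith)).trans
      (le_mul_of_one_le_right (by positivity)
        (Real.one_le_rpow (by linarith [abs_nonneg t]) (by linarith)))
  have hi : ∀ Z σ' : ℝ, 1 ≤ Z → σ ≤ σ' → σ' ≤ 2 →
      Integrable fun t : ℝ => E Z (σ' + t * I) * g (σ' + t * I) * F (σ' + t * I) :=
    fun Z σ' hZ h1 h2 => Integrable.mono' (hJ.const_mul _)
      (Continuous.aestronglyMeasurable (continuous_iff_continuousAt.2 fun t =>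
        ContinuousAt.comp (f := fun t : ℝ => (σ' : ℂ) + t * I)
          (hd Z _ (by simpa using h1)).continuousAt (by fun_prop)))
      (Eventually.of_forall fun t => hP Z σ' t hZ h1 h2)
  have hper : ∀ (Z : ℝ) (N : ℕ), 1 ≤ Z → Z < N + 1 →
      ∑ n ∈ Finset.Icc 1 N, ((ArithmeticFunction.moebius n : ℤ) : ℂ) * (Z * f0 (n / Z)) =
        (1 / (2 * Real.pi) : ℝ) • ∫ t : ℝ, E Z (σ + t * I) * g (σ + t * I) * F (σ + t * I) := by
    intro Z N hZ hN
    have hZ0 : 0 < Z := by linarith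
    have h1 := perron (fun n => ((ArithmeticFunction.moebius n : ℤ) : ℂ)) 2 Z N (by norm_num)
      hZ0 hN (ArithmeticFunction.LSeriesSummable_moebius_iff.2 (by norm_num)).norm
    have h2 := shift_line (H := fun s => E Z s * g s * F s) (σ1 := σ) (σ2 := 2)
      (fun s hs => (hd Z s hs.1).differentiableWithinAt) (by linarith)
      (b := fun T => 8 * Z ^ (3 : ℝ) * C * (1 + T) ^ (-(1 + η))) (by
        simpa using ((tendsto_rpow_neg_atTop (by linarith : 0 < 1 + η)).comp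
          (tendsto_atTop_add_const_left atTop 1 tendsto_id)).const_mul (8 * Z ^ (3 : ℝ) * C))
      (fun σ' t h3 h4 => hP Z σ' t hZ h3 h4) (hi Z σ hZ le_rfl (by linarith))
      (hi Z 2 hZ (by linarith) le_rfl)
    rw [← h2, Finset.sum_congr rfl fun n _ => mul_left_comm _ _ _, ← Finset.mul_sum, h1,
      mul_smul_comm, ← integral_const_mul]
    congr 2
    funext t
    rw [E_eq hZ0, LSeries_mu (by simp), F_eq fun h => by simpa using congrArg re h]
    ring
  refine ⟨8 * (3 * 2 ^ σ * 4 ^ (2 * η)) * C * ∫ t : ℝ, (1 + |t|) ^ (-(1 + η)), fun x hx => ?_⟩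
  set N := ⌊x⌋₊ with hN
  have hN1 : (1 : ℝ) ≤ N := by exact_mod_cast (Nat.one_le_floor_iff x).2 hx
  have hNx : (N : ℝ) ≤ x := Nat.floor_le (by linarith)
  have h1 := hper (N + 1) (N + 1) (by linarith) (by push_cast; linarith)
  have h2 := hper N N hN1 (by linarith)
  have h3 : f0 (((N + 1 : ℕ) : ℝ) / (N + 1)) = 0 := by
    rw [Nat.cast_succ, div_self (by linarith)]
    simp [f0]
  rw [Finset.sum_Icc_succ_top (by omega), h3, mul_zero, mul_zero, add_zero] at h1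
  have h4 : ((Mf x : ℝ) : ℂ) = (1 / (2 * Real.pi) : ℝ) • ∫ t : ℝ,
      (E (N + 1) (σ + t * I) - E N (σ + t * I)) * g (σ + t * I) * F (σ + t * I) := by
    simp only [sub_mul]
    rw [integral_sub (hi _ σ (by linarith) le_rfl (by linarith))
      (hi _ σ hN1 le_rfl (by linarith)), smul_sub, ← h1, ← h2, ← Finset.sum_sub_distrib, Mf,
      ofReal_sum]
    refine Finset.sum_congr rfl fun n hn => ?_
    have h5 : (n : ℝ) ≤ N := by exact_mod_cast (Finset.mem_Icc.1 hn).2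
    have h6 : ∀ Z : ℝ, 0 < Z → (n : ℝ) ≤ Z → (Z : ℂ) * f0 (n / Z) = ((Z - n : ℝ) : ℂ) :=
      fun Z h7 h8 => by
        rw [f0, max_eq_left (sub_nonneg.2 ((div_le_one h7).2 h8)), ← ofReal_mul]
        congr 1
        field_simp
    rw [h6 _ (by linarith) (by linarith), h6 _ (by linarith) h5]
    push_cast
    ring
  have h5 : ‖∫ t : ℝ, (E (N + 1) (σ + t * I) - E N (σ + t * I)) * g (σ + t * I) *
      F (σ + t * I)‖ ≤ ∫ t : ℝ, 8 * (3 * 2 ^ σ * 4 ^ (2 * η) * x ^ (σ + 2 * η)) * C *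
        (1 + |t|) ^ (-(1 + η)) := by
    refine norm_integral_le_of_norm_le (hJ.const_mul _) (Eventually.of_forall fun t => ?_)
    refine pt hσ (by positivity) ((E_sub' (θ := 2 * η) (by linarith) (by linarith) (by linarith)
      (by linarith) (by linarith) t).trans ?_) (hF σ t le_rfl (by linarith))
    refine mul_le_mul_of_nonneg_right ?_ (by positivity)
    calc 3 * ((N : ℝ) + 1) ^ σ * (2 * (N + 1)) ^ (2 * η)
        ≤ 3 * (2 * x) ^ σ * (4 * x) ^ (2 * η) :=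
          mul_le_mul (mul_le_mul_of_nonneg_left
            (Real.rpow_le_rpow (by positivity) (by linarith) (by linarith)) (by norm_num))
            (Real.rpow_le_rpow (by positivity) (by linarith) (by linarith)) (by positivity)
            (by positivity)
      _ = _ := by
        rw [Real.mul_rpow (by norm_num) (by linarith), Real.mul_rpow (by norm_num) (by linarith),
          Real.rpow_add (by linarith)]
        ring
  rw [← Real.norm_eq_abs, ← norm_real, h4, norm_smul]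
  refine (mul_le_of_le_one_left (norm_nonneg _) ?_).trans (h5.trans (le_of_eq ?_))
  · rw [Real.norm_of_nonneg (by positivity), div_le_one (by positivity)]
    linarith [Real.pi_gt_three]
  · rw [integral_const_mul]
    ring

theorem pEnd (h1 : S_Z1) (h2 : S_Inv) (h3 : S_Mert) : S_End := by
  intro θ θ' q h0 hθ hθ1 hq hq' hA
  have hZ := h1 θ q (by linarith) (by linarith) hq hq' hA
  obtain ⟨C, hC, hb⟩ := h2 θ ((θ + θ') / 2) ((θ' - θ) / 4) h0 (by linarith) (by linarith)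
    (by linarith) hZ
  have hz : ∀ s : ℂ, (θ + θ') / 2 ≤ s.re → riemannZeta₁ s ≠ 0 := fun s hs h => by
    by_cases hs1 : s = 1
    · simp [hs1] at h
    · exact hZ s (by linarith) (by rw [riemannZeta_eq_inv_sub_mul hs1, h, mul_zero])
  obtain ⟨D, hD⟩ := h3 ((θ + θ') / 2) ((θ' - θ) / 4) C (by linarith) (by linarith) (by linarith)
    (by linarith) hC hz hb
  refine ⟨D, fun x hx => ?_⟩
  have := hD x hx
  rwa [show (θ + θ') / 2 + 2 * ((θ' - θ) / 4) = θ' by ring] at this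

end Pool.Agent.P.MP_323ce2_nt.QZ
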