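import Pool.Agent.P.MP_323ce2_nt.QZ.St

/-! Shift of the contour inside a rectangle. -/

namespace Pool.Agent.P.MP_323ce2_nt.QZ

open Pool.Agent.P.MP_26a8c3_nt Pool.Agent.P.MP_26a8c3_nt.QO Pool.Agent.P.MP_26a8c3_nt.QA
open Complex MeasureTheory Set Filter
open scoped Real

namespace Up

lemma integrable_g {b : ℝ} (hb : 0 < b) (C t : ℝ) :
    Integrable fun y : ℝ => C * Real.exp (-b * (y + t) ^ 2) :=
  ((integrable_exp_neg_mul_sq hb).comp_add_right t).const_mul C

lemma set_bound {f : ℝ → ℂ} {s : Set ℝ} (hs : MeasurableSet s) {C b t : ℝ} (hb : 0 < b)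
    (hC : 0 ≤ C) (h : ∀ y ∈ s, ‖f y‖ ≤ C * Real.exp (-b * (y + t) ^ 2)) :
    ‖∫ y in s, f y‖ ≤ C * √(π / b) := by
  have hi := integrable_g hb C t
  refine (norm_integral_le_of_norm_le hi.integrableOn
    ((ae_restrict_iff' hs).2 (Eventually.of_forall h))).trans ?_
  refine (setIntegral_le_integral hi (Eventually.of_forall fun y => by positivity)).trans ?_
  rw [integral_const_mul, integral_add_right_eq_self (fun y : ℝ => Real.exp (-b * y ^ 2)) t,
    integral_gaussian]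

lemma norm_Wt_le {X σ τ : ℝ} (hX : 1 ≤ X) (h0 : 0 ≤ σ) (h1 : σ ≤ τ) (h2 : τ ≤ 2) (t y : ℝ) :
    ‖Wt X t (σ + y * I)‖ ≤ √π * (3 * X ^ τ) * Real.exp (-(1 / 4) * (y + t) ^ 2) := by
  have hX0 : 0 < X := by linarith
  have e1 : Real.exp (σ * Real.log X) ≤ X ^ τ := by
    rw [Real.rpow_def_of_pos hX0, Real.exp_le_exp]
    nlinarith [Real.log_nonneg hX]
  have e2 : Real.exp (σ ^ 2 / 4) ≤ 3 := by
    refine (Real.exp_le_exp.2 (by nlinarith : σ ^ 2 / 4 ≤ 1)).trans ?_
    linarith [Real.exp_one_lt_d9]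
  rw [norm_Wt, show σ * Real.log X + (σ ^ 2 - (y + t) ^ 2) / 4 =
    σ ^ 2 / 4 + σ * Real.log X + -(1 / 4) * (y + t) ^ 2 by ring, Real.exp_add, Real.exp_add,
    ← mul_assoc]
  gcongr

lemma mellin {u : O → ℂ} (hu : B1 u) (X t : ℝ) :
    (Integrable fun y : ℝ => Wt X t ((2 : ℝ) + y * I) * DD u ((2 : ℝ) + y * I)) ∧
    Wsum u X t = (1 / (2 * π) : ℝ) *
      ∫ y : ℝ, Wt X t ((2 : ℝ) + y * I) * DD u ((2 : ℝ) + y * I) := by
  set F : O → ℝ → ℂ := fun c y => Wt X t ((2 : ℝ) + y * I) *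
    (u c * (nr c : ℂ) ^ (-(((2 : ℝ) : ℂ) + y * I))) with hF
  have hre : ∀ y : ℝ, (((2 : ℝ) : ℂ) + y * I).re = 2 := fun y => by simp
  have hW : Continuous fun y : ℝ => Wt X t ((2 : ℝ) + y * I) :=
    (differentiable_Wt X t).continuous.comp (by fun_prop)
  have hWi : Integrable fun y : ℝ => Wt X t ((2 : ℝ) + y * I) := by
    refine Integrable.mono' (integrable_g (by norm_num : (0 : ℝ) < 1 / 4)
      (√π * Real.exp (2 * Real.log X + 1)) t) hW.aestronglyMeasurable
      (Eventually.of_forall fun y => le_of_eq ?_)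
    rw [norm_Wt, mul_assoc, ← Real.exp_add]
    congr 2
    ring
  have hnF : ∀ c y, ‖F c y‖ = ‖Wt X t ((2 : ℝ) + y * I)‖ * (‖u c‖ * nr c ^ (-(2 : ℝ))) := by
    intro c y
    simp only [hF]
    rw [norm_mul, norm_term_DD, hre]
  have hc : ∀ c, Continuous fun y : ℝ => u c * (nr c : ℂ) ^ (-(((2 : ℝ) : ℂ) + y * I)) := fun c => by
    simp_rw [cpow_eq (nr_pos c)]
    fun_prop
  have hiF : ∀ c, Integrable (F c) := fun c => by
    have hcF : Continuous (F c) := hW.mul (hc c)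
    refine (integrable_norm_iff hcF.aestronglyMeasurable).1 ?_
    simp_rw [hnF]
    exact hWi.norm.mul_const _
  have hs : Summable fun c : O => ‖u c‖ * nr c ^ (-(2 : ℝ)) := by
    have := summable_DD hu (s := ((2 : ℝ) : ℂ)) (by simp)
    simpa only [norm_term_DD, ofReal_re] using this
  have hsum : Summable fun c => ∫ y, ‖F c y‖ := by
    simp_rw [hnF, integral_mul_const]
    exact hs.mul_left _
  have h1 := (hasSum_integral_of_summable_integral_norm hiF hsum).tsum_eq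
  have h2 : ∀ y : ℝ, ∑' c, F c y = Wt X t ((2 : ℝ) + y * I) * DD u ((2 : ℝ) + y * I) :=
    fun y => by simp only [hF, DD]; rw [tsum_mul_left]
  simp_rw [h2] at h1
  constructor
  · have hD : Continuous fun y : ℝ => DD u ((2 : ℝ) + y * I) :=
      continuous_tsum hc hs fun c y => by rw [norm_term_DD, hre]
    refine Integrable.mono' (hWi.norm.mul_const KO) (hW.mul hD).aestronglyMeasurable
      (Eventually.of_forall fun y => ?_)
    rw [norm_mul]
    exact mul_le_mul_of_nonneg_left (norm_DD_le hu (by rw [hre]; norm_num)) (norm_nonneg _)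
  · rw [← h1, ← tsum_mul_left, Wsum]
    refine tsum_congr fun c => ?_
    rw [W_eq X t 2 (nr_pos c), mul_left_comm, ← integral_const_mul]
    congr 1
    refine integral_congr_ae (Eventually.of_forall fun y => ?_)
    simp only [hF]
    ring

lemma rect {G : ℂ → ℂ} {σ1 σ2 T1 T2 B : ℝ} (h12 : σ1 ≤ σ2) (hT : T1 ≤ T2)
    (hG : DifferentiableOn ℂ G {s | σ1 ≤ s.re ∧ s.re ≤ σ2 ∧ T1 ≤ s.im ∧ s.im ≤ T2})
    (hB1 : ∀ σ, σ1 ≤ σ → σ ≤ σ2 → ‖G (σ + T1 * I)‖ ≤ B)
    (hB2 : ∀ σ, σ1 ≤ σ → σ ≤ σ2 → ‖G (σ + T2 * I)‖ ≤ B) :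
    ‖(∫ t in T1..T2, G (σ2 + t * I)) - ∫ t in T1..T2, G (σ1 + t * I)‖ ≤ 2 * B * (σ2 - σ1) := by
  have key := integral_boundary_rect_eq_zero_of_differentiableOn G (σ1 + T1 * I) (σ2 + T2 * I)
    (hG.mono fun s hs => by
      have h1 := hs.1
      have h2 := hs.2
      simp only [add_re, ofReal_re, mul_re, I_re, mul_zero, ofReal_im, I_im, mul_one, sub_self,
        add_zero, uIcc_of_le h12, mem_preimage, add_im, mul_im, zero_add, uIcc_of_le hT] at h1 h2
      exact ⟨h1.1, h1.2, h2.1, h2.2⟩)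
  simp only [add_re, ofReal_re, mul_re, I_re, mul_zero, ofReal_im, I_im, mul_one, sub_self,
    add_zero, add_im, mul_im, zero_add, smul_eq_mul] at key
  have e : (∫ t in T1..T2, G (σ2 + t * I)) - ∫ t in T1..T2, G (σ1 + t * I) =
      I * ((∫ x in σ1..σ2, G (x + T1 * I)) - ∫ x in σ1..σ2, G (x + T2 * I)) := by
    linear_combination (-I) * key +
      ((∫ t in T1..T2, G (σ2 + t * I)) - ∫ t in T1..T2, G (σ1 + t * I)) * I_mul_I
  rw [e, norm_mul, norm_I, one_mul]
  have k1 := intervalIntegral.norm_integral_le_of_norm_le_const (a := σ1) (b := σ2) (C := B)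
    (f := fun x => G (x + T1 * I)) fun x hx => by
      rw [uIoc_of_le h12] at hx; exact hB1 x hx.1.le hx.2
  have k2 := intervalIntegral.norm_integral_le_of_norm_le_const (a := σ1) (b := σ2) (C := B)
    (f := fun x => G (x + T2 * I)) fun x hx => by
      rw [uIoc_of_le h12] at hx; exact hB2 x hx.1.le hx.2
  rw [abs_of_nonneg (sub_nonneg.2 h12)] at k1 k2
  linarith [norm_sub_le (∫ x in σ1..σ2, G (x + T1 * I)) (∫ x in σ1..σ2, G (x + T2 * I))]

end Up

open Up in
theorem pUp : S_Up := by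
  intro u D σ H B X t hu h1 h2 hH hB hX hD hDB hD2
  obtain ⟨hi, hm⟩ := mellin hu X t
  have hab : -t - H ≤ -t + H := by linarith
  have hKO : 0 ≤ KO := by linarith [one_le_KO]
  have hX0 : 0 < X := by linarith
  have hre : ∀ x y : ℝ, ((x : ℂ) + y * I).re = x := fun x y => by simp
  have him : ∀ x y : ℝ, ((x : ℂ) + y * I).im = y := fun x y => by simp
  have hpi : √π * √π = π := Real.mul_self_sqrt Real.pi_pos.le
  have hs0 : 0 ≤ √π := Real.sqrt_nonneg _
  have hs2 : √π ≤ 2 := by nlinarith [Real.pi_le_four]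
  have hX2 : X ^ (2 : ℝ) = X ^ 2 := by simp
  set E := Real.exp (-(H ^ 2 / 8)) with hE
  have hE0 : 0 < E := Real.exp_pos _
  set G : ℂ → ℂ := fun s => Wt X t s * D s with hG
  have eG : (fun y : ℝ => Wt X t ((2 : ℝ) + y * I) * DD u ((2 : ℝ) + y * I)) =
      fun y : ℝ => G ((2 : ℝ) + y * I) := by
    funext y
    simp only [hG]
    rw [hD2 _ (hre 2 y)]
  have k1 : ‖∫ y in (Ioc (-t - H) (-t + H))ᶜ, G ((2 : ℝ) + y * I)‖ ≤
      √π * (3 * X ^ 2) * KO * E * √(π / (1 / 8)) := by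
    refine set_bound (t := t) measurableSet_Ioc.compl (by norm_num) (by positivity) fun y hy => ?_
    have hy2 : H ^ 2 ≤ (y + t) ^ 2 := by
      rw [mem_compl_iff, mem_Ioc, not_and_or, not_lt, not_le] at hy
      rcases hy with hy | hy <;> nlinarith
    have h3 := norm_Wt_le hX (by norm_num) le_rfl le_rfl t y
    have h4 : Real.exp (-(1 / 4) * (y + t) ^ 2) ≤ E * Real.exp (-(1 / 8) * (y + t) ^ 2) := by
      rw [hE, ← Real.exp_add, Real.exp_le_exp]
      linarith
    rw [hX2] at h3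
    simp only [hG]
    rw [norm_mul, hD2 _ (hre 2 y)]
    have h5 := norm_DD_le hu (s := (2 : ℝ) + y * I) (by rw [hre]; norm_num)
    calc _ ≤ √π * (3 * X ^ 2) * (E * Real.exp (-(1 / 8) * (y + t) ^ 2)) * KO := by
          refine mul_le_mul (h3.trans ?_) h5 (norm_nonneg _) (by positivity)
          gcongr
      _ = _ := by ring
  have hside : ∀ x y : ℝ, σ ≤ x → x ≤ 2 → |y + t| = H →
      ‖G (x + y * I)‖ ≤ √π * (3 * X ^ 2) * E * B := by
    intro x y hx hx' hy
    have h3 := norm_Wt_le hX (by linarith) hx' le_rfl t y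
    have h4 : Real.exp (-(1 / 4) * (y + t) ^ 2) ≤ E := by
      rw [hE, Real.exp_le_exp, ← sq_abs (y + t), hy]
      nlinarith [sq_nonneg H]
    rw [hX2] at h3
    simp only [hG]
    rw [norm_mul]
    refine mul_le_mul (h3.trans ?_) (hDB _ (by rwa [hre]) (by rwa [hre]) (by rw [him, hy]))
      (norm_nonneg _) (by positivity)
    gcongr
  have k2 := rect (G := G) (B := √π * (3 * X ^ 2) * E * B) h2 hab
    ((differentiable_Wt X t).differentiableOn.mul (hD.mono fun s hs =>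
      ⟨hs.1, hs.2.1, abs_le.2 ⟨by linarith [hs.2.2.1], by linarith [hs.2.2.2]⟩⟩))
    (fun x hx hx' => hside x _ hx hx' (by rw [show -t - H + t = -H by ring, abs_neg, abs_of_nonneg hH]))
    (fun x hx hx' => hside x _ hx hx' (by rw [show -t + H + t = H by ring, abs_of_nonneg hH]))
  have k3 : ‖∫ y in Ioc (-t - H) (-t + H), G (σ + y * I)‖ ≤
      √π * (3 * X ^ σ) * B * √(π / (1 / 4)) := by
    refine set_bound (t := t) measurableSet_Ioc (by norm_num) (by positivity) fun y hy => ?_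
    have h3 := norm_Wt_le hX (by linarith) le_rfl h2 t y
    simp only [hG]
    rw [norm_mul, mul_right_comm]
    exact mul_le_mul h3 (hDB _ (by rw [hre]) (by rwa [hre])
      (by rw [him]; exact abs_le.2 ⟨by linarith [hy.1], by linarith [hy.2]⟩))
      (norm_nonneg _) (by positivity)
  rw [intervalIntegral.integral_of_le hab, intervalIntegral.integral_of_le hab] at k2
  rw [eG] at hi hm
  have hsplit := integral_add_compl (measurableSet_Ioc (a := -t - H) (b := -t + H)) hi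
  have q8 : √(π / (1 / 8)) ≤ 3 * √π := by
    rw [Real.sqrt_le_iff]
    exact ⟨by positivity, by nlinarith [Real.pi_pos]⟩
  have q4 : √(π / (1 / 4)) ≤ 2 * √π := by
    rw [Real.sqrt_le_iff]
    exact ⟨by positivity, by nlinarith [Real.pi_pos]⟩
  have hP : 0 ≤ X ^ 2 * E := by positivity
  have hQ : 0 ≤ X ^ σ := by positivity
  have k1' : √π * (3 * X ^ 2) * KO * E * √(π / (1 / 8)) ≤ 2 * π * (10 * KO * (X ^ 2 * E)) := by
    calc _ ≤ √π * (3 * X ^ 2) * KO * E * (3 * √π) := by gcongr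
      _ = 9 * (√π * √π) * (KO * (X ^ 2 * E)) := by ring
      _ ≤ _ := by rw [hpi]; nlinarith [mul_nonneg Real.pi_pos.le (mul_nonneg hKO hP)]
  have k3' : √π * (3 * X ^ σ) * B * √(π / (1 / 4)) ≤ 2 * π * (3 * B * X ^ σ) := by
    calc _ ≤ √π * (3 * X ^ σ) * B * (2 * √π) := by gcongr
      _ = 6 * (√π * √π) * (B * X ^ σ) := by ring
      _ = _ := by rw [hpi]; ring
  have k2' : 2 * (√π * (3 * X ^ 2) * E * B) * (2 - σ) ≤ 2 * π * (10 * B * (X ^ 2 * E)) := by
    calc _ ≤ 2 * (2 * (3 * X ^ 2) * E * B) * 2 := by gcongr; linarith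
      _ = 24 * (B * (X ^ 2 * E)) := by ring
      _ ≤ _ := by nlinarith [mul_nonneg hB hP, Real.pi_gt_three]
  have hn : ‖∫ y : ℝ, G ((2 : ℝ) + y * I)‖ ≤
      2 * π * (3 * B * X ^ σ + 10 * (B + KO) * X ^ 2 * E) := by
    rw [← hsplit]
    refine (norm_add_le _ _).trans ?_
    have := norm_le_norm_sub_add (∫ y in Ioc (-t - H) (-t + H), G ((2 : ℝ) + y * I))
      (∫ y in Ioc (-t - H) (-t + H), G (σ + y * I))
    linarith
  rw [hm, norm_mul, norm_real, Real.norm_of_nonneg (by positivity), one_div,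
    inv_mul_le_iff₀ (by positivity)]
  exact hn

end Pool.Agent.P.MP_323ce2_nt.QZ
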