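import Pool.Agent.P.MP_323ce2_nt.QZ.St
import Pool.Agent.P.MP_26a8c3_nt.QE.Fin

/-! A power saving for one principal character gives the half plane for zeta. -/

namespace Pool.Agent.P.MP_323ce2_nt.QZ

open Pool.Agent.P.MP_26a8c3_nt Pool.Agent.P.MP_26a8c3_nt.QO Pool.Agent.P.MP_26a8c3_nt.QA
open Pool.Agent.P.MP_26a8c3_nt.QE UniqueFactorizationMonoid DirichletCharacter
open scoped Classical

namespace Z1

lemma cop_eq (q : ℕ) (c : O) : cop q c = (1 : DirichletCharacter ℂ q) (N c) := by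
  unfold cop
  split_ifs with h
  · have h1 : IsCoprime (star c) (q : O) := by simpa [starRingEnd_apply] using h.map (starRingEnd O)
    have h2 : IsCoprime ((N c : ℕ) : O) (q : O) := by
      rw [← mul_star_eq]
      exact h.mul_left h1
    refine (MulChar.one_apply ((ZMod.isUnit_iff_coprime _ q).2 ?_)).symm
    have h3 : IsUnit ((Nat.gcd (N c) q : ℕ) : O) := h2.isUnit_of_dvd'
      (Nat.cast_dvd_cast (Nat.gcd_dvd_left _ _)) (Nat.cast_dvd_cast (Nat.gcd_dvd_right _ _))
    have h4 := isUnit_iff_N.1 h3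
    rw [N_natCast] at h4
    exact (Nat.pow_eq_one.1 h4).resolve_right (by norm_num)
  · exact (nu_zero 1 c h).symm

lemma sum_eq (q : ℕ) (X : ℝ) : A (cop q) 1 1 X 0 =
    ∑' c : {c // Primary c}, ((moebius c.1 : ℂ) * (1 : DirichletCharacter ℂ q) (N c.1)) *
      ((Real.exp (-(Real.log (N c.1) - Real.log X) ^ 2) : ℝ) : ℂ) := by
  rw [A, Wsum, ← tsum_subtype_eq_of_support_subset (s := {c | Primary c}) fun c hc =>
    by_contra fun h => hc (by rw [uA, if_neg fun k => h k.1.1, zero_mul])]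
  refine tsum_congr fun c => ?_
  have hc : Primary c.1 := c.2
  rw [nr_eq hc.ne_zero, W, uA, ← mu_eq, Complex.ofReal_exp, cop_eq]
  split_ifs with k
  · simp
  · rw [mu, if_neg fun s => k ⟨⟨hc, s⟩, isCoprime_one_right⟩]
    simp

end Z1

theorem pZ1 : S_Z1 := by
  rintro θ q h0 h1 hq h36 ⟨B, hB⟩ s s1
  rcases eq_or_ne s 1 with rfl | s2
  · exact riemannZeta_one_ne_zero
  have : NeZero q := ⟨hq.ne'⟩
  have hs : ∀ t : ℝ, 1 < t → Summable fun c : {c // Primary c} => (N c.1 : ℝ) ^ (-t) :=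
    fun t ht => (summable_N ht).subtype _
  obtain ⟨χ₂, hE⟩ := eisLike.euler hs (q := q) (dvd_trans (by norm_num) h36) 1
  simp only [Z1.sum_eq] at hB
  have h := zero_free_LG (fun c : {c // Primary c} => N c.1) (fun c => N_pos c.2.ne_zero) _
    (fun c => ?_) hs h0 h1 hB _ χ₂ hE s1 s2
  · rw [← LFunction_modOne_eq (χ := 1)]
    refine ne_zero_of_changeLevel (one_dvd q) 1 s2 ?_
    rwa [changeLevel_one]
  · rw [norm_mul, ← mu_eq]
    exact mul_le_one₀ (norm_mu_le _) (norm_nonneg _) (DirichletCharacter.norm_le_one _ _)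

end Pool.Agent.P.MP_323ce2_nt.QZ
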