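import Pool.Agent.P.MP_323ce2_nt.QZ.Lw
import Pool.Agent.P.MP_323ce2_nt.QZ.Up
import Pool.Agent.P.MP_323ce2_nt.QZ.Cont
import Pool.Agent.P.MP_323ce2_nt.QZ.Cv
import Pool.Agent.P.MP_323ce2_nt.QZ.Cvl
import Pool.Agent.P.MP_323ce2_nt.QZ.Det
import Pool.Agent.P.MP_323ce2_nt.QZ.Asm
import Pool.Agent.P.MP_323ce2_nt.QZ.Z1
import Pool.Agent.P.MP_323ce2_nt.QZ.Inv
import Pool.Agent.P.MP_323ce2_nt.QZ.Mert

/-! The zero layer and the last step, without hypotheses. -/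

namespace Pool.Agent.P.MP_323ce2_nt.QZ

theorem zero : S_Zero := pZero pLw pUp pCont pCv pCvl pDet

theorem fin : S_End := pEnd pZ1 (pInv pLw) pMert

end Pool.Agent.P.MP_323ce2_nt.QZ
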