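import Pool.Agent.P.MP_323ce2_nt.QZ.St2
import Pool.Agent.P.MP_323ce2_nt.QZ.Asm
import Pool.Agent.P.MP_26a8c3_nt.QB.Base

/-! Assembly of the zero layer with prime sums and coprimality conditions. -/

namespace Pool.Agent.P.MP_323ce2_nt.QZ

open Pool.Agent.P.MP_26a8c3_nt Pool.Agent.P.MP_26a8c3_nt.QO Pool.Agent.P.MP_26a8c3_nt.QA
open Complex Filter

lemma small_X2 {u : O → ℂ} (hu : B2 u) {X β E : ℝ} (hX : 0 < X) (h1 : X ≤ 1) (hβ : β ≤ 2)
    (hE : 3 * KO ≤ E) (t : ℝ) : ‖Wsum u X t‖ ≤ E * X ^ β := by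
  have hK := one_le_KO
  refine (hu.Wsum_le hX t (k := 2) le_rfl).trans ?_
  rw [← mul_assoc, show (2 : ℝ) ^ 2 / 4 = 1 by norm_num]
  exact mul_le_mul (by nlinarith [Real.exp_one_lt_three]) (Real.rpow_le_rpow_of_exponent_ge hX h1 hβ)
    (by positivity) (by linarith)

lemma logder {φ : O → ℂ} {L : ℂ → ℂ} {A Λ : ℝ} (hE : S_Eul) (m : Mul1 φ)
    (D : Dat (uM φ) (uL φ) L A Λ) {s : ℂ} (hs : 1 < s.re) :
    -deriv L s * (L s)⁻¹ = ∑' p : O, (lp p : ℂ) * (xp φ s p / (1 - xp φ s p)) := by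
  obtain ⟨h0, h1⟩ := D.inv hs
  have h2 : DD (uM φ) s ≠ 0 := by rw [← h1]; exact inv_ne_zero h0
  have e : L =ᶠ[nhds s] fun z => (DD (uM φ) z)⁻¹ := by
    filter_upwards [(isOpen_lt continuous_const continuous_re).mem_nhds
      (show s ∈ {z : ℂ | 1 < z.re} from hs)] with z hz
    rw [← (D.inv hz).2, inv_inv]
  rw [e.deriv_eq, ((hE φ m s hs).fun_inv h2).deriv, h1]
  field_simp

/-- the bound for the prime sum -/
lemma bound_P (h : S_Lw) (hU : S_Up2) (hE : S_Eul) (hR : S_Rem) {δ η A : ℝ} (hδ : 0 < δ)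
    (hη : 0 < η) (hη1 : η ≤ 1 / 4) (hA : 1 ≤ A) (hδA : δ * A ≤ η) :
    ∃ L₀ : ℝ, ∀ (φ : O → ℂ) (L : ℂ → ℂ) (Λ β T : ℝ), L₀ ≤ Λ → Mul1 φ →
      Dat (uM φ) (uL φ) L A Λ → 1 / 2 ≤ β → β ≤ 1 →
      1 + (T + 3 * Λ) ≤ Real.exp Λ → (∀ s : ℂ, β < s.re → |s.im| ≤ T + 3 * Λ → L s ≠ 0) →
      ∀ X t : ℝ, 1 ≤ X → |t| ≤ T + Λ → X ≤ Real.exp (A * Λ) →
        ‖Wsum (uP φ) X t‖ ≤ Real.exp (6 * η * Λ) * X ^ β := by
  obtain ⟨L₀, h⟩ := bound_L h (half_pos hδ) hη hA
  obtain ⟨C, C0, hR⟩ := hR δ hδ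
  have hK := one_le_KO
  have d0 : 0 < 2 / δ := by positivity
  obtain ⟨L₁, h1⟩ := eventually_atTop.1 ((ev_lin (20 * KO + C + 2 / δ) hη).and
    ((eventually_ge_atTop L₀).and (eventually_ge_atTop (8 * (2 * A + 2) + 20 * KO))))
  refine ⟨L₁, fun φ L Λ β T h0 m D b0 b1 hT hz X t X1 ht X2 => ?_⟩
  obtain ⟨k1, k2, k3⟩ := h1 Λ h0
  obtain ⟨R1, R2, R3⟩ := hR φ m.le
  have hX : 0 < X := by linarith
  have hΛ : 3 ≤ Λ := by linarith
  set E := Real.exp (η * Λ) with hEd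
  have e0 : 20 * KO + C + 2 / δ ≤ E :=
    le_trans (le_mul_of_one_le_right (by linarith) (le_add_of_nonneg_right (by positivity))) k1
  have En : ∀ n : ℕ, Real.exp (n * η * Λ) = E ^ n := fun n => by
    rw [hEd, ← Real.exp_nat_mul, mul_assoc]
  have hb := h _ _ L Λ β (T + 2 * Λ + 1) k2 D b0 b1 (by linarith)
    fun s s0 s1 => hz s s0 (by linarith)
  have him : ∀ s : ℂ, |s.im + t| ≤ Λ → |s.im| ≤ T + 2 * Λ := fun s hs => by
    have h2 := abs_sub (s.im + t) t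
    rw [add_sub_cancel_right] at h2
    linarith
  have hδ1 : δ ≤ 1 := by nlinarith
  have hO : IsOpen {s : ℂ | -2 < s.re} := isOpen_lt continuous_const continuous_re
  have sub : {s : ℂ | β + δ ≤ s.re ∧ s.re ≤ 2 ∧ |s.im + t| ≤ Λ} ⊆ {s : ℂ | -2 < s.re} :=
    fun z hz' => show -2 < z.re by linarith [hz'.1]
  have hd : ∀ s : ℂ, β + δ ≤ s.re → s.re ≤ 2 → |s.im + t| ≤ Λ → ‖deriv L s‖ ≤ E * E := by
    intro s s0 s1 s2
    have k : ∀ z ∈ Metric.closedBall s (δ / 2), β + δ / 2 ≤ z.re ∧ |z.im| ≤ T + 2 * Λ + 1 :=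
      fun z hz' => by
        rw [Metric.mem_closedBall, dist_eq_norm] at hz'
        have j1 := abs_le.1 ((abs_re_le_norm _).trans hz')
        have j2 := (abs_im_le_norm _).trans hz'
        rw [sub_re] at j1
        rw [sub_im] at j2
        exact ⟨by linarith, by linarith [abs_sub_abs_le_abs_sub z.im s.im, him s s2]⟩
    have k5 := norm_deriv_le_of_forall_mem_sphere_norm_le (c := s) (R := δ / 2) (C := E) (f := L)
      (half_pos hδ) (DifferentiableOn.diffContOnCl (D.dif.mono (by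
        rw [closure_ball _ (half_pos hδ).ne']
        exact fun z hz' => show -2 < z.re by linarith [(k z hz').1]))) fun z hz' => by
      obtain ⟨j1, j2⟩ := k z (Metric.sphere_subset_closedBall hz')
      by_cases j3 : z.re ≤ 2
      · exact (hb z j1 j3 j2).1
      · rw [D.eq z (by linarith)]
        linarith [norm_DD_le D.hl (s := z) (by linarith)]
    refine k5.trans ?_
    rw [show E / (δ / 2) = E * (2 / δ) by field_simp]
    gcongr
    linarith
  have E1 : 20 ≤ E := by linarith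
  have hW := hU (uP φ) (fun s => -deriv L s * (L s)⁻¹ - RR φ s) (β + δ) Λ (E ^ 4) X t
    (B1.uP m.le) (by linarith) (by linarith) (by linarith) (by positivity) X1
    (((((D.dif.deriv hO).mono sub).neg).mul ((D.dif.mono sub).inv fun s hs =>
      hz s (by linarith [hs.1]) (by linarith [him s hs.2.2]))).sub
      (R1.mono fun z hz' => show 1 / 2 < z.re by linarith [hz'.1]))
    (fun s s0 s1 s2 => by
      refine (norm_sub_le _ _).trans ?_
      rw [norm_mul, norm_neg, norm_inv]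
      have j1 := mul_le_mul (hd s s0 s1 s2) (hb s (by linarith) s1 (by linarith [him s s2])).2
        (by positivity) (by positivity)
      have j2 := R2 s (by linarith)
      have j3 : E ≤ E * E * E := by nlinarith
      have j4 : 2 * (E * E * E) ≤ E ^ 4 := by
        rw [show E ^ 4 = E * (E * E * E) by ring]
        gcongr
        linarith
      linarith)
    fun s hs => by
      rw [logder hE m D (by rw [hs]; norm_num), R3 s (by rw [hs]; norm_num), add_sub_cancel_right]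
  refine hW.trans ?_
  have x1 : 1 ≤ X ^ β := Real.one_le_rpow X1 (by linarith)
  have x2 : X ^ δ ≤ E := by
    refine (Real.rpow_le_rpow hX.le X2 hδ.le).trans ?_
    rw [← Real.exp_mul, Real.exp_le_exp]
    nlinarith
  have x3 : X ^ 2 ≤ Real.exp (2 * A * Λ) := by
    rw [show 2 * A * Λ = A * Λ + A * Λ by ring, Real.exp_add, sq]
    gcongr
  have x4 : E ^ 4 ≤ Real.exp Λ := by
    rw [← En, Real.exp_le_exp]
    push_cast
    nlinarith
  have x5 : 10 * (E ^ 4 + KO) * X ^ 2 * Real.exp (-(Λ ^ 2 / 8)) ≤ 1 := by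
    calc _ ≤ Real.exp Λ * Real.exp Λ * Real.exp (2 * A * Λ) * Real.exp (-(Λ ^ 2 / 8)) := by
          gcongr ?_ * ?_ * _
          nlinarith [Real.add_one_le_exp Λ]
      _ ≤ 1 := by
          rw [← Real.exp_add, ← Real.exp_add, ← Real.exp_add, Real.exp_le_one_iff]
          nlinarith
  have x6 := En 6
  push_cast at x6
  rw [Real.rpow_add hX, x6]
  have x7 : 3 * E ^ 4 * (X ^ β * X ^ δ) ≤ 3 * (E ^ 5 * X ^ β) := by
    calc _ ≤ 3 * E ^ 4 * (X ^ β * E) := by gcongr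
      _ = _ := by ring
  have x8 : 1 ≤ E ^ 5 * X ^ β := one_le_mul_of_one_le_of_one_le (one_le_pow₀ (by linarith)) x1
  have x9 : 4 * (E ^ 5 * X ^ β) ≤ E ^ 6 * X ^ β := by
    rw [show E ^ 6 * X ^ β = E * (E ^ 5 * X ^ β) by ring]
    gcongr
    linarith
  linarith

lemma Wsum_cp {φ : O → ℂ} {r r' : O} (h : ∀ n, Primary n → cop r n = cop r' n) :
    uL (cp φ r) = uL (cp φ r') ∧ uM (cp φ r) = uM (cp φ r') ∧ uP (cp φ r) = uP (cp φ r') := by
  refine ⟨funext fun n => ?_, funext fun n => ?_, funext fun n => ?_⟩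
  · unfold uL cp
    split_ifs with k
    exacts [by rw [h n k], rfl]
  · unfold uM cp
    split_ifs with k
    exacts [by rw [h n k.1], rfl]
  · unfold uP cp lp
    split_ifs with k
    exacts [by rw [h n k.2], by simp]

theorem pZero2 (h1 : S_Lw) (h2 : S_Up) (h3 : S_Cont) (h4 : S_Cv) (h5 : S_Cvl) (h6 : S_Det)
    (h7 : S_Up2) (h8 : S_Eul) (h9 : S_Rem) (h10 : S_Cop) (h11 : S_Rad) : S_Zero2 := by
  classical
  intro ε A hε hA
  have hK := one_le_KO
  set η := min ε 1 / 20 with hηd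
  have hη : 0 < η := by positivity
  have hη1 : η ≤ 1 / 20 := by have := min_le_right ε 1; linarith
  have hη2 : 20 * η ≤ ε := by have := min_le_left ε 1; linarith
  obtain ⟨J, hJ⟩ := exists_nat_ge (A / η)
  rw [div_le_iff₀ hη] at hJ
  have J1 : (1 : ℝ) ≤ J := by nlinarith [Nat.cast_nonneg (α := ℝ) J]
  set δ : ℝ := 1 / (2 * J) with hδd
  have hδ : 0 < δ := by positivity
  have hδJ : δ * J = 1 / 2 := by rw [hδd]; field_simp
  have hδA : δ * A ≤ η := by nlinarith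
  set k := 4 + (2 * A + 1) / (20 * η) with hk
  obtain ⟨Cd, Cd0, hdv⟩ := QB.BaseP.dvb (ε := η / A) (by positivity)
  set c := 6000 * KO + A + 3 * J + 8 + Cd with hc
  obtain ⟨L₀, hW⟩ := bound_W h1 h2 hδ hη (by linarith) hA hδA
  obtain ⟨L₂, hWP⟩ := bound_P h1 h7 h8 h9 hδ hη (by linarith) hA hδA
  obtain ⟨L₁, hL⟩ := eventually_atTop.1 ((ev_lin c (κ := η / (2 * A)) (by positivity)).and
    ((eventually_ge_atTop (max L₀ L₂)).and ((eventually_ge_atTop 1).and
      (eventually_ge_atTop (10 * KO ^ 2 * Real.exp (1 + k ^ 2 / 4))))))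
  refine ⟨Real.exp L₁ + (3 * J + 4), by linarith [Real.exp_pos L₁], fun Z 𝒯 hZ hT => ?_⟩
  have Z0 : 0 < Z := by linarith [Real.exp_pos L₁]
  obtain ⟨k1, k2, k3, k4⟩ := hL (Real.log Z) ((Real.le_log_iff_exp_le Z0).2 (by linarith))
  set Λ := Real.log Z with hΛ
  have pw : ∀ x : ℝ, Z ^ x = Real.exp (x * Λ) := fun x => by
    rw [Real.rpow_def_of_pos Z0, mul_comm]
  simp only [pw] at hT ⊢
  have hΛ0 : 0 < Λ := by linarith
  have c0 : 1 ≤ c := by linarith
  have e0 : η / (2 * A) * Λ * (2 * A) = η * Λ := by field_simp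
  have e1 : 1 + c * Λ ≤ Real.exp (η / (2 * A) * Λ) :=
    (le_mul_of_one_le_left (by positivity) c0).trans k1
  have e2 : ∀ x : ℝ, 0 ≤ x → x ≤ 2 * A → (1 + c * Λ) ^ x ≤ Real.exp (η * Λ) := fun x x0 x1 => by
    refine (Real.rpow_le_rpow (by positivity) e1 x0).trans ?_
    rw [← Real.exp_mul, Real.exp_le_exp, ← e0]
    gcongr
  have e3 : 1 + c * Λ ≤ Real.exp (η * Λ) := by simpa using e2 1 zero_le_one (by linarith)
  have e4 : Real.exp (η * Λ) ≤ Real.exp Λ := Real.exp_le_exp.2 (by nlinarith)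
  have hex : ∀ φ : 𝒯, ∃ L, Dat (uM φ.1) (uL φ.1) L A Λ := fun φ => by
    obtain ⟨m, hd⟩ := hT φ.1 φ.2
    obtain ⟨L, l1, l2, l3, l4⟩ := h3 (uL φ.1) (fun t => Real.exp (A * Λ) * (1 + |t|) ^ A) m.uL hd
    exact ⟨L, m.uM, m.uL, h4 _ m, hd, l1, l2, fun σ t a b => by simpa using l3 σ t a b, l4⟩
  choose L D using hex
  set P : ℕ → Prop := fun j => ∀ (φ : 𝒯) (s : ℂ), 1 - j * δ < s.re →
    |s.im| ≤ (3 * ((J : ℝ) - j) + 4) * Λ → L φ s ≠ 0 with hP
  have P0 : P 0 := fun φ s hs _ => ((D φ).inv (by simpa using hs)).1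
  set j := Nat.findGreatest P J with hj
  have Pj : P j := Nat.findGreatest_spec (Nat.zero_le J) P0
  have jJ : (j : ℝ) ≤ J := by exact_mod_cast Nat.findGreatest_le J
  have j0 : (0 : ℝ) ≤ j := Nat.cast_nonneg j
  set β := 1 - j * δ with hβ
  set T := (3 * ((J : ℝ) - j) + 1) * Λ with hTd
  have b0 : 1 / 2 ≤ β := by nlinarith
  have b1 : β ≤ 1 := by nlinarith
  have T1 : T + 3 * Λ ≤ c * Λ := by nlinarith
  have ub := fun φ : 𝒯 => hW _ _ _ Λ β T (le_of_max_le_left k2) (D φ) b0 b1 (by linarith)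
    fun s s0 s1 => Pj φ s s0 (by linarith)
  have e5 : ∀ n : ℝ, n ≤ 20 → Real.exp (n * η * Λ) ≤ Real.exp (ε * Λ) := fun n hn =>
    Real.exp_le_exp.2 (by nlinarith [mul_pos hη hΛ0])
  refine ⟨β, T, b0, b1, by nlinarith, by nlinarith [mul_pos (Real.exp_pos L₁) hΛ0],
    fun φ hφ r X t r0 r1 hX ht => ?_, ?_⟩
  · obtain ⟨r', q1, q2, q3⟩ := h11.1 r r0
    obtain ⟨w1, w2, w3⟩ := Wsum_cp (φ := φ) q3
    have m := (hT φ hφ).1
    have q4 : (N r' : ℝ) ≤ Real.exp (A * Λ) := le_trans (by exact_mod_cast q2) r1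
    set E := Real.exp (η * Λ) with hE
    have En : ∀ n : ℕ, Real.exp (n * η * Λ) = E ^ n := fun n => by
      rw [hE, ← Real.exp_nat_mul, mul_assoc]
    have cE : c ≤ E := by nlinarith
    have q5 : dv r' ≤ E ^ 2 := by
      refine (hdv r' q1.ne_zero).trans ?_
      rw [sq]
      refine mul_le_mul (by linarith) ((Real.rpow_le_rpow (by positivity) q4
        (by positivity)).trans_eq ?_) (by positivity) (by positivity)
      rw [← Real.exp_mul]
      congr 1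
      field_simp
    have e6 : dv r' ^ 2 * Real.exp (3 * η * Λ) * X ^ β ≤ Real.exp (ε * Λ) * X ^ β := by
      refine mul_le_mul_of_nonneg_right (le_trans ?_ (e5 (7 : ℕ) (by norm_num))) (by positivity)
      have j1 := En 3
      push_cast at j1
      have j2 : 0 ≤ dv r' := Nat.cast_nonneg _
      rw [En, j1, show E ^ 7 = (E ^ 2) ^ 2 * E ^ 3 by ring]
      gcongr
    rw [w1, w2, w3]
    refine ⟨((h10 φ β _ X t r' m b0 b1 (Real.exp_pos _).le q1).1
      (fun Y Y0 _ => (ub ⟨φ, hφ⟩ Y t Y0 ht).1) X hX le_rfl).trans e6, fun h =>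
      ⟨((h10 φ β _ X t r' m b0 b1 (Real.exp_pos _).le q1).2
      (fun Y Y0 Y1 => (ub ⟨φ, hφ⟩ Y t Y0 ht).2 (Y1.trans h)) X hX le_rfl).trans e6, ?_⟩⟩
    have E1 : E ≤ Real.exp (ε * Λ) := by
      have := e5 1 (by norm_num)
      rwa [one_mul] at this
    rcases le_total X 1 with X1 | X1
    · exact small_X2 (B1.uP (B1.cp m.le r')) hX X1 (by linarith) (by linarith) t
    have j1 := hWP φ _ Λ β T (le_of_max_le_right k2) m (D ⟨φ, hφ⟩) b0 b1 (by linarith)
      (fun s s0 s1 => Pj ⟨φ, hφ⟩ s s0 (by linarith)) X t X1 ht h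
    have j2 : Real.log (N r') ≤ E := by
      have j3 := (Real.log_le_iff_le_exp (N_pos_real q1.ne_zero)).2 q4
      have : A * Λ ≤ c * Λ := by gcongr; linarith
      linarith
    have j3 := En 6
    have j4 := e5 (7 : ℕ) (by norm_num)
    push_cast at j3
    rw [j3] at j1
    rw [En] at j4
    have x1 : 1 ≤ X ^ β := Real.one_le_rpow X1 (by linarith)
    have j5 : E ≤ E ^ 6 * X ^ β :=
      (le_self_pow₀ (by linarith) (by norm_num)).trans (le_mul_of_one_le_right (by positivity) x1)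
    have j6 : 2 * (E ^ 6 * X ^ β) ≤ E ^ 7 * X ^ β := by
      rw [show E ^ 7 * X ^ β = E * (E ^ 6 * X ^ β) by ring]
      gcongr
      linarith
    have j7 : E ^ 7 * X ^ β ≤ Real.exp (ε * Λ) * X ^ β := by gcongr
    linarith [h11.2 φ r' X t m.le q1 hX]
  by_cases hjJ : j = J
  · left
    rw [hβ, hjJ]
    linarith
  right
  have hn : ¬ P (j + 1) := Nat.findGreatest_is_greatest (Nat.lt_succ_self j)
    (Nat.succ_le_of_lt (lt_of_le_of_ne (Nat.findGreatest_le J) hjJ))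
  simp only [hP, not_forall, not_not] at hn
  obtain ⟨φ, ρ, r0, r1, r2⟩ := hn
  push_cast at r0 r1
  have r3 : |ρ.im| ≤ T := r1.trans_eq (by ring)
  have r4 : ρ.re ≤ β := by_contra fun h => Pj φ ρ (not_le.1 h) (by linarith) r2
  have r5 : β - δ ≤ ρ.re := by linarith
  have hδ1 : δ ≤ 1 / 2 := by nlinarith
  refine ⟨φ.1, φ.2, -ρ.im, by rwa [abs_neg], fun U U0 U1 => ?_⟩
  have U2 : 0 < U := (Real.exp_pos _).trans_le U0
  have U3 : ε * Λ ≤ Real.log U := (Real.le_log_iff_exp_le U2).2 U0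
  have U4 : Real.log U ≤ A * Λ := (Real.log_le_iff_le_exp U2).2 U1
  obtain ⟨i1, i2⟩ := (D φ).zer ρ.re ρ.im (by linarith) (by linarith)
  have e7 : (k - 1) * (20 * η * Λ) = (60 * η + (2 * A + 1)) * Λ := by rw [hk]; field_simp; ring
  obtain ⟨z₁, z₂, s1, s2, s3⟩ := h6 (Bk (uM φ.1) ρ.re (-ρ.im)) (Bk (uL φ.1) ρ.re (-ρ.im)) ρ.re KO k
    (Real.log U) (20 * η * Λ) (continuous_Bk (D φ).ha _ _) (continuous_Bk (D φ).hl _ _)
    (by linarith) (by linarith) (by linarith)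
    (fun i z hi => norm_Bk_le (D φ).ha _ _ z (by linarith))
    (fun i z hi => norm_Bk_le (D φ).hl _ _ z (by linarith)) i1 (i2 (by rwa [re_add_im]))
    (fun Y => h5 _ _ _ _ Y (D φ).ha (D φ).hl (D φ).cv)
    (le_add_of_nonneg_right (by positivity)) (by positivity) (by nlinarith) (by
      have e8 : Real.exp (1 + k ^ 2 / 4 + 2 * Real.log U - (k - 1) * (20 * η * Λ)) ≤
          Real.exp (1 + k ^ 2 / 4) / Real.exp Λ := by
        rw [← Real.exp_sub, Real.exp_le_exp, e7]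
        nlinarith [mul_pos hη hΛ0]
      refine (mul_le_mul_of_nonneg_left e8 (by positivity)).trans ?_
      rw [← mul_div_assoc, div_le_iff₀ (Real.exp_pos _)]
      linarith [Real.add_one_le_exp Λ])
  obtain ⟨t1, t2, t3, t4, t5⟩ := Asm.sat (D φ) hA hη hη1 hΛ0 (by linarith) r4 r5 b1 hδA
    (by nlinarith)
    (le_trans (by
      rw [Real.rpow_two]
      have : A * Λ ≤ c * Λ := by gcongr; linarith
      nlinarith [mul_pos (by linarith : 0 < A) hΛ0]) (e2 2 zero_le_two (by linarith)))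
    ((Real.rpow_le_rpow (by positivity) (by rw [abs_neg]; linarith) (by linarith)).trans
      (e2 A (by linarith) (by linarith)))
    (fun X hX => ub φ X (-ρ.im) hX (by rw [abs_neg]; linarith)) (s1.trans U4) s3
  have hεη : 20 * η * Λ ≤ ε * Λ := by gcongr
  refine ⟨Real.exp z₁, Real.exp z₂, Real.exp_le_exp.2 (by linarith),
    (Real.le_log_iff_exp_le U2).1 s1, Real.exp_le_exp.2 (by linarith), Real.exp_le_exp.2 t3, ?_,
    t4.trans (mul_le_mul_of_nonneg_right (e5 8 (by norm_num)) (norm_nonneg _)),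
    t5.trans (mul_le_mul_of_nonneg_right (e5 8 (by norm_num)) (norm_nonneg _))⟩
  rw [← Real.exp_add, ← Real.exp_add, ← Real.log_le_iff_le_exp U2]
  linarith

end Pool.Agent.P.MP_323ce2_nt.QZ
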