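import Pool.Agent.P.MP_323ce2_nt.QZ.St2
import Pool.Agent.P.MP_26a8c3_nt.QB.Base
import Pool.Agent.P.MP_26a8c3_nt.QB.Rx

/-! A coprimality condition costs the square of the divisor function. -/

namespace Pool.Agent.P.MP_323ce2_nt.QZ

open Pool.Agent.P.MP_26a8c3_nt Pool.Agent.P.MP_26a8c3_nt.QO Pool.Agent.P.MP_26a8c3_nt.QA
open Complex
open scoped Classical

namespace Cop

/-- the bound with constant `b` -/
def PP (β X₀ t : ℝ) (u : O → ℂ) (b : ℝ) : Prop :=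
  ∀ X : ℝ, 0 < X → X ≤ X₀ → ‖Wsum u X t‖ ≤ b * X ^ β

lemma split {u u' v : O → ℂ} {p : O} {z : ℂ} (hp : p ≠ 0) (hu : B1 u) (hu' : B1 u')
    (hv : v 0 = 0) (h1 : ∀ c, ¬ p ∣ c → u' c = u c) (h2 : ∀ c, p ∣ c → u' c = 0)
    (h3 : ∀ c, u (p * c) = z * v c) (hz : ‖z‖ ≤ 1) {X : ℝ} (hX : 0 < X) (t : ℝ) :
    ‖Wsum u' X t‖ ≤ ‖Wsum u X t‖ + ‖Wsum v (X / N p) t‖ := by
  have e := QB.Rx.Wsum_dvd hp (u := fun c => u c - u' c) (v := v) (z := z)
    (fun c hc => by rw [h1 c hc, sub_self])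
    (fun c => by rw [h2 _ (dvd_mul_right p c), sub_zero, h3]) hv hX t
  have e2 : Wsum (fun c => u c - u' c) X t = Wsum u X t - Wsum u' X t := by
    rw [Wsum, Wsum, Wsum, ← (QB.summable_Wc hu hX t).tsum_sub (QB.summable_Wc hu' hX t)]
    exact tsum_congr fun c => sub_mul _ _ _
  have e3 : Wsum u' X t = Wsum u X t - Wsum (fun c => u c - u' c) X t := by rw [e2]; ring
  rw [e3, e]
  refine (norm_sub_le _ _).trans (add_le_add le_rfl ?_)
  rw [norm_mul]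
  exact mul_le_of_le_one_left (norm_nonneg _) (QB.Rx.norm_coef hz hp t)

lemma cp_dvd {ψ : O → ℂ} {p c : O} (hp : Prime p) (h : p ∣ c) : cp ψ p c = 0 := by
  rw [cp, cop, if_neg fun e => hp.coprime_iff_not_dvd.1 e.symm h, mul_zero]

lemma cp_not {ψ : O → ℂ} {p c : O} (hp : Prime p) (h : ¬ p ∣ c) : cp ψ p c = ψ c := by
  rw [cp, cop, if_pos (hp.coprime_iff_not_dvd.2 h).symm, mul_one]

lemma cp_mul (φ : O → ℂ) (p a : O) : cp φ (p * a) = cp (cp φ a) p := by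
  funext n
  simp only [cp, cop, IsCoprime.mul_right_iff]
  by_cases h1 : IsCoprime n p <;> by_cases h2 : IsCoprime n a <;> simp [h1, h2]

lemma step {β X₀ t b g : ℝ} {u u' v : O → ℂ} {p : O} (hβ : 1 / 2 ≤ β) (hp : Prime p)
    (hp' : Primary p) (hg : 0 ≤ g)
    (hs : ∀ X : ℝ, 0 < X → ‖Wsum u' X t‖ ≤ ‖Wsum u X t‖ + ‖Wsum v (X / N p) t‖)
    (hu : PP β X₀ t u b) (hv : PP β X₀ t v g) : PP β X₀ t u' (b + g / 2) := fun X h0 h1 => by
  have h4 : (4 : ℝ) ≤ N p := by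
    have e1 := two_le_N hp
    have e2 := hp'.N_mod
    exact_mod_cast (by omega : 4 ≤ N p)
  have h5 : 0 < X / N p := by positivity
  have h6 : X / N p ≤ X₀ := (div_le_self h0.le (by linarith)).trans h1
  have h7 : (X / N p) ^ β ≤ X ^ β / 2 := by
    rw [Real.div_rpow h0.le (by linarith)]
    refine div_le_div_of_nonneg_left (by positivity) (by norm_num) ?_
    calc (2 : ℝ) = 4 ^ (1 / 2 : ℝ) := by
          rw [show (4 : ℝ) = 2 ^ (2 : ℝ) by norm_num, ← Real.rpow_mul zero_le_two]; norm_num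
      _ ≤ 4 ^ β := Real.rpow_le_rpow_of_exponent_le (by norm_num) hβ
      _ ≤ _ := Real.rpow_le_rpow (by norm_num) h4 (by linarith)
  have h8 := hu X h0 h1
  have h9 := (hv _ h5 h6).trans (mul_le_mul_of_nonneg_left h7 hg)
  have := hs X h0
  linarith

lemma mono {β X₀ t b b' : ℝ} {u : O → ℂ} (h : PP β X₀ t u b) (hb : b ≤ b') : PP β X₀ t u b' :=
  fun X h0 h1 => (h X h0 h1).trans (mul_le_mul_of_nonneg_right hb (by positivity))

lemma start {β : ℝ} (hβ : β ≤ 1) (X₀ t : ℝ) {u : O → ℂ} (hu : B1 u) {K : ℝ} (hK : 0 ≤ K) :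
    ∃ T : ℝ, 0 ≤ T ∧ PP β X₀ t u (K + T) := by
  have h1 := one_le_KO
  refine ⟨KO * Real.exp (2 ^ 2 / 4) * |X₀| ^ (2 - β), by positivity, fun X h0 hX => ?_⟩
  have h2 : X ^ (2 - β) ≤ |X₀| ^ (2 - β) :=
    Real.rpow_le_rpow h0.le (hX.trans (le_abs_self _)) (by linarith)
  have h3 : X ^ (2 : ℝ) = X ^ (2 - β) * X ^ β := by
    rw [← Real.rpow_add h0]; norm_num
  have h4 : 0 < X ^ β := by positivity
  calc _ ≤ KO * (Real.exp (2 ^ 2 / 4) * X ^ (2 : ℝ)) := norm_Wsum_le hu h0 t (by norm_num)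
    _ = KO * Real.exp (2 ^ 2 / 4) * X ^ (2 - β) * X ^ β := by rw [h3]; ring
    _ ≤ KO * Real.exp (2 ^ 2 / 4) * |X₀| ^ (2 - β) * X ^ β := by gcongr
    _ ≤ _ := by gcongr; linarith

lemma oneL {β X₀ t b : ℝ} {ψ : O → ℂ} {p : O} (hψ : Mul1 ψ) (hβ : 1 / 2 ≤ β) (hp : Prime p)
    (hp' : Primary p) (hb : 0 ≤ b) (h : PP β X₀ t (uL ψ) b) :
    PP β X₀ t (uL (cp ψ p)) (4 * b) := by
  refine mono (step hβ hp hp' hb (fun X hX => split (z := ψ p) hp.ne_zero hψ.uL (hψ.cp p).uL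
    ?_ (fun c hc => ?_) (fun c hc => ?_) (fun c => ?_) (hψ.le p) hX t) h h) (by linarith)
  · exact if_neg fun e => e.ne_zero rfl
  · rw [uL, uL, cp_not hp hc]
  · rw [uL, cp_dvd hp hc, ite_self]
  · unfold uL
    by_cases hc : Primary c
    · rw [if_pos hc, if_pos (hp'.mul hc), hψ.mul p c hp' hc]
    · rw [if_neg hc, if_neg fun e => hc (e.of_mul hp'), mul_zero]

lemma oneM {β X₀ t b : ℝ} {ψ : O → ℂ} {p : O} (hψ : Mul1 ψ) (hβ : 1 / 2 ≤ β) (hβ' : β ≤ 1)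
    (hp : Prime p) (hp' : Primary p) (hb : 0 ≤ b) (h : PP β X₀ t (uM ψ) b) :
    PP β X₀ t (uM (cp ψ p)) (4 * b) := fun X h0 h1 => by
  have hsq : SQ p := ⟨hp', hp.squarefree⟩
  have hs : ∀ X : ℝ, 0 < X → ‖Wsum (uM (cp ψ p)) X t‖ ≤
      ‖Wsum (uM ψ) X t‖ + ‖Wsum (uM (cp ψ p)) (X / N p) t‖ := fun X hX => by
    refine split (z := mu p * ψ p) hp.ne_zero hψ.uM (hψ.cp p).uM (if_neg QB.not_sq_zero)
      (fun c hc => ?_) (fun c hc => ?_) (fun c => ?_)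
      (QB.norm_mul_le_one (norm_mu_le p) (hψ.le p)) hX t
    · rw [uM, uM, cp_not hp hc]
    · rw [uM, cp_dvd hp hc, mul_zero, ite_self]
    · unfold uM
      by_cases hc : p ∣ c
      · rw [cp_dvd hp hc, mul_zero, ite_self, mul_zero, if_neg]
        exact fun e => hp.coprime_iff_not_dvd.1 e.coprime hc
      have hpc := hp.coprime_iff_not_dvd.2 hc
      by_cases h2 : SQ c
      · rw [if_pos h2, if_pos (hsq.mul h2 hpc), cp_not hp hc, mu_mul hpc, hψ.mul p c hp' h2.1]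
        ring
      · rw [if_neg h2, if_neg fun e => h2 (e.right hp'), mul_zero]
  obtain ⟨T, hT, hst⟩ := start hβ' X₀ t (hψ.cp p).uM (K := 2 * b) (by positivity)
  have h2 := QB.contract (P := PP β X₀ t (uM (cp ψ p))) hT hst fun g hg hq =>
    step hβ hp hp' (by linarith) hs h hq
  have h3 : Filter.Tendsto (fun n : ℕ => (2 * b + T / 2 ^ n) * X ^ β) Filter.atTop
      (nhds ((2 * b + 0) * X ^ β)) :=
    ((tendsto_const_nhds.div_atTop (tendsto_pow_atTop_atTop_of_one_lt one_lt_two)).const_add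
      _).mul_const _
  have h4 := ge_of_tendsto' h3 fun n => h2 n X h0 h1
  have h5 : 0 ≤ b * X ^ β := by positivity
  linarith

lemma ind {β X₀ t B : ℝ} {φ : O → ℂ} (hB : 0 ≤ B) (F : (O → ℂ) → O → ℂ)
    (hF : ∀ (a p : O) (b : ℝ), Prime p → Primary p → 0 ≤ b → PP β X₀ t (F (cp φ a)) b →
      PP β X₀ t (F (cp (cp φ a) p)) (4 * b))
    (h : PP β X₀ t (F φ) B) {r : O} (hr : SQ r) : PP β X₀ t (F (cp φ r)) (dv r ^ 2 * B) := by
  refine primary_ind (P := fun r => SQ r → PP β X₀ t (F (cp φ r)) (dv r ^ 2 * B)) (fun _ => ?_)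
    (fun p a hp hp' ha ih hq => ?_) hr.1 hr
  · rw [cp_one]
    exact mono h (le_mul_of_one_le_left hB (one_le_pow₀ (QB.one_le_dv one_ne_zero)))
  · have hpa : ¬ p ∣ a := hp.coprime_iff_not_dvd.1 hq.coprime
    have := hF a p _ hp hp' (by positivity) (ih (hq.right hp'))
    rw [QB.BaseP.dv_prime hp hp' ha hpa, cp_mul]
    convert this using 1
    ring

end Cop

open Cop in
theorem pCop : S_Cop := fun _ _ _ _ _ _ hφ h1 h2 hB hr =>
  ⟨fun h => ind hB uL (fun a _ _ hp hp' hb => oneL (hφ.cp a) h1 hp hp' hb) h hr,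
    fun h => ind hB uM (fun a _ _ hp hp' hb => oneM (hφ.cp a) h1 h2 hp hp' hb) h hr⟩

end Pool.Agent.P.MP_323ce2_nt.QZ
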