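import Pool.Agent.P.MP_323ce2_nt.QZ.St2
import Pool.Agent.P.MP_26a8c3_nt.QE.Fin

/-! The logarithmic derivative of the Euler product of a Moebius sum. -/

namespace Pool.Agent.P.MP_323ce2_nt.QZ

open Pool.Agent.P.MP_26a8c3_nt Pool.Agent.P.MP_26a8c3_nt.QO Pool.Agent.P.MP_26a8c3_nt.QA
open Complex
open scoped Classical

namespace Eul

variable {φ : O → ℂ}

lemma nrm : QE.Nrm Primary := QE.eisLike.toNrm

lemma xp_mul (hφ : Mul1 φ) (s : ℂ) {a b : O} (ha : Primary a) (hb : Primary b) :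
    xp φ s (a * b) = xp φ s a * xp φ s b := by
  have e : nr (a * b) = nr a * nr b := by
    rw [nr_eq ha.ne_zero, nr_eq hb.ne_zero, nr_eq (ha.mul hb).ne_zero, map_mul, Nat.cast_mul]
  rw [xp, xp, xp, hφ.mul a b ha hb, e, ofReal_mul,
    mul_cpow_ofReal_nonneg (nr_pos a).le (nr_pos b).le]
  ring

lemma xp_pr (hφ : Mul1 φ) (s : ℂ) (S : Finset (QE.PP Primary)) :
    xp φ s (QE.pr S) = ∏ p ∈ S, xp φ s p.1 := by
  induction S using Finset.induction_on with
  | empty => simp [QE.pr, xp, hφ.one, nr]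
  | insert p S hp ih =>
    rw [QE.pr, Finset.prod_insert hp, Finset.prod_insert hp, ← QE.pr,
      xp_mul hφ s p.2.2 (nrm.pr_mem S), ih]

lemma norm_xp (hφ : Mul1 φ) (s : ℂ) (p : O) : ‖xp φ s p‖ ≤ nr p ^ (-s.re) := by
  rw [xp, norm_term_DD]
  exact mul_le_of_le_one_left (Real.rpow_pos_of_pos (nr_pos p) _).le (hφ.le p)

lemma half (hφ : Mul1 φ) {s : ℂ} (hs : 1 < s.re) {p : O} (hp : Prime p) :
    ‖xp φ s p‖ ≤ 1 / 2 := by
  have h2 : (2 : ℝ) ≤ nr p := by
    rw [nr_eq hp.ne_zero]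
    exact_mod_cast two_le_N hp
  refine (norm_xp hφ s p).trans ((Real.rpow_le_rpow_of_exponent_le (one_le_nr p)
    (show -s.re ≤ -1 by linarith)).trans ?_)
  rw [Real.rpow_neg_one, one_div]
  exact inv_anti₀ two_pos h2

lemma prod (hφ : Mul1 φ) {s : ℂ} (hs : 1 < s.re) :
    HasProd (fun p : QE.PP Primary => 1 - xp φ s p.1) (DD (uM φ) s) := by
  have hF : Summable fun p : QE.PP Primary => ‖-xp φ s p.1‖ :=
    Summable.of_nonneg_of_le (fun _ => norm_nonneg _)
      (fun p => by rw [norm_neg]; exact norm_xp hφ s p.1) ((QB.summable_nr hs).subtype _)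
  have h1 := hasProd_one_add_of_hasSum_prod (summable_finsetProd_of_summable_norm hF).hasSum
  simp only [← sub_eq_add_neg] at h1
  refine Eq.subst (motive := HasProd _) (Eq.symm ?_) h1
  rw [DD, ← nrm.pr_inj.tsum_eq]
  · refine tsum_congr fun S => ?_
    have h2 := nrm.moebius_pr S
    have h3 : Squarefree (QE.pr S) := by
      by_contra e
      rw [UniqueFactorizationMonoid.moebius_of_not_squarefree e] at h2
      exact pow_ne_zero _ (by norm_num) h2.symm
    rw [uM, if_pos ⟨nrm.pr_mem S, h3⟩, QE.mu_eq, h2, mul_assoc, ← xp, xp_pr hφ, Finset.prod_neg]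
    push_cast
    rfl
  · intro c hc
    by_cases h : SQ c
    · exact nrm.exists_pr h.1 h.2
    · simp [uM, h] at hc

lemma slit (hφ : Mul1 φ) {s : ℂ} (hs : 1 < s.re) {p : O} (hp : Prime p) :
    1 - xp φ s p ∈ slitPlane := by
  rw [sub_eq_add_neg]
  refine mem_slitPlane_of_norm_lt_one ?_
  rw [norm_neg]
  linarith [half hφ hs hp]

lemma hd (hφ : Mul1 φ) {s : ℂ} (hs : 1 < s.re) (p : QE.PP Primary) :
    HasDerivAt (fun z => log (1 - xp φ z p.1))
      ((lp p.1 : ℂ) * (xp φ s p.1 / (1 - xp φ s p.1))) s := by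
  have h0 : (nr p.1 : ℂ) ≠ 0 := ofReal_ne_zero.2 (nr_pos _).ne'
  have h1 := ((((hasDerivAt_id s).fun_neg.const_cpow (c := (nr p.1 : ℂ)) (Or.inl h0)).const_mul
    (φ p.1)).const_sub 1).clog (slit hφ hs p.2.1)
  refine h1.congr_deriv ?_
  rw [lp, if_pos p.2, ← nr_eq p.2.1.ne_zero, ofReal_log (nr_pos _).le]
  simp only [xp, id]
  ring

end Eul

theorem pEul : S_Eul := by
  intro φ hφ s hs
  obtain ⟨σ, h1, h2⟩ := exists_between hs
  have hU : IsOpen {z : ℂ | σ < z.re} := isOpen_lt continuous_const continuous_re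
  have hu : Summable fun p : QE.PP Primary => 3 / 2 * nr p.1 ^ (-σ) :=
    ((QB.summable_nr h1).subtype _).mul_left _
  have hf : ∀ p : QE.PP Primary,
      DifferentiableOn ℂ (fun z => log (1 - xp φ z p.1)) {z : ℂ | σ < z.re} := fun p z hz =>
    (Eul.hd hφ (h1.trans hz) p).differentiableAt.differentiableWithinAt
  have hb : ∀ (p : QE.PP Primary) (z : ℂ), z ∈ {z : ℂ | σ < z.re} →
      ‖log (1 - xp φ z p.1)‖ ≤ 3 / 2 * nr p.1 ^ (-σ) := fun p z hz => by
    have hz' : σ < z.re := hz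
    rw [sub_eq_add_neg]
    refine (norm_log_one_add_half_le_self
      (by rw [norm_neg]; exact Eul.half hφ (h1.trans hz') p.2.1)).trans ?_
    rw [norm_neg]
    exact mul_le_mul_of_nonneg_left ((Eul.norm_xp hφ z p.1).trans
      (Real.rpow_le_rpow_of_exponent_le (one_le_nr _) (by linarith))) (by norm_num)
  have hn := hU.mem_nhds (show s ∈ {z : ℂ | σ < z.re} from h2)
  have hG := ((differentiableOn_tsum_of_summable_norm hu hf hU hb).differentiableAt hn).hasDerivAt
  have hS := (hasSum_deriv_of_summable_norm hu hf hU hb (show s ∈ {z : ℂ | σ < z.re} from h2)).tsum_eq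
  have he : ∀ z ∈ {z : ℂ | σ < z.re},
      DD (uM φ) z = exp (∑' p : QE.PP Primary, log (1 - xp φ z p.1)) := fun z hz =>
    (Eul.prod hφ (h1.trans hz)).unique (hasProd_of_hasSum_log
      (fun p => slitPlane_ne_zero (Eul.slit hφ (h1.trans hz) p.2.1))
      (Summable.of_norm_bounded hu fun p => hb p z hz).hasSum)
  refine (hG.cexp.congr_of_eventuallyEq (Filter.eventually_of_mem hn he)).congr_deriv ?_
  rw [← he s h2, ← hS, tsum_congr fun p => (Eul.hd hφ hs p).deriv]
  congr 1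
  exact tsum_subtype_eq_of_support_subset
    (f := fun p : O => (lp p : ℂ) * (xp φ s p / (1 - xp φ s p))) (s := {p | Prime p ∧ Primary p})
    fun p hp => by_contra fun e => hp (by
      have : lp p = 0 := if_neg e
      simp [this])

end Pool.Agent.P.MP_323ce2_nt.QZ
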