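import Pool.Agent.P.MP_323ce2_nt.QZ.St2

/-! Reduction to squarefree primary moduli; the prime sum with a coprimality condition. -/

namespace Pool.Agent.P.MP_323ce2_nt.QZ

open Pool.Agent.P.MP_26a8c3_nt Pool.Agent.P.MP_26a8c3_nt.QO Pool.Agent.P.MP_26a8c3_nt.QA
open Complex
open scoped Classical

namespace Rad

lemma rad (r : O) (hr : r ≠ 0) :
    ∃ r' : O, SQ r' ∧ N r' ≤ N r ∧ ∀ n, Primary n → (IsCoprime n r ↔ IsCoprime n r') := by
  induction r using UniqueFactorizationMonoid.induction_on_prime with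
  | h₁ => exact absurd rfl hr
  | h₂ x hx =>
    refine ⟨1, ⟨primary_one, squarefree_one⟩, ?_, fun n _ => ?_⟩
    · rw [N_assoc (associated_one_iff_isUnit.2 hx)]
    · exact iff_of_true (isCoprime_one_right.of_isCoprime_of_dvd_right hx.dvd) isCoprime_one_right
  | h₃ a p ha hp ih =>
    obtain ⟨r', h1, h2, h3⟩ := ih ha
    have hN : N a ≤ N (p * a) := by
      rw [map_mul]
      exact Nat.le_mul_of_pos_left _ (lt_of_lt_of_le two_pos (two_le_N hp))
    by_cases hl : lam ∣ p
    · refine ⟨r', h1, h2.trans hN, fun n hn => ?_⟩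
      rw [IsCoprime.mul_right_iff, h3 n hn]
      exact and_iff_right (hn.isCoprime_lam.of_isCoprime_of_dvd_right
        (prime_lam.associated_of_dvd hp hl).symm.dvd)
    · obtain ⟨u, hu, hq⟩ := exists_primary hl
      have as : Associated (u * p) p := associated_unit_mul_left p u hu
      have pq : Prime (u * p) := as.symm.prime hp
      have e : ∀ n : O, IsCoprime n p ↔ IsCoprime n (u * p) := fun n =>
        ⟨fun h => h.of_isCoprime_of_dvd_right as.dvd,
          fun h => h.of_isCoprime_of_dvd_right as.symm.dvd⟩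
      by_cases hd : u * p ∣ r'
      · refine ⟨r', h1, h2.trans hN, fun n hn => ?_⟩
        rw [IsCoprime.mul_right_iff, h3 n hn, e]
        exact ⟨fun h => h.2, fun h => ⟨h.of_isCoprime_of_dvd_right hd, h⟩⟩
      · refine ⟨u * p * r', SQ.mul ⟨hq, pq.squarefree⟩ h1 (pq.irreducible.coprime_iff_not_dvd.2 hd),
          ?_, fun n hn => ?_⟩
        · rw [map_mul N (u * p), map_mul N p, N_assoc as]
          exact Nat.mul_le_mul_left _ h2
        · rw [IsCoprime.mul_right_iff, h3 n hn, e, IsCoprime.mul_right_iff (y := u * p)]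

lemma same {φ : O → ℂ} {a p c : O} (h : ¬(Prime c ∧ Primary c ∧ ¬IsCoprime c p)) :
    uP (cp φ (p * a)) c = uP (cp φ a) c := by
  by_cases h1 : Prime c ∧ Primary c
  · have h2 : IsCoprime c p := by
      by_contra h3
      exact h ⟨h1.1, h1.2, h3⟩
    simp only [uP, cp, cop, IsCoprime.mul_right_iff, h2, true_and]
  · simp [uP, lp, h1]

lemma step {φ : O → ℂ} (hφ : B1 φ) (a : O) {p : O} (hp : Prime p) {X : ℝ} (hX : 0 < X) (t : ℝ) :
    ‖Wsum (uP (cp φ (p * a))) X t‖ ≤ ‖Wsum (uP (cp φ a)) X t‖ + Real.log (N p) := by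
  have key : ‖Wsum (uP (cp φ (p * a))) X t - Wsum (uP (cp φ a)) X t‖ ≤ Real.log (N p) := by
    unfold Wsum
    rw [← ((hφ.cp _).uP.summable_W hX t).tsum_sub ((hφ.cp _).uP.summable_W hX t)]
    by_cases h : ∃ q : O, Prime q ∧ Primary q ∧ ¬IsCoprime q p
    · obtain ⟨q, h1, h2, h3⟩ := h
      have as : ∀ c : O, Prime c → ¬IsCoprime c p → Associated c p := fun c hc h =>
        hc.associated_of_dvd hp (by
          by_contra h4
          exact h (hc.irreducible.coprime_iff_not_dvd.2 h4))
      rw [tsum_eq_single q fun c hc => by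
        rw [same fun h => hc (h.2.1.eq_of_associated h2
          ((as c h.1 h.2.2).trans (as q h1 h3).symm)), sub_self]]
      have z : uP (cp φ (p * a)) q = 0 := by
        simp [uP, cp, cop, IsCoprime.mul_right_iff, h3]
      rw [z, zero_mul, zero_sub, norm_neg, norm_mul, uP, norm_mul, norm_real,
        Real.norm_of_nonneg (lp_nonneg q), ← N_assoc (as q h1 h3)]
      have e : lp q = Real.log (N q) := if_pos ⟨h1, h2⟩
      rw [← e]
      exact (mul_le_of_le_one_right (mul_nonneg (lp_nonneg q) (norm_nonneg _))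
        (norm_W_le_one _ _ _)).trans (mul_le_of_le_one_right (lp_nonneg q) (hφ.cp a q))
    · rw [tsum_congr (g := fun _ => 0) fun c => by rw [same fun hc => h ⟨c, hc⟩, sub_self]]
      simpa using Real.log_natCast_nonneg (N p)
  have := norm_sub_norm_le (Wsum (uP (cp φ (p * a))) X t) (Wsum (uP (cp φ a)) X t)
  linarith

lemma all {φ : O → ℂ} (hφ : B1 φ) {X : ℝ} (hX : 0 < X) (t : ℝ) (r : O) (hr : r ≠ 0) :
    ‖Wsum (uP (cp φ r)) X t‖ ≤ ‖Wsum (uP φ) X t‖ + Real.log (N r) := by
  induction r using UniqueFactorizationMonoid.induction_on_prime with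
  | h₁ => exact absurd rfl hr
  | h₂ x hx =>
    have e : cp φ x = φ := by
      funext n
      simp [cp, cop, isCoprime_one_right.of_isCoprime_of_dvd_right hx.dvd]
    rw [e]
    linarith [Real.log_natCast_nonneg (N x)]
  | h₃ a p ha hp ih =>
    have h1 := step hφ a hp hX t
    have h2 := ih ha
    have h3 : Real.log (N (p * a)) = Real.log (N p) + Real.log (N a) := by
      rw [map_mul, Nat.cast_mul, Real.log_mul (Nat.cast_ne_zero.2 (N_pos hp.ne_zero).ne')
        (Nat.cast_ne_zero.2 (N_pos ha).ne')]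
    linarith

end Rad

theorem pRad : S_Rad := by
  refine ⟨fun r hr => ?_, fun φ r X t hφ hr hX => Rad.all hφ hX t r hr.ne_zero⟩
  obtain ⟨r', h1, h2, h3⟩ := Rad.rad r hr
  exact ⟨r', h1, h2, fun n hn => by simp only [cop, h3 n hn]⟩

end Pool.Agent.P.MP_323ce2_nt.QZ
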