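import Pool.Agent.P.MP_323ce2_nt.QZ.St2

/-! The contribution of the higher prime powers. -/

namespace Pool.Agent.P.MP_323ce2_nt.QZ

open Pool.Agent.P.MP_26a8c3_nt Pool.Agent.P.MP_26a8c3_nt.QO Pool.Agent.P.MP_26a8c3_nt.QA
open Complex
open scoped Classical

namespace Rem

variable {φ : O → ℂ} {p : O} {s : ℂ}

theorem xp_le (hφ : B1 φ) {σ : ℝ} (hs : σ ≤ s.re) (p : O) : ‖xp φ s p‖ ≤ nr p ^ (-σ) := by
  rw [xp, norm_term_DD]
  exact (mul_le_of_le_one_left (Real.rpow_pos_of_pos (nr_pos p) _).le (hφ p)).trans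
    (Real.rpow_le_rpow_of_exponent_le (one_le_nr p) (by linarith))

theorem den (hφ : B1 φ) (hs : 1 / 2 ≤ s.re) (h : Prime p ∧ Primary p) :
    1 / 2 ≤ ‖1 - xp φ s p‖ := by
  have h1 := two_le_N h.1
  have h2 := h.2.N_mod
  have h3 : (4 : ℝ) ≤ nr p := by
    rw [nr_eq h.1.ne_zero]
    exact_mod_cast (by omega : 4 ≤ N p)
  have h4 : nr p ^ (-(1 / 2) : ℝ) ≤ 1 / 2 := by
    refine (Real.rpow_le_rpow_of_nonpos (by norm_num) h3 (by norm_num)).trans (le_of_eq ?_)
    rw [show (4 : ℝ) = 2 ^ (2 : ℝ) by norm_num, ← Real.rpow_mul (by norm_num)]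
    norm_num
  have h5 := norm_sub_norm_le (1 : ℂ) (xp φ s p)
  rw [norm_one] at h5
  linarith [xp_le hφ hs p]

theorem term (hφ : B1 φ) {σ η : ℝ} (hσ : 1 / 2 ≤ σ) (hη : 0 < η) (hs : σ ≤ s.re) (j : ℕ) (p : O) :
    ‖(lp p : ℂ) * (xp φ s p ^ j / (1 - xp φ s p))‖ ≤ 2 / η * nr p ^ (-(σ * j - η)) := by
  have h0 := nr_pos p
  unfold lp
  split_ifs with h
  · have h1 : Real.log (N p) ≤ nr p ^ η / η := by
      rw [← nr_eq h.1.ne_zero]
      exact Real.log_le_rpow_div h0.le hη
    have h2 : ‖xp φ s p‖ ^ j / ‖1 - xp φ s p‖ ≤ (nr p ^ (-σ)) ^ j / (1 / 2) :=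
      div_le_div₀ (by positivity) (pow_le_pow_left₀ (norm_nonneg _) (xp_le hφ hs p) j)
        (by norm_num) (den hφ (hσ.trans hs) h)
    rw [norm_mul, norm_div, norm_pow, norm_real,
      Real.norm_of_nonneg (Real.log_natCast_nonneg _)]
    refine (mul_le_mul h1 h2 (by positivity) (by positivity)).trans (le_of_eq ?_)
    rw [← Real.rpow_natCast, ← Real.rpow_mul h0.le, show -(σ * j - η) = η + -σ * j by ring,
      Real.rpow_add h0]
    ring
  · simp only [ofReal_zero, zero_mul, norm_zero]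
    positivity

theorem sumb {δ : ℝ} (hδ : 0 < δ) :
    Summable fun p : O => 2 / δ * nr p ^ (-((1 / 2 + δ) * (2 : ℕ) - δ)) :=
  (QB.summable_nr (by push_cast; linarith)).mul_left _

theorem diff (hφ : B1 φ) {δ : ℝ} (hδ : 0 < δ) :
    DifferentiableOn ℂ (RR φ) {s | 1 / 2 + δ < s.re} := by
  refine differentiableOn_tsum_of_summable_norm (sumb hδ) (fun p => ?_)
    (isOpen_lt continuous_const continuous_re)
    fun p w hw => term hφ (by linarith) hδ (le_of_lt hw) 2 p
  by_cases h : Prime p ∧ Primary p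
  · have hx : Differentiable ℂ fun s => xp φ s p := fun s =>
      (differentiableAt_id.neg.const_cpow (Or.inl (ofReal_ne_zero.2 (nr_pos p).ne'))).const_mul _
    refine ((hx.pow 2).differentiableOn.div (hx.const_sub 1).differentiableOn
      fun w hw => ?_).const_mul _
    have hw' : 1 / 2 + δ < w.re := hw
    exact norm_pos_iff.1 (lt_of_lt_of_le (by norm_num) (den hφ (by linarith) h))
  · simp only [lp, if_neg h, ofReal_zero, zero_mul]
    exact differentiableOn_const _

end Rem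

open Rem in
theorem pRem : S_Rem := by
  intro δ hδ
  refine ⟨∑' p : O, 2 / δ * nr p ^ (-((1 / 2 + δ) * (2 : ℕ) - δ)),
    tsum_nonneg fun p => by have := nr_pos p; positivity, fun φ hφ => ⟨fun s hs => ?_,
    fun s hs => tsum_of_norm_bounded (sumb hδ).hasSum (term hφ (by linarith) hδ hs 2),
    fun s hs => ?_⟩⟩
  · have hs' : 1 / 2 < s.re := hs
    exact ((diff hφ (δ := (s.re - 1 / 2) / 2) (by linarith)).differentiableAt
      ((isOpen_lt continuous_const continuous_re).mem_nhds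
        (show 1 / 2 + (s.re - 1 / 2) / 2 < s.re by linarith))).differentiableWithinAt
  · have S : ∀ j : ℕ, 1 ≤ j → Summable fun p : O =>
        (lp p : ℂ) * (xp φ s p ^ j / (1 - xp φ s p)) := fun j hj => by
      have : (1 : ℝ) ≤ j := by exact_mod_cast hj
      exact Summable.of_norm_bounded ((QB.summable_nr (σ := s.re * j - (s.re - 1) / 2)
        (by nlinarith)).mul_left _) (term hφ (by linarith) (by linarith) le_rfl j)
    have e : ∀ p : O, uP φ p * (nr p : ℂ) ^ (-s) = (lp p : ℂ) * (xp φ s p / (1 - xp φ s p)) -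
        (lp p : ℂ) * (xp φ s p ^ 2 / (1 - xp φ s p)) := fun p => by
      rw [uP, mul_assoc, ← xp]
      by_cases h : Prime p ∧ Primary p
      · have : 1 - xp φ s p ≠ 0 :=
          norm_pos_iff.1 (lt_of_lt_of_le (by norm_num) (den hφ (by linarith) h))
        field_simp
      · simp [lp, h]
    have S1 := S 1 le_rfl
    simp only [pow_one] at S1
    rw [DD, RR, tsum_congr e, S1.tsum_sub (S 2 one_le_two), sub_add_cancel]

end Pool.Agent.P.MP_323ce2_nt.QZ
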