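import Pool.Agent.P.MP_323ce2_nt.QZ.All
import Pool.Agent.P.MP_323ce2_nt.QZ.Up2
import Pool.Agent.P.MP_323ce2_nt.QZ.Eul
import Pool.Agent.P.MP_323ce2_nt.QZ.Rem
import Pool.Agent.P.MP_323ce2_nt.QZ.Cop
import Pool.Agent.P.MP_323ce2_nt.QZ.Rad
import Pool.Agent.P.MP_323ce2_nt.QZ.Asm2

/-! The zero layer with prime sums and coprimality conditions, without hypotheses. -/

namespace Pool.Agent.P.MP_323ce2_nt.QZ

theorem zero2 : S_Zero2 := pZero2 pLw pUp pCont pCv pCvl pDet pUp2 pEul pRem pCop pRad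

end Pool.Agent.P.MP_323ce2_nt.QZ
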