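import Pool.Agent.P.MP_323ce2_nt.QZ.St2
import Pool.Agent.P.MP_26a8c3_nt.QE.EulO
import Pool.Agent.P.MP_0ad054_nt.An.Siegel

/-! A lower bound for the primary primes in a dyadic window. -/

namespace Pool.Agent.P.MP_323ce2_nt.QZ

open Pool.Agent.P.MP_26a8c3_nt Pool.Agent.P.MP_26a8c3_nt.QO Pool.Agent.P.MP_0ad054_nt
open Finset
open scoped Classical ArithmeticFunction.vonMangoldt

namespace Cheb

/-- the real character modulo three -/
def g (n : ℕ) : ℝ := if n % 3 = 1 then 1 else if n % 3 = 2 then -1 else 0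

lemma sw3 : ∃ C : ℝ, 0 < C ∧ ∀ X : ℕ, 2 ≤ X → 3 ≤ Real.log X →
    |∑ n ∈ Icc 1 X, Λ n * g n| ≤ C * X / Real.log X := by
  obtain ⟨C, hC, h⟩ := An.sw (An.zfree An.lup (An.siegel An.lup)) An.tauber 1 1
  obtain ⟨χ, hχ⟩ := QE.exists_twist (dvd_refl 3) (1 : DirichletCharacter ℂ 3)
  have one : ∀ n : ℕ, n % 3 ≠ 0 → (1 : DirichletCharacter ℂ 3) n = 1 := fun n hn =>
    MulChar.one_apply ((ZMod.isUnit_iff_coprime n 3).2
      ((Nat.coprime_comm.1 ((Nat.Prime.coprime_iff_not_dvd Nat.prime_three).2 (by omega)))))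
  have e : ∀ n : ℕ, χ n = (g n : ℂ) := fun n => by
    obtain ⟨h0, h1, h2⟩ := hχ n
    unfold g
    split_ifs with a b
    · rw [h1 a, one n (by omega)]; simp
    · rw [h2 b, one n (by omega)]; simp
    · rw [(h0 (by omega)).2]; simp
  have ne : χ ≠ 1 := fun hh => by
    have h2 := e 2
    rw [hh, one 2 (by norm_num)] at h2
    norm_num [g] at h2
  refine ⟨C, hC, fun X hX hl => ?_⟩
  have := h X 3 χ hX (by simpa using hl) ne
  simp only [e, ← Complex.ofReal_mul, ← Complex.ofReal_sum, Complex.norm_real, pow_one] at this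
  exact this

lemma point {n : ℕ} (hn : 3 < n) : Λ n * (1 + g n) / 2 ≤
    (if n.Prime ∧ n % 3 = 1 then Real.log n else 0) + if ¬ n.Prime then Λ n else 0 := by
  have h0 : 0 ≤ Λ n := ArithmeticFunction.vonMangoldt_nonneg
  by_cases hp : n.Prime
  · have h3 : n % 3 ≠ 0 := fun h => by
      have := (Nat.prime_dvd_prime_iff_eq Nat.prime_three hp).1 (Nat.dvd_of_mod_eq_zero h)
      omega
    rw [ArithmeticFunction.vonMangoldt_apply_prime hp]
    unfold g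
    by_cases h1 : n % 3 = 1
    · simp [hp, h1]; linarith
    · simp [hp, show n % 3 = 2 by omega]
  · have : g n ≤ 1 := by unfold g; split_ifs <;> norm_num
    simp only [hp, false_and, if_false, not_false_iff, if_true]
    nlinarith

lemma lift {P : ℝ} (hP : 0 ≤ P) :
    ∑ n ∈ (Ioc ⌊P⌋₊ ⌊2 * P⌋₊).filter (fun n => n.Prime ∧ n % 3 = 1), Real.log n ≤
      ∑ p ∈ (ball (2 * P)).filter (fun p => P < N p), lp p := by
  have ex : ∀ n : ℕ, ∃ a : O, n.Prime ∧ n % 3 = 1 → Prime a ∧ Primary a ∧ N a = n := fun n => by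
    by_cases h : n.Prime ∧ n % 3 = 1
    · obtain ⟨a, -, -, ha, -⟩ := QE.eisLike.split h.1 h.2
      exact ⟨a.1, fun _ => ⟨a.2.1, a.2.2, ha⟩⟩
    · exact ⟨0, fun h' => absurd h' h⟩
  choose f hf using ex
  set S := (Ioc ⌊P⌋₊ ⌊2 * P⌋₊).filter (fun n => n.Prime ∧ n % 3 = 1) with hS
  have e1 : ∑ n ∈ S, Real.log n = ∑ n ∈ S, lp (f n) := sum_congr rfl fun n hn => by
    obtain ⟨h1, h2, h3⟩ := hf n (mem_filter.1 hn).2
    rw [lp, if_pos ⟨h1, h2⟩, h3]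
  have e2 : ∑ a ∈ S.image f, lp a = ∑ n ∈ S, lp (f n) := sum_image fun a ha b hb e => by
    rw [← (hf a (mem_filter.1 ha).2).2.2, ← (hf b (mem_filter.1 hb).2).2.2, e]
  rw [e1, ← e2]
  refine sum_le_sum_of_subset_of_nonneg (fun a ha => ?_) fun a _ _ => lp_nonneg a
  obtain ⟨n, hn, rfl⟩ := mem_image.1 ha
  obtain ⟨h1, h2⟩ := mem_filter.1 hn
  rw [mem_filter, mem_ball, (hf n h2).2.2]
  exact ⟨(Nat.le_floor_iff (by linarith)).1 (mem_Ioc.1 h1).2,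
    (Nat.floor_lt hP).1 (mem_Ioc.1 h1).1⟩

end Cheb

theorem pCheb : S_Cheb := by
  obtain ⟨C₁, c1, h1⟩ := An.pnt An.lup (An.zfree An.lup (An.siegel An.lup)) An.tauber 1
  obtain ⟨C₂, c2, h2⟩ := Cheb.sw3
  obtain ⟨C₃, h3⟩ := Chebyshev.psi_sub_theta_le_mul_sqrt
  set L := 64 * (C₁ + C₂) + 3 with hL
  refine ⟨Real.exp L + 4 + (32 * C₃) ^ 2, fun P hP => ?_⟩
  have e0 := Real.exp_pos L
  have s0 := sq_nonneg (32 * C₃)
  have P0 : 0 ≤ P := by linarith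
  refine le_trans ?_ (Cheb.lift P0)
  have a0 := Nat.lt_floor_add_one P
  have a1 := Nat.lt_floor_add_one (2 * P)
  have b0 := Nat.floor_le P0
  have b1 := Nat.floor_le (show 0 ≤ 2 * P by linarith)
  have hle : ⌊P⌋₊ ≤ ⌊2 * P⌋₊ := Nat.floor_le_floor (by linarith)
  have h3' := h3 (2 * P)
  rw [Chebyshev.psi_sub_theta_eq_sum_not_prime] at h3'
  generalize ⌊P⌋₊ = X₀ at *
  generalize ⌊2 * P⌋₊ = X₁ at *
  have hle' : (X₀ : ℝ) ≤ X₁ := by exact_mod_cast hle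
  have x3 : 3 ≤ X₀ := by exact_mod_cast (show (3 : ℝ) ≤ X₀ by linarith)
  have err : ∀ X : ℕ, X₀ ≤ X → (X : ℝ) ≤ 2 * P → ∀ C : ℝ, 0 < C → 64 * C + 3 ≤ L →
      3 ≤ Real.log X ∧ C * X / Real.log X ≤ P / 32 := fun X hX hX' C hC hCL => by
    have : (X₀ : ℝ) ≤ X := by exact_mod_cast hX
    have l : L ≤ Real.log X := (Real.le_log_iff_exp_le (by linarith)).2 (by linarith)
    refine ⟨by linarith, ?_⟩
    rw [div_le_iff₀ (by linarith)]
    nlinarith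
  have split : ∀ f : ℕ → ℝ,
      ∑ n ∈ Ioc X₀ X₁, f n = ∑ n ∈ Icc 1 X₁, f n - ∑ n ∈ Icc 1 X₀, f n := fun f => by
    rw [eq_sub_iff_add_eq', show Icc 1 X₁ = Ioc 0 X₁ from rfl, show Icc 1 X₀ = Ioc 0 X₀ from rfl,
      sum_Ioc_consecutive f (Nat.zero_le _) hle]
  have p0 := abs_le.1 (h1 X₀ (by omega))
  have p1 := abs_le.1 (h1 X₁ (by omega))
  rw [pow_one] at p0 p1
  have u0 := err X₀ le_rfl (by linarith) C₁ c1 (by linarith)
  have u1 := err X₁ hle b1 C₁ c1 (by linarith)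
  have v0 := err X₀ le_rfl (by linarith) C₂ c2 (by linarith)
  have v1 := err X₁ hle b1 C₂ c2 (by linarith)
  have q0 := abs_le.1 (h2 X₀ (by omega) u0.1)
  have q1 := abs_le.1 (h2 X₁ (by omega) u1.1)
  have key := sum_le_sum fun n (hn : n ∈ Ioc X₀ X₁) =>
    Cheb.point (show 3 < n by have := (mem_Ioc.1 hn).1; omega)
  rw [sum_add_distrib, ← sum_filter, ← sum_filter] at key
  have np : ∑ n ∈ (Ioc X₀ X₁).filter (fun n => ¬ n.Prime), Λ n ≤ C₃ * √(2 * P) :=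
    (sum_le_sum_of_subset_of_nonneg (filter_subset_filter _ (Ioc_subset_Ioc_left (Nat.zero_le _)))
      fun _ _ _ => ArithmeticFunction.vonMangoldt_nonneg).trans h3'
  have e : ∑ n ∈ Ioc X₀ X₁, Λ n * (1 + Cheb.g n) / 2 =
      (∑ n ∈ Ioc X₀ X₁, Λ n + ∑ n ∈ Ioc X₀ X₁, Λ n * Cheb.g n) / 2 := by
    rw [← sum_add_distrib, sum_div]
    exact sum_congr rfl fun n _ => by ring
  rw [e, split, split] at key
  have r1 : 32 * C₃ ≤ √(2 * P) := Real.le_sqrt_of_sq_le (by linarith)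
  have r2 := Real.mul_self_sqrt (show 0 ≤ 2 * P by linarith)
  have r3 : C₃ * √(2 * P) ≤ P / 16 := by nlinarith [Real.sqrt_nonneg (2 * P)]
  linarith [u0.2, u1.2, v0.2, v1.2, p0.2, p1.1, q0.2, q1.1]

end Pool.Agent.P.MP_323ce2_nt.QZ
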