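import Pool.Agent.P.MP_323ce2_nt.QZ.St
import Pool.Agent.P.MP_323ce2_nt.Tools

/-! Local form of Littlewood's argument: Borel-Caratheodory and three circles. -/

namespace Pool.Agent.P.MP_323ce2_nt.QZ

open Complex Filter Topology Metric Set

namespace Lw

lemma ev {A B lam ε : ℝ} (hlam : lam < 1) (hε : 0 < ε) :
    ∀ᶠ L : ℝ in atTop, A + B * L ^ lam ≤ ε * L := by
  have h1 : Tendsto (fun L : ℝ => A * L⁻¹ + B * L ^ (-(1 - lam))) atTop (𝓝 (A * 0 + B * 0)) :=
    (tendsto_inv_atTop_zero.const_mul A).add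
      ((tendsto_rpow_neg_atTop (by linarith)).const_mul B)
  rw [mul_zero, mul_zero, add_zero] at h1
  filter_upwards [h1.eventually (gt_mem_nhds hε), eventually_gt_atTop 0] with L hL hL0
  have e : A + B * L ^ lam = (A * L⁻¹ + B * L ^ (-(1 - lam))) * L := by
    have : L ^ lam = L ^ (-(1 - lam)) * L := by
      rw [← Real.rpow_add_one hL0.ne']; congr 1; ring
    rw [this]; field_simp
  rw [e]
  gcongr

lemma lam_le {r δ : ℝ} (h0 : 0 < δ) (h1 : δ ≤ 1 / 2) (r1 : 1 ≤ r) (r2 : r ≤ 3 / 2) :
    (Real.log (r - δ) - Real.log (1 / 4)) / (Real.log (r - δ / 2) - Real.log (1 / 4)) ≤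
      1 - δ / 15 := by
  have a1 : Real.log (1 / 4) < Real.log (r - δ / 2) := Real.log_lt_log (by norm_num) (by linarith)
  have a2 : Real.log (r - δ / 2) - Real.log (1 / 4) ≤ 5 := by
    rw [← Real.log_div (by linarith) (by norm_num)]
    refine (Real.log_le_sub_one_of_pos (div_pos (by linarith) (by norm_num))).trans ?_
    linarith
  have a3 : Real.log (r - δ) - Real.log (r - δ / 2) ≤ -(δ / 3) := by
    rw [← Real.log_div (by linarith) (by linarith)]
    refine (Real.log_le_sub_one_of_pos (div_pos (by linarith) (by linarith))).trans ?_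
    rw [sub_le_iff_le_add, div_le_iff₀ (by linarith)]
    nlinarith
  rw [div_le_iff₀ (by linarith)]
  nlinarith

end Lw

theorem pLw : S_Lw := by
  intro δ₀ η A K hδ₀ hη hA hK
  set δ := min δ₀ (1 / 2) with hδd
  have hδ : 0 < δ := lt_min hδ₀ (by norm_num)
  have hδ1 : δ ≤ 1 / 2 := min_le_right _ _
  have hδ2 : δ ≤ δ₀ := min_le_left _ _
  have hlK : 0 ≤ Real.log K := Real.log_nonneg hK
  set a := 4 * Real.log K + 2 with ha
  have ha0 : 0 < a := by positivity
  set b := 6 * (A + 1) / δ with hb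
  have hb1 : 1 ≤ b := by rw [hb, le_div_iff₀ hδ]; linarith
  obtain ⟨L1, hL1⟩ := eventually_atTop.1 ((Lw.ev (A := Real.log K)
    (B := a * (b / a) ^ (1 - δ / 15)) (lam := 1 - δ / 15) (by linarith) hη).and
    ((eventually_ge_atTop (Real.log K)).and (eventually_ge_atTop a)))
  refine ⟨L1, fun f c r L hL r1 r2 hf hz hK1 hK2 s hs => ?_⟩
  obtain ⟨k1, k2, k3⟩ := hL1 _ hL
  have hL0 : 0 < L := by linarith
  obtain ⟨φ, hφ, hφ0, hφe⟩ := exists_log (h := f) (c := c) (r := r) (by linarith) hf
    fun z h => (hz z h).1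
  have hc0 : 0 < ‖f c‖ := norm_pos_iff.2 (hz c (mem_ball_self (by linarith))).1
  have hc1 : ‖f c‖ ≤ K := hK1 c (mem_ball_self (by norm_num))
  have hre : ∀ z ∈ ball c r, ∀ B : ℝ, ‖f z‖ ≤ Real.exp B → (φ z).re ≤ B + Real.log K := by
    intro z hz B hB
    rw [hφe z hz, norm_mul, norm_exp] at hB
    rw [← Real.exp_le_exp, Real.exp_add, Real.exp_log (by linarith)]
    calc Real.exp (φ z).re = ‖f c‖ * Real.exp (φ z).re * ‖f c‖⁻¹ := by field_simp
      _ ≤ _ := by gcongr
  have hb2 : ∀ z ∈ closedBall c (1 / 4), ‖φ z‖ ≤ a := by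
    intro z hz
    have := bc (M := 2 * Real.log K + 1) (R := 1 / 2) (r := 1 / 4) (by positivity) (by norm_num)
      (by norm_num) (hφ.mono (ball_subset_ball (by linarith))) hφ0 (fun w hw' => ?_) hz
    · refine this.trans (le_of_eq ?_)
      rw [ha]; ring
    have := hre w (ball_subset_ball (by linarith) hw') (Real.log K) (by
      rw [Real.exp_log (by linarith)]; exact hK1 w hw')
    linarith
  have hb3 : ∀ z ∈ closedBall c (r - δ / 2), ‖φ z‖ ≤ b * L := by
    intro z hz'
    have := bc (M := (A + 1) * L) (R := r) (r := r - δ / 2) (by positivity) (by linarith)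
      (by linarith) hφ hφ0 (fun w hw' => ?_) hz'
    · refine this.trans ?_
      rw [div_le_iff₀ (by linarith), hb, show 6 * (A + 1) / δ * L * (r - (r - δ / 2)) =
        2 * ((A + 1) * L) * (3 / 2) by field_simp; ring]
      have : 0 < 2 * ((A + 1) * L) := by positivity
      gcongr
      linarith
    have := hre w hw' (A * L) (hz w hw').2
    linarith
  have hab : a ≤ b * L := by nlinarith
  have hs1 : s ∈ closedBall c (r - δ) := closedBall_subset_closedBall (by linarith) hs
  have key := three_circles (r1 := 1 / 4) (r2 := r - δ) (r3 := r - δ / 2) (R := r)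
    (by norm_num) (by linarith) (by linarith) (by linarith) (by linarith) hφ hb2 hb3 ha0 hab hs1
  have key2 : ‖φ s‖ ≤ a * (b / a) ^ (1 - δ / 15) * L ^ (1 - δ / 15) := by
    refine key.trans ?_
    rw [mul_assoc, ← Real.mul_rpow (by positivity) hL0.le, show b / a * L = b * L / a by ring]
    exact mul_le_mul_of_nonneg_left (Real.rpow_le_rpow_of_exponent_le
      ((one_le_div ha0).2 hab) (Lw.lam_le hδ hδ1 r1 r2)) ha0.le
  have hs' : s ∈ ball c r := closedBall_subset_ball (by linarith) hs1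
  have h1 := abs_le.1 ((abs_re_le_norm (φ s)).trans key2)
  rw [hφe s hs', norm_mul, norm_exp]
  constructor
  · calc _ ≤ K * Real.exp (φ s).re := by gcongr
      _ = Real.exp (Real.log K + (φ s).re) := by
          rw [Real.exp_add, Real.exp_log (by linarith)]
      _ ≤ _ := Real.exp_le_exp.2 (by linarith [h1.2])
  · rw [mul_inv, ← Real.exp_neg]
    calc _ ≤ K * Real.exp (-(φ s).re) := by gcongr
      _ = Real.exp (Real.log K + -(φ s).re) := by
          rw [Real.exp_add, Real.exp_log (by linarith)]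
      _ ≤ _ := Real.exp_le_exp.2 (by linarith [h1.1])

end Pool.Agent.P.MP_323ce2_nt.QZ
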