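import Pool.Agent.P.MP_323ce2_nt.QZ.St2
import Pool.Agent.P.MP_323ce2_nt.QX.Top

/-! Short pieces: primes in disjoint windows with log-Gaussian weights. -/

namespace Pool.Agent.P.MP_323ce2_nt.QZ

open Pool.Agent.P.MP_26a8c3_nt Pool.Agent.P.MP_26a8c3_nt.QO Pool.Agent.P.MP_26a8c3_nt.QA
open Pool.Agent.P.MP_323ce2_nt.QF Pool.Agent.P.MP_323ce2_nt.QX
open Finset
open scoped Classical

namespace Pcs

noncomputable section

/-- the index of the window -/
def idx (P R : ℝ) (p : O) : ℕ := ⌊(Real.log P - Real.log (nr p)) / (2 * R)⌋₊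

/-- the centre of a window -/
def ctr (P R : ℝ) (i : ℕ) : ℝ := P * Real.exp (-((2 * i + 1) * R))

/-- the primes of a window -/
def SS (Q : O) (P R : ℝ) (i : ℕ) : Finset O :=
  (ball P).filter fun p => Prime p ∧ Primary p ∧ IsCoprime p Q ∧ idx P R p = i

/-- the weight -/
def wt (P R Λ : ℝ) (p : O) : ℝ :=
  if (N p : ℝ) ≤ P then
    lp p / Λ * Real.exp (-(Real.log (nr p) - Real.log (ctr P R (idx P R p))) ^ 2) else 0

end

variable {Q : O} {P R Λ : ℝ}

lemma ctr_pos (hP : 0 < P) (R : ℝ) (i : ℕ) : 0 < ctr P R i := mul_pos hP (Real.exp_pos _)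

lemma log_ctr (hP : 0 < P) (R : ℝ) (i : ℕ) :
    Real.log (ctr P R i) = Real.log P - (2 * i + 1) * R := by
  rw [ctr, Real.log_mul hP.ne' (Real.exp_pos _).ne', Real.log_exp]; ring

lemma idx_iff (hR : 0 < R) {p : O} (h : nr p ≤ P) (i : ℕ) : idx P R p = i ↔
    2 * i * R ≤ Real.log P - Real.log (nr p) ∧ Real.log P - Real.log (nr p) < (2 * i + 2) * R := by
  rw [idx, Nat.floor_eq_iff (div_nonneg (sub_nonneg.2 (Real.log_le_log (nr_pos p) h))
    (by positivity)), le_div_iff₀ (by positivity), div_lt_iff₀ (by positivity)]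
  constructor <;> rintro ⟨h1, h2⟩ <;> constructor <;> linarith

lemma mem_SS {p : O} {i : ℕ} : p ∈ SS Q P R i ↔
    (N p : ℝ) ≤ P ∧ Prime p ∧ Primary p ∧ IsCoprime p Q ∧ idx P R p = i := by
  rw [SS, mem_filter, mem_ball]

lemma pc (hP : 0 < P) (hR : 0 < R) (hΛ : 0 < Λ) (h : Real.log P ≤ Λ) (J : ℕ) :
    Pc Q (P * Real.exp (-(2 * J * R))) P (range J) (SS Q P R) (wt P R Λ) where
  pr i hi p hp := by
    obtain ⟨h1, h2, h3, h4, h5⟩ := mem_SS.1 hp
    refine ⟨h2, h3, h4, ?_, h1⟩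
    have e := nr_eq h2.ne_zero
    have h6 := ((idx_iff hR (e.trans_le h1) i).1 h5).2
    have h7 : (i : ℝ) + 1 ≤ J := by exact_mod_cast mem_range.1 hi
    rw [← e, ← Real.log_le_log_iff (by positivity) (nr_pos p),
      Real.log_mul hP.ne' (Real.exp_pos _).ne', Real.log_exp]
    nlinarith
  dj i _ j _ hij := disjoint_left.2 fun p h1 h2 =>
    hij ((mem_SS.1 h1).2.2.2.2.symm.trans (mem_SS.1 h2).2.2.2.2)
  w0 p := by
    unfold wt
    have := lp_nonneg p
    split_ifs
    exacts [by positivity, le_rfl]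
  w1 p := by
    unfold wt
    split_ifs with h1
    · refine mul_le_one₀ ((div_le_one hΛ).2 ?_) (Real.exp_pos _).le
        (Real.exp_le_one_iff.2 (neg_nonpos.2 (sq_nonneg _)))
      unfold lp
      split_ifs with h2
      exacts [(Real.log_le_log (N_pos_real h2.1.ne_zero) h1).trans h, hΛ.le]
    · exact zero_le_one

lemma mass (hQ : Q ≠ 0) (hP : 0 < P) (hR : 1 ≤ R) (hΛ : 0 < Λ) (i : ℕ) (h1 : N Q ≤ ctr P R i)
    (h2 : ctr P R i / 4 ≤ ∑ p ∈ (ball (2 * ctr P R i)).filter fun p => ctr P R i < N p, lp p) :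
    ctr P R i ≤ 12 * Λ * ∑ p ∈ SS Q P R i, wt P R Λ p := by
  set c := ctr P R i with hc
  have c0 : 0 < c := ctr_pos hP R i
  have lc := log_ctr hP R i
  rw [← hc] at lc
  have i0 : (0 : ℝ) ≤ i := Nat.cast_nonneg i
  have key : ∀ p ∈ ((ball (2 * c)).filter fun p => c < N p).filter fun p => Prime p ∧ Primary p,
      p ∈ SS Q P R i ∧ lp p ≤ 3 * Λ * wt P R Λ p := fun p hp => by
    simp only [mem_filter, mem_ball] at hp
    obtain ⟨⟨k1, k2⟩, k3, k4⟩ := hp
    have e := nr_eq k3.ne_zero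
    have l1 : Real.log c < Real.log (nr p) := Real.log_lt_log c0 (by rwa [e])
    have l2 : Real.log (nr p) ≤ Real.log c + 1 := by
      have := Real.log_le_log (nr_pos p) (e.trans_le k1)
      rw [Real.log_mul two_ne_zero c0.ne'] at this
      linarith [Real.log_two_lt_d9]
    have l3 : nr p ≤ P := by
      rw [← Real.log_le_log_iff (nr_pos p) hP]
      nlinarith
    have l4 : idx P R p = i := (idx_iff (by linarith) l3 i).2 ⟨by linarith, by linarith⟩
    refine ⟨mem_SS.2 ⟨e ▸ l3, k3, k4, k3.coprime_iff_not_dvd.2 fun hd => ?_, l4⟩, ?_⟩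
    · have : (N p : ℝ) ≤ N Q := by exact_mod_cast N_le_of_dvd hd hQ
      linarith
    · rw [wt, if_pos (e ▸ l3), l4, ← hc]
      have l5 : 1 ≤ 3 * Real.exp (-(Real.log (nr p) - Real.log c) ^ 2) := by
        have l6 : Real.exp (-1) ≤ Real.exp (-(Real.log (nr p) - Real.log c) ^ 2) :=
          Real.exp_le_exp.2 (by nlinarith)
        have l7 : Real.exp 1 * Real.exp (-1) = 1 := by rw [← Real.exp_add]; simp
        nlinarith [Real.exp_one_lt_three, Real.exp_pos (-1)]
      calc lp p = lp p * 1 := (mul_one _).symm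
        _ ≤ lp p * (3 * Real.exp (-(Real.log (nr p) - Real.log c) ^ 2)) :=
            mul_le_mul_of_nonneg_left l5 (lp_nonneg p)
        _ = _ := by field_simp
  have h3 : ∑ p ∈ (ball (2 * c)).filter fun p => c < N p, lp p ≤
      3 * Λ * ∑ p ∈ SS Q P R i, wt P R Λ p := by
    rw [← sum_filter_of_ne (p := fun p => Prime p ∧ Primary p) fun p _ hp => by
      by_contra k
      exact hp (if_neg k), mul_sum]
    refine (sum_le_sum fun p hp => (key p hp).2).trans
      (sum_le_sum_of_subset_of_nonneg (fun p hp => (key p hp).1) fun p _ _ => ?_)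
    have := lp_nonneg p
    unfold wt
    split_ifs
    exacts [by positivity, by simp]
  linarith

lemma approx (hP : 0 < P) (hR : 0 < R) (hΛ : 1 ≤ Λ) (i : ℕ) (m : O)
    (h : KO * Real.exp (2 - R ^ 2 / 2) * P ^ 2 ≤ 1) :
    ‖F1 (SS Q P R i) (wt P R Λ) m‖ ≤ ‖Wsum (uP (ph (cop Q) m)) (ctr P R i) 0‖ + 1 := by
  set c := ctr P R i with hc
  have c0 : 0 < c := ctr_pos hP R i
  have lc := log_ctr hP R i
  rw [← hc] at lc
  have i0 : (0 : ℝ) ≤ i := Nat.cast_nonneg i
  have cP : c ≤ P := mul_le_of_le_one_right hP.le (Real.exp_le_one_iff.2 (by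
    have : 0 ≤ (2 * i + 1) * R := by positivity
    linarith))
  have hB : B2 (uP (ph (cop Q) m)) := B1.uP (mul1_ph (isNu_cop Q) m).le
  set f : O → ℂ := fun p => uP (ph (cop Q) m) p * W c 0 (nr p) with hf
  have e1 : (Λ : ℂ) * F1 (SS Q P R i) (wt P R Λ) m = ∑ p ∈ SS Q P R i, f p := by
    rw [F1, mul_sum]
    refine sum_congr rfl fun p hp => ?_
    obtain ⟨h1, -, -, h4, h5⟩ := mem_SS.1 hp
    have : (Λ : ℂ) ≠ 0 := by exact_mod_cast (by linarith : Λ ≠ 0)
    simp only [hf, wt, if_pos h1, h5, ← hc, uP, ph, cop, if_pos h4, W]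
    push_cast
    simp only [zero_mul, add_zero]
    field_simp
  have e2 := (hB.summable_W c0 0).sum_add_tsum_compl (s := SS Q P R i)
  have e3 : ‖∑' p : ((SS Q P R i : Set O)ᶜ : Set O), f p‖ ≤ 1 := by
    have hs := summable_KO.mul_left (Real.exp (2 - R ^ 2 / 2) * P ^ 2)
    refine (tsum_of_norm_bounded (hs.subtype _).hasSum fun p => ?_).trans
      ((hs.tsum_subtype_le _ _ fun p => ?_).trans ?_)
    · obtain ⟨p, hp⟩ := p
      have n0 := Real.rpow_pos_of_pos (nr_pos p) (-(3 / 2) : ℝ)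
      change ‖f p‖ ≤ Real.exp (2 - R ^ 2 / 2) * P ^ 2 * nr p ^ (-(3 / 2) : ℝ)
      by_cases k : (Prime p ∧ Primary p) ∧ IsCoprime p Q
      · have e := nr_eq k.1.1.ne_zero
        have d : R ^ 2 ≤ (Real.log (nr p) - Real.log c) ^ 2 := by
          by_cases k1 : nr p ≤ P
          · have k2 : ¬ idx P R p = i := fun k2 =>
              hp (mem_coe.2 (mem_SS.2 ⟨e ▸ k1, k.1.1, k.1.2, k.2, k2⟩))
            rw [idx_iff hR k1, not_and_or, not_le, not_lt] at k2
            rcases k2 with k2 | k2 <;> nlinarith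
          · have := Real.log_lt_log hP (not_le.1 k1)
            nlinarith [mul_nonneg i0 hR.le]
        have w : ‖W c 0 (nr p)‖ ≤ Real.exp (2 - R ^ 2 / 2) * P ^ 2 * nr p ^ (-2 : ℝ) := by
          calc _ ≤ Real.exp (2 - R ^ 2 / 2) * c ^ 2 * nr p ^ (-2 : ℝ) := by
                rw [norm_W, ← Real.rpow_two c, Real.rpow_def_of_pos c0,
                  Real.rpow_def_of_pos (nr_pos p), ← Real.exp_add, ← Real.exp_add, Real.exp_le_exp]
                nlinarith [sq_nonneg (Real.log (nr p) - Real.log c - 2)]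
            _ ≤ _ := by
                have := Real.rpow_pos_of_pos (nr_pos p) (-2 : ℝ)
                gcongr
        simp only [hf, norm_mul]
        refine (mul_le_mul_of_nonneg_left w (norm_nonneg _)).trans ?_
        rw [mul_left_comm]
        exact mul_le_mul_of_nonneg_left (hB.term p le_rfl) (by positivity)
      · have : f p = 0 := by
          rcases not_and_or.1 k with k | k
          · simp [hf, uP, lp, k]
          · simp [hf, uP, ph, cop, k]
        rw [this, norm_zero]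
        positivity
    · have := Real.rpow_pos_of_pos (nr_pos p) (-(3 / 2) : ℝ)
      positivity
    · rw [tsum_mul_left]
      change _ * KO ≤ 1
      linarith
  have e4 : ‖∑ p ∈ SS Q P R i, f p‖ ≤ ‖Wsum (uP (ph (cop Q) m)) c 0‖ + 1 := by
    rw [eq_sub_of_add_eq e2]
    exact (norm_sub_le _ _).trans (add_le_add le_rfl e3)
  rw [← e1, norm_mul, Complex.norm_real, Real.norm_of_nonneg (by linarith)] at e4
  exact (le_mul_of_one_le_left (norm_nonneg _) hΛ).trans e4

end Pcs

end Pool.Agent.P.MP_323ce2_nt.QZ
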