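import Pool.Agent.P.MP_323ce2_nt.QZ.All2
import Pool.Agent.P.MP_323ce2_nt.QZ.Cheb
import Pool.Agent.P.MP_323ce2_nt.QZ.Pcs
import Pool.Agent.P.MP_323ce2_nt.QF.All

/-! The row statement: pieces, pointwise bounds and witnesses. -/

namespace Pool.Agent.P.MP_323ce2_nt.QZ

open Pool.Agent.P.MP_26a8c3_nt Pool.Agent.P.MP_26a8c3_nt.QO Pool.Agent.P.MP_26a8c3_nt.QA
open Pool.Agent.P.MP_323ce2_nt.QF Pool.Agent.P.MP_323ce2_nt.QX
open Finset Filter

lemma uA_six (ν : O → ℂ) (m k : O) : uA ν 1 (m * k ^ 6) = uM (cp (ph ν m) k) := by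
  classical
  rw [uA_eq]
  funext c
  unfold uM cp ph
  split_ifs with h
  · beta_reduce
    rw [psi_mul, psi_pow, psi_six h.ne_zero, cop, cop, mul_assoc (ν c)]
    simp only [isCoprime_comm (x := k)]
  · rfl

theorem row_of (h1 : S_Zero2) (h2 : S_Cheb) (h3 : S_F1) : S_Row := by
  intro Q hQ h36 ε η hε hη J
  obtain ⟨C₁, k, C10, hF⟩ := h3 Q hQ h36 2
  obtain ⟨P₀, hP₀⟩ := h2
  set e := min ε 1 / 2 with he
  have e0 : 0 < e := by positivity
  have e1 : 2 * e ≤ ε := by have := min_le_left ε 1; linarith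
  have e2 : 2 * e ≤ 1 := by have := min_le_right ε 1; linarith
  have k0 : (0 : ℝ) ≤ k := Nat.cast_nonneg k
  have J0 : (0 : ℝ) ≤ J := Nat.cast_nonneg J
  obtain ⟨C₂, C21, hZ⟩ := h1 e (k + 10) e0 (by linarith)
  set g := min e (η / 2) with hg
  have g0 : 0 < g := by positivity
  have g1 : g ≤ e := min_le_left _ _
  have g2 : g ≤ η / 2 := min_le_right _ _
  set κ := g / (2 * (J + 1)) with hκ
  have κ0 : 0 < κ := by positivity
  have κ1 : 2 * (J + 1) * κ = g := by rw [hκ]; field_simp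
  have hK := one_le_KO
  have Q1 : (1 : ℝ) ≤ N Q := one_le_N hQ
  set c := C₁ + C₂ + |P₀| + N Q + 12 + KO with hc
  have c0 : 12 ≤ c := by linarith [abs_nonneg P₀]
  obtain ⟨L₁, hL⟩ := eventually_atTop.1 ((ev_lin c (κ := g / (2 * (k + 1))) (by positivity)).and
    ((eventually_ge_atTop (1 / κ)).and ((eventually_ge_atTop (10 / κ ^ 2)).and
      (eventually_ge_atTop 1))))
  refine ⟨Real.exp L₁ + C₂, by linarith [Real.exp_pos L₁], fun Z P hZ0 hP1 hP2 => ?_⟩
  have Z0 : 0 < Z := by linarith [Real.exp_pos L₁]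
  obtain ⟨l1, l2, l3, l4⟩ := hL (Real.log Z) ((Real.le_log_iff_exp_le Z0).2 (by linarith))
  set Λ := Real.log Z with hΛ
  have pw : ∀ x : ℝ, Z ^ x = Real.exp (x * Λ) := fun x => by
    rw [Real.rpow_def_of_pos Z0, mul_comm]
  have pn : ∀ n : ℕ, Z ^ n = Z ^ (n : ℝ) := fun n => (Real.rpow_natCast Z n).symm
  have Λ0 : 0 < Λ := by linarith
  have Z1 : 1 ≤ Z := by rw [← Real.exp_log Z0]; exact Real.one_le_exp Λ0.le
  have mono : ∀ {x y : ℝ}, x ≤ y → Z ^ x ≤ Z ^ y := fun h => Real.rpow_le_rpow_of_exponent_le Z1 h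
  have P1 : 1 ≤ P := (Real.one_le_rpow Z1 hη.le).trans hP1
  have P0 : 0 < P := by linarith
  rw [div_le_iff₀ κ0] at l2
  rw [div_le_iff₀ (by positivity)] at l3
  have cΛ : 0 ≤ c * Λ := by positivity
  have d1 : g / (2 * (k + 1)) ≤ g := div_le_self g0.le (by linarith)
  have a0 : c * (1 + c * Λ) ≤ Z ^ g := by
    rw [pw]
    exact l1.trans (Real.exp_le_exp.2 (by gcongr))
  have a1 : c ≤ Z ^ g := (le_mul_of_one_le_right (by linarith) (by linarith)).trans a0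
  have a2 : 1 + c * Λ ≤ Z ^ g := (le_mul_of_one_le_left (by linarith) (by linarith)).trans a0
  have a3 : c * (1 + c * Λ) ^ k ≤ Z ^ g := by
    have b1 : c ≤ c * (1 + c * Λ) := le_mul_of_one_le_right (by linarith) (by linarith)
    have b2 : 1 + c * Λ ≤ c * (1 + c * Λ) := le_mul_of_one_le_left (by linarith) (by linarith)
    calc _ ≤ Real.exp (g / (2 * (k + 1)) * Λ) * Real.exp (g / (2 * (k + 1)) * Λ) ^ k := by
          gcongr
          exacts [b1.trans l1, b2.trans l1]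
      _ ≤ _ := by
          rw [← pow_succ', ← Real.exp_nat_mul, pw, Real.exp_le_exp]
          push_cast
          rw [show (k + 1 : ℝ) * (g / (2 * (k + 1)) * Λ) = g * Λ / 2 by field_simp]
          linarith [mul_pos g0 Λ0]
  set R := κ * Λ with hR
  have R1 : 1 ≤ R := by linarith
  have b0 : ∀ x : ℝ, x ≤ 2 * (J + 1) → P ≤ Z ^ g * (P * Real.exp (-(x * R))) := fun x hx => by
    rw [pw, mul_left_comm, ← Real.exp_add]
    refine le_mul_of_one_le_right P0.le (Real.one_le_exp ?_)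
    rw [← κ1]
    nlinarith
  have b1 : ∀ i < J, P ≤ Z ^ g * Pcs.ctr P R i := fun i hi =>
    b0 _ (by have : (i : ℝ) ≤ J := by exact_mod_cast hi.le
             linarith)
  have b2 : ∀ i < J, c ≤ Pcs.ctr P R i := fun i hi => by
    refine a1.trans (le_of_mul_le_mul_left (le_trans ?_ (hP1.trans (b1 i hi)))
      (Real.rpow_pos_of_pos Z0 g))
    rw [← Real.rpow_add Z0]
    exact mono (by linarith)
  have two : Z ^ e * Z ^ g ≤ Z ^ ε := by
    rw [← Real.rpow_add Z0]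
    exact mono (by linarith)
  have Ze : Z ^ e ≤ Z ^ ε := mono (by linarith)
  have Zg : Z ^ g ≤ Z ^ e := mono g1
  refine ⟨_, Pcs.SS Q P R, Pcs.wt P R Λ, Pcs.pc P0 (by linarith) Λ0 (Real.log_le_log P0 hP2) J,
    (b0 _ (by linarith)).trans (mul_le_mul_of_nonneg_right (Zg.trans Ze) (by positivity)),
    fun i hi => ?_, fun m hm => ?_⟩
  · have m1 := Pcs.mass hQ P0 R1 Λ0 i (by linarith [b2 i hi, abs_nonneg P₀])
      (hP₀ _ (by linarith [b2 i hi, le_abs_self P₀]))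
    have m2 : 0 ≤ ∑ p ∈ Pcs.SS Q P R i, Pcs.wt P R Λ p := sum_nonneg fun p _ =>
      (Pcs.pc (Q := Q) P0 (by linarith) Λ0 (Real.log_le_log P0 hP2) J).w0 p
    have m3 : 12 * Λ ≤ Z ^ e := by nlinarith
    calc P ≤ Z ^ g * (Z ^ e * ∑ p ∈ Pcs.SS Q P R i, Pcs.wt P R Λ p) :=
          (b1 i hi).trans (by gcongr; exact m1.trans (by gcongr))
      _ = Z ^ e * Z ^ g * ∑ p ∈ Pcs.SS Q P R i, Pcs.wt P R Λ p := by ring
      _ ≤ _ := by gcongr
  obtain ⟨m1, m0, m2⟩ := mem_Rows.1 hm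
  have hν := isNu_cop Q
  have dec : ∀ X t : ℝ, 1 ≤ X → ‖Lm (cop Q) m X t‖ ≤ C₁ * (1 + |t|) ^ k * Z ^ 4 / X ^ 2 :=
    fun X t hX => (hF _ m Z X t hν m0 (rad_self m0 m1) (fun h => m2 ⟨_, hν, h⟩) hX).trans_eq
      (by ring)
  have cZ : c ≤ Z := by
    have : Z ^ g ≤ Z ^ (1 : ℝ) := mono (by linarith)
    rw [Real.rpow_one] at this
    linarith
  have C1Z : C₁ ≤ Z := by linarith [abs_nonneg P₀]
  obtain ⟨β, T, β0, β1, T0, T1, up, det⟩ := hZ Z {ph (cop Q) m} (by linarith [Real.exp_pos L₁])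
    fun φ hφ => by
      obtain rfl : φ = _ := hφ
      refine ⟨mul1_ph hν m, fun X t hX => (dec X t hX).trans ?_⟩
      have t1 : 1 ≤ 1 + |t| := le_add_of_nonneg_right (abs_nonneg t)
      have t2 : (1 + |t|) ^ k ≤ (1 + |t|) ^ ((k : ℝ) + 10) := by
        rw [← Real.rpow_natCast]
        exact Real.rpow_le_rpow_of_exponent_le t1 (by linarith)
      have t3 : Z * Z ^ 4 ≤ Z ^ ((k : ℝ) + 10) := by
        rw [← pow_succ', pn]
        exact mono (by push_cast; linarith)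
      calc _ = C₁ * Z ^ 4 * (1 + |t|) ^ k / X ^ 2 := by ring
        _ ≤ _ := by
            gcongr ?_ * ?_ / _
            exact le_trans (by gcongr) t3
  have big : ∀ n : ℕ, n ≤ 10 → Z ^ n ≤ Z ^ ((k : ℝ) + 10) := fun n hn => by
    have : (n : ℝ) ≤ 10 := by exact_mod_cast hn
    rw [pn]
    exact mono (by linarith)
  have h0 : |(0 : ℝ)| ≤ T + Λ := by rw [abs_zero]; linarith
  refine ⟨β, β0, β1, fun i hi => ?_, fun r r0 r1 X X0 X1 => ?_, det.imp (fun h => by linarith) ?_⟩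
  · have c1 := Pcs.ctr_pos P0 R i
    have c2 : Pcs.ctr P R i ≤ P := mul_le_of_le_one_right P0.le (Real.exp_le_one_iff.2 (by
      have : 0 ≤ (2 * i + 1) * R := by positivity
      linarith))
    have u1 := ((up _ rfl 1 _ 0 one_ne_zero (by simpa using big 0 (by norm_num)) c1 h0).2
      (c2.trans (hP2.trans (by simpa using big 1 (by norm_num))))).2
    rw [cp_one] at u1
    have u2 := Pcs.approx (Q := Q) P0 (by linarith : 0 < R) l4 i m (by
      have v1 : KO ≤ Real.exp Λ := by rw [Real.exp_log Z0]; linarith [abs_nonneg P₀]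
      have v2 : P ≤ Real.exp Λ := by rwa [Real.exp_log Z0]
      calc _ ≤ Real.exp Λ * Real.exp (2 - R ^ 2 / 2) * Real.exp Λ ^ 2 := by gcongr
        _ ≤ 1 := by
            rw [← Real.exp_nat_mul, ← Real.exp_add, ← Real.exp_add, Real.exp_le_one_iff, hR]
            push_cast
            nlinarith)
    have u3 : Pcs.ctr P R i ^ β ≤ P ^ β := Real.rpow_le_rpow c1.le c2 (by linarith)
    have u4 : 1 ≤ Z ^ e * P ^ β := one_le_mul_of_one_le_of_one_le (Real.one_le_rpow Z1 e0.le)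
      (Real.one_le_rpow P1 (by linarith))
    have u5 : Z ^ e * Pcs.ctr P R i ^ β ≤ Z ^ e * P ^ β := by gcongr
    calc _ ≤ 2 * (Z ^ e * P ^ β) := by linarith
      _ ≤ Z ^ g * (Z ^ e * P ^ β) := by gcongr; linarith
      _ = Z ^ e * Z ^ g * P ^ β := by ring
      _ ≤ _ := by gcongr
  · rw [A, uA_six]
    exact ((up _ rfl r X 0 r0 (r1.trans (big 10 le_rfl)) X0 h0).2
      (X1.trans (big 2 (by norm_num)))).1.trans (by gcongr)
  rintro ⟨φ, hφ, t, t1, hU⟩
  obtain rfl : φ = _ := hφ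
  have t2 : |t| ≤ c * Λ := t1.trans (T1.trans (by gcongr; linarith [abs_nonneg P₀]))
  refine ⟨t, by linarith, fun U U0 U1 => ?_⟩
  obtain ⟨X₁, X₂, x1, x2, x3, -, x5, x6, x7⟩ := hU U (Ze.trans U0) (U1.trans (big 3 (by norm_num)))
  have n1 : Z ^ (-ε) ≤ Z ^ (-e) := mono (by linarith)
  have y1 : 0 < X₁ := (Real.rpow_pos_of_pos Z0 _).trans_le x1
  have y2 : 0 < X₂ := (Real.rpow_pos_of_pos Z0 _).trans_le x3
  refine ⟨X₁, X₂, n1.trans x1, x2, n1.trans x3, ?_, x5.trans (by gcongr), ?_, x7.trans ?_⟩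
  · by_contra hx
    replace hx := not_le.1 hx
    have z1 : 1 ≤ X₂ := (one_le_pow₀ Z1).trans hx.le
    have z2 : C₁ * (1 + |t|) ^ k ≤ Z ^ e :=
      le_trans (by gcongr; linarith [abs_nonneg P₀]) (a3.trans Zg)
    have z3 : Z ^ e * Z ^ e ≤ Z := by
      rw [← Real.rpow_add Z0]
      simpa using mono (show e + e ≤ 1 by linarith)
    have z4 : 1 ≤ Z ^ e * (Z ^ e * Z ^ 4 / X₂ ^ 2) :=
      (Real.one_le_rpow z1 (by linarith)).trans (x7.trans (by
        gcongr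
        exact (dec X₂ t z1).trans (by gcongr)))
    rw [← mul_div_assoc, ← mul_assoc, le_div_iff₀ (by positivity), one_mul] at z4
    have z5 : (Z ^ 3) ^ 2 < X₂ ^ 2 := by gcongr
    have z6 : Z ^ e * Z ^ e * Z ^ 4 ≤ (Z ^ 3) ^ 2 := by
      calc _ ≤ Z * Z ^ 4 := by gcongr
        _ = Z ^ 5 := by ring
        _ ≤ Z ^ 6 := pow_le_pow_right₀ Z1 (by norm_num)
        _ = _ := by ring
    linarith
  · rw [A, uA_eq]
    exact x6.trans (mul_le_mul_of_nonneg_right Ze (norm_nonneg _))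
  · exact mul_le_mul_of_nonneg_right Ze (norm_nonneg _)

theorem pRow : S_Row := row_of zero2 pCheb f1

end Pool.Agent.P.MP_323ce2_nt.QZ
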