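import Pool.Agent.P.MP_26a8c3_nt.QB.Bas
import Pool.Agent.P.MP_26a8c3_nt.QA.Gam

/-! Statements of the zero layer (bounds from a local zero free region, detection of a zero) and of
the last step (from the smoothed Moebius sum over `O` to the Mertens function). -/

namespace Pool.Agent.P.MP_323ce2_nt.QZ

open Pool.Agent.P.MP_26a8c3_nt Pool.Agent.P.MP_26a8c3_nt.QO Pool.Agent.P.MP_26a8c3_nt.QA
open Complex MeasureTheory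
open scoped Classical

noncomputable section

/-- completely multiplicative on primary elements, bounded by one -/
structure Mul1 (φ : O → ℂ) : Prop where
  one : φ 1 = 1
  mul : ∀ a b, Primary a → Primary b → φ (a * b) = φ a * φ b
  le : ∀ a, ‖φ a‖ ≤ 1

/-- coefficient of the complete sum over primary elements -/
def uL (φ : O → ℂ) (n : O) : ℂ := if Primary n then φ n else 0

/-- coefficient of the Moebius sum -/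
def uM (φ : O → ℂ) (c : O) : ℂ := if SQ c then mu c * φ c else 0

/-- bounded by one -/
def B1 (u : O → ℂ) : Prop := ∀ c, ‖u c‖ ≤ 1

/-- the Dirichlet series -/
def DD (u : O → ℂ) (s : ℂ) : ℂ := ∑' c : O, u c * (nr c : ℂ) ^ (-s)

/-- an absolute constant -/
def KO : ℝ := ∑' c : O, nr c ^ (-(3 / 2) : ℝ)

/-- `a` and `l` are inverse for the Dirichlet convolution -/
def Cv (a l : O → ℂ) : Prop :=
  ∀ V : ℝ → ℂ, (Summable fun p : O × O => ‖V (nr p.1 * nr p.2)‖) →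
    ∑' p : O × O, a p.1 * l p.2 * V (nr p.1 * nr p.2) = V 1

/-- the weighted sum on the logarithmic scale, divided by `X ^ β` -/
def Bk (u : O → ℂ) (β t z : ℝ) : ℂ := Wsum u (Real.exp z) t * (Real.exp (-(β * z)) : ℝ)

/-- the Mertens function -/
def Mf (x : ℝ) : ℝ := ∑ n ∈ Finset.Icc 1 ⌊x⌋₊, ((ArithmeticFunction.moebius n : ℤ) : ℝ)

/-- no zero of zeta in the half plane -/
def ZZ (θ : ℝ) : Prop := ∀ s : ℂ, θ < s.re → riemannZeta s ≠ 0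

end

/-- local form of Littlewood's argument -/
def S_Lw : Prop :=
  ∀ δ η A K : ℝ, 0 < δ → 0 < η → 0 < A → 1 ≤ K → ∃ L₀ : ℝ, ∀ (f : ℂ → ℂ) (c : ℂ) (r Λ : ℝ),
    L₀ ≤ Λ → 1 ≤ r → r ≤ 3 / 2 → DifferentiableOn ℂ f (Metric.ball c r) →
    (∀ z ∈ Metric.ball c r, f z ≠ 0 ∧ ‖f z‖ ≤ Real.exp (A * Λ)) →
    (∀ z ∈ Metric.ball c (1 / 2), ‖f z‖ ≤ K) → ‖f c‖⁻¹ ≤ K →
    ∀ z ∈ Metric.closedBall c (r - δ), ‖f z‖ ≤ Real.exp (η * Λ) ∧ ‖f z‖⁻¹ ≤ Real.exp (η * Λ)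

/-- shift of the contour inside a rectangle -/
def S_Up : Prop :=
  ∀ (u : O → ℂ) (D : ℂ → ℂ) (σ H B X t : ℝ), B1 u → 1 / 2 ≤ σ → σ ≤ 2 → 0 ≤ H → 0 ≤ B → 1 ≤ X →
    DifferentiableOn ℂ D {s | σ ≤ s.re ∧ s.re ≤ 2 ∧ |s.im + t| ≤ H} →
    (∀ s : ℂ, σ ≤ s.re → s.re ≤ 2 → |s.im + t| ≤ H → ‖D s‖ ≤ B) →
    (∀ s : ℂ, s.re = 2 → D s = DD u s) →
    ‖Wsum u X t‖ ≤ 3 * B * X ^ σ + 10 * (B + KO) * X ^ 2 * Real.exp (-(H ^ 2 / 8))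

/-- continuation of the Dirichlet series from the decay of long sums -/
def S_Cont : Prop :=
  ∀ (u : O → ℂ) (Bd : ℝ → ℝ), B1 u → (∀ X t : ℝ, 1 ≤ X → ‖Wsum u X t‖ ≤ Bd t / X ^ 2) →
    ∃ L : ℂ → ℂ, DifferentiableOn ℂ L {s | -2 < s.re} ∧ (∀ s : ℂ, 1 < s.re → L s = DD u s) ∧
      (∀ σ t : ℝ, 0 ≤ σ → σ ≤ 2 → ‖L (σ + t * I)‖ ≤ Bd (-t) + 10 * KO) ∧
      ∀ σ t : ℝ, 0 ≤ σ → σ ≤ 2 → Integrable (Bk u σ (-t)) ∧
        (L (σ + t * I) = 0 → ∫ z, Bk u σ (-t) z = 0)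

/-- Moebius inversion on primary elements -/
def S_Cv : Prop := ∀ φ : O → ℂ, Mul1 φ → Cv (uM φ) (uL φ)

/-- the additive convolution of the two block functions -/
def S_Cvl : Prop :=
  ∀ (a l : O → ℂ) (β t Z : ℝ), B1 a → B1 l → Cv a l →
    ∫ z, Bk a β t z * Bk l β t (Z - z) =
      ((√(Real.pi / 2) * Real.exp (-(β * Z) - Z ^ 2 / 2) : ℝ) : ℂ)

/-- detection, as a statement on two functions of a real variable -/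
def S_Det : Prop :=
  ∀ (f g : ℝ → ℂ) (β K k u R : ℝ), Continuous f → Continuous g → 0 ≤ β → β ≤ 1 → 0 ≤ K →
    (∀ j z : ℝ, 2 ≤ j → ‖f z‖ ≤ K * Real.exp (j ^ 2 / 4 + (j - β) * z)) →
    (∀ j z : ℝ, 2 ≤ j → ‖g z‖ ≤ K * Real.exp (j ^ 2 / 4 + (j - β) * z)) →
    Integrable g → ∫ z, g z = 0 →
    (∀ Z : ℝ, ∫ z, f z * g (Z - z) =
      ((√(Real.pi / 2) * Real.exp (-(β * Z) - Z ^ 2 / 2) : ℝ) : ℂ)) →
    4 ≤ k → 0 ≤ R → R ≤ u → K ^ 2 * Real.exp (1 + k ^ 2 / 4 + 2 * u - (k - 1) * R) ≤ 1 / 10 →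
    ∃ z₁ z₂ : ℝ, z₁ ≤ u ∧ u - R ≤ z₁ + z₂ ∧
      1 / 100 ≤ ‖f z₁‖ * ‖g z₂‖ * ((1 + z₁ ^ 2) * (1 + z₂ ^ 2))

/-- the zero layer: one exponent `β` for a family of twists, upper bounds with this exponent, and
for every cut `U` a pair of sums that attain it -/
def S_Zero : Prop :=
  ∀ ε A : ℝ, 0 < ε → 1 ≤ A → ∃ C : ℝ, 1 ≤ C ∧ ∀ (Z : ℝ) (𝒯 : Set (O → ℂ)), C ≤ Z →
    (∀ φ ∈ 𝒯, Mul1 φ ∧ ∀ X t : ℝ, 1 ≤ X →
      ‖Wsum (uL φ) X t‖ ≤ Z ^ A * (1 + |t|) ^ A / X ^ 2) →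
    ∃ β T : ℝ, 1 / 2 ≤ β ∧ β ≤ 1 ∧ Real.log Z ≤ T ∧ T ≤ C * Real.log Z ∧
      (∀ φ ∈ 𝒯, ∀ X t : ℝ, 0 < X → |t| ≤ T + Real.log Z →
        ‖Wsum (uL φ) X t‖ ≤ Z ^ ε * X ^ β ∧ (X ≤ Z ^ A → ‖Wsum (uM φ) X t‖ ≤ Z ^ ε * X ^ β)) ∧
      (β ≤ 1 / 2 + ε ∨ ∃ φ ∈ 𝒯, ∃ t : ℝ, |t| ≤ T ∧ ∀ U : ℝ, Z ^ ε ≤ U → U ≤ Z ^ A →
        ∃ X₁ X₂ : ℝ, Z ^ (-ε) ≤ X₁ ∧ X₁ ≤ U ∧ Z ^ (-ε) ≤ X₂ ∧ X₂ ≤ Z ^ A ∧
          U ≤ Z ^ ε * (X₁ * X₂) ∧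
          X₁ ^ β ≤ Z ^ ε * ‖Wsum (uM φ) X₁ t‖ ∧ X₂ ^ β ≤ Z ^ ε * ‖Wsum (uL φ) X₂ t‖)

/-- a power saving for one principal character gives the half plane for zeta -/
def S_Z1 : Prop :=
  ∀ (θ : ℝ) (q : ℕ), 0 ≤ θ → θ ≤ 1 → 0 < q → 36 ∣ q →
    (∃ C : ℝ, ∀ X : ℝ, 1 ≤ X → ‖A (cop q) 1 1 X 0‖ ≤ C * X ^ θ) → ZZ θ

/-- growth of the inverse of zeta -/
def S_Inv : Prop :=
  ∀ θ σ η : ℝ, 1 / 2 ≤ θ → θ ≤ 1 → θ < σ → 0 < η → ZZ θ → ∃ C : ℝ, 0 ≤ C ∧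
    ∀ s : ℂ, σ ≤ s.re → s.re ≤ 2 → ‖(s - 1) / riemannZeta₁ s‖ ≤ C * (1 + |s.im|) ^ η

/-- Perron's formula for the first difference of the Riesz mean -/
def S_Mert : Prop :=
  ∀ σ η C : ℝ, 1 / 2 ≤ σ → σ ≤ 1 → 0 < η → η ≤ 1 / 4 → 0 ≤ C →
    (∀ s : ℂ, σ ≤ s.re → riemannZeta₁ s ≠ 0) →
    (∀ s : ℂ, σ ≤ s.re → s.re ≤ 2 → ‖(s - 1) / riemannZeta₁ s‖ ≤ C * (1 + |s.im|) ^ η) →
    ∃ D : ℝ, ∀ x : ℝ, 1 ≤ x → |Mf x| ≤ D * x ^ (σ + 2 * η)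

/-- the last step -/
def S_End : Prop :=
  ∀ (θ θ' : ℝ) (q : ℕ), 1 / 2 ≤ θ → θ < θ' → θ' ≤ 1 → 0 < q → 36 ∣ q →
    (∃ C : ℝ, ∀ X : ℝ, 1 ≤ X → ‖A (cop q) 1 1 X 0‖ ≤ C * X ^ θ) →
    ∃ D : ℝ, ∀ x : ℝ, 1 ≤ x → |Mf x| ≤ D * x ^ θ'

lemma summable_KO : Summable fun c : O => nr c ^ (-(3 / 2) : ℝ) := QB.summable_nr (by norm_num)

lemma one_le_KO : 1 ≤ KO := by
  have := summable_KO.le_tsum 0 fun c _ => (Real.rpow_pos_of_pos (nr_pos c) _).le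
  simpa [nr, KO] using this

lemma tsum_le_KO {k : ℝ} (hk : 3 / 2 ≤ k) : ∑' c : O, nr c ^ (-k) ≤ KO :=
  (QB.summable_nr (by linarith)).tsum_le_tsum
    (fun c => Real.rpow_le_rpow_of_exponent_le (one_le_nr c) (by linarith)) summable_KO

lemma norm_term_DD (a : ℂ) (c : O) (s : ℂ) : ‖a * (nr c : ℂ) ^ (-s)‖ = ‖a‖ * nr c ^ (-s.re) := by
  rw [norm_mul, norm_cpow_eq_rpow_re_of_pos (nr_pos c), neg_re]

lemma summable_DD {u : O → ℂ} (hu : B1 u) {s : ℂ} (hs : 1 < s.re) :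
    Summable fun c : O => ‖u c * (nr c : ℂ) ^ (-s)‖ :=
  Summable.of_nonneg_of_le (fun _ => norm_nonneg _) (fun c => by
    rw [norm_term_DD]
    exact mul_le_of_le_one_left (Real.rpow_pos_of_pos (nr_pos c) _).le (hu c)) (QB.summable_nr hs)

lemma norm_DD_le {u : O → ℂ} (hu : B1 u) {s : ℂ} (hs : 3 / 2 ≤ s.re) : ‖DD u s‖ ≤ KO :=
  (tsum_of_norm_bounded (QB.summable_nr (by linarith : 1 < s.re)).hasSum fun c => by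
    rw [norm_term_DD]
    exact mul_le_of_le_one_left (Real.rpow_pos_of_pos (nr_pos c) _).le (hu c)).trans (tsum_le_KO hs)

lemma norm_Wsum_le {u : O → ℂ} (hu : B1 u) {X : ℝ} (hX : 0 < X) (t : ℝ) {k : ℝ} (hk : 3 / 2 ≤ k) :
    ‖Wsum u X t‖ ≤ KO * (Real.exp (k ^ 2 / 4) * X ^ k) := by
  refine (tsum_of_norm_bounded ((QB.summable_nr (by linarith : 1 < k)).mul_left
    (Real.exp (k ^ 2 / 4) * X ^ k)).hasSum fun c => ?_).trans ?_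
  · rw [norm_mul]
    exact (mul_le_of_le_one_left (norm_nonneg _) (hu c)).trans (norm_W_le hX (nr_pos c) t k)
  · rw [tsum_mul_left, mul_comm]
    exact mul_le_mul_of_nonneg_right (tsum_le_KO hk) (by positivity)

lemma norm_Bk (u : O → ℂ) (β t z : ℝ) :
    ‖Bk u β t z‖ = ‖Wsum u (Real.exp z) t‖ * Real.exp (-(β * z)) := by
  rw [Bk, norm_mul, norm_real, Real.norm_of_nonneg (Real.exp_pos _).le]

lemma norm_Bk_le {u : O → ℂ} (hu : B1 u) (β t z : ℝ) {k : ℝ} (hk : 3 / 2 ≤ k) :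
    ‖Bk u β t z‖ ≤ KO * Real.exp (k ^ 2 / 4 + (k - β) * z) := by
  rw [norm_Bk]
  refine (mul_le_mul_of_nonneg_right (norm_Wsum_le hu (Real.exp_pos z) t hk)
    (Real.exp_pos _).le).trans (le_of_eq ?_)
  rw [← Real.exp_mul, mul_assoc, ← Real.exp_add, ← Real.exp_add]
  congr 2
  ring

lemma continuous_Bk {u : O → ℂ} (hu : B1 u) (β t : ℝ) : Continuous (Bk u β t) := by
  have h := (differentiable_EW (a := u) nr_pos (k := 2) (Summable.of_nonneg_of_le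
    (fun c => mul_nonneg (norm_nonneg _) (Real.rpow_pos_of_pos (nr_pos c) _).le)
    (fun c => mul_le_of_le_one_left (Real.rpow_pos_of_pos (nr_pos c) _).le (hu c))
    (QB.summable_nr one_lt_two)) t).continuous.comp continuous_ofReal
  refine Continuous.mul (h.congr fun z => ?_) (by fun_prop)
  simp [EW, Wsum, W]

lemma Mul1.uL {φ : O → ℂ} (h : Mul1 φ) : B1 (uL φ) := fun c => by
  unfold QZ.uL
  split_ifs
  exacts [h.le c, by simp]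

lemma Mul1.uM {φ : O → ℂ} (h : Mul1 φ) : B1 (uM φ) := fun c => by
  unfold QZ.uM
  split_ifs
  exacts [QB.norm_mul_le_one (norm_mu_le c) (h.le c), by simp]

lemma uA_eq (ν : O → ℂ) (m : O) : uA ν 1 m = uM fun c => ν c * psi c m := by
  funext c
  simp [uA, uM, isCoprime_one_right, mul_assoc]

end Pool.Agent.P.MP_323ce2_nt.QZ
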