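import Pool.Agent.P.MP_323ce2_nt.QZ.St

/-! Second list of statements of the zero layer: prime sums and coprimality conditions. -/

namespace Pool.Agent.P.MP_323ce2_nt.QZ

open Pool.Agent.P.MP_26a8c3_nt Pool.Agent.P.MP_26a8c3_nt.QO Pool.Agent.P.MP_26a8c3_nt.QA
open Complex
open scoped Classical

noncomputable section

/-- the logarithmic weight on primary primes -/
def lp (p : O) : ℝ := if Prime p ∧ Primary p then Real.log (N p) else 0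

/-- coefficient of the prime sum -/
def uP (φ : O → ℂ) (p : O) : ℂ := (lp p : ℂ) * φ p

/-- restriction to arguments prime to `r` -/
def cp (φ : O → ℂ) (r n : O) : ℂ := φ n * cop r n

/-- the local variable of the Euler product -/
def xp (φ : O → ℂ) (s : ℂ) (p : O) : ℂ := φ p * (nr p : ℂ) ^ (-s)

/-- the contribution of the higher prime powers -/
def RR (φ : O → ℂ) (s : ℂ) : ℂ := ∑' p : O, (lp p : ℂ) * (xp φ s p ^ 2 / (1 - xp φ s p))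

/-- bounded by the square root of the norm -/
def B2 (u : O → ℂ) : Prop := ∀ c, ‖u c‖ ≤ nr c ^ (1 / 2 : ℝ)

end

/-- shift of the contour, larger coefficients -/
def S_Up2 : Prop :=
  ∀ (u : O → ℂ) (D : ℂ → ℂ) (σ H B X t : ℝ), B2 u → 1 / 2 ≤ σ → σ ≤ 2 → 0 ≤ H → 0 ≤ B → 1 ≤ X →
    DifferentiableOn ℂ D {s | σ ≤ s.re ∧ s.re ≤ 2 ∧ |s.im + t| ≤ H} →
    (∀ s : ℂ, σ ≤ s.re → s.re ≤ 2 → |s.im + t| ≤ H → ‖D s‖ ≤ B) →
    (∀ s : ℂ, s.re = 2 → D s = DD u s) →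
    ‖Wsum u X t‖ ≤ 3 * B * X ^ σ + 10 * (B + KO) * X ^ 2 * Real.exp (-(H ^ 2 / 8))

/-- logarithmic derivative of the Euler product -/
def S_Eul : Prop :=
  ∀ φ : O → ℂ, Mul1 φ → ∀ s : ℂ, 1 < s.re →
    HasDerivAt (DD (uM φ)) (DD (uM φ) s * ∑' p : O, (lp p : ℂ) * (xp φ s p / (1 - xp φ s p))) s

/-- higher prime powers -/
def S_Rem : Prop :=
  ∀ δ : ℝ, 0 < δ → ∃ C : ℝ, 0 ≤ C ∧ ∀ φ : O → ℂ, B1 φ →
    DifferentiableOn ℂ (RR φ) {s | 1 / 2 < s.re} ∧ (∀ s : ℂ, 1 / 2 + δ ≤ s.re → ‖RR φ s‖ ≤ C) ∧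
      ∀ s : ℂ, 1 < s.re →
        ∑' p : O, (lp p : ℂ) * (xp φ s p / (1 - xp φ s p)) = DD (uP φ) s + RR φ s

/-- a coprimality condition costs the square of the divisor function -/
def S_Cop : Prop :=
  ∀ (φ : O → ℂ) (β B X₀ t : ℝ) (r : O), Mul1 φ → 1 / 2 ≤ β → β ≤ 1 → 0 ≤ B → SQ r →
    ((∀ X : ℝ, 0 < X → X ≤ X₀ → ‖Wsum (uL φ) X t‖ ≤ B * X ^ β) →
      ∀ X : ℝ, 0 < X → X ≤ X₀ → ‖Wsum (uL (cp φ r)) X t‖ ≤ dv r ^ 2 * B * X ^ β) ∧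
    ((∀ X : ℝ, 0 < X → X ≤ X₀ → ‖Wsum (uM φ) X t‖ ≤ B * X ^ β) →
      ∀ X : ℝ, 0 < X → X ≤ X₀ → ‖Wsum (uM (cp φ r)) X t‖ ≤ dv r ^ 2 * B * X ^ β)

/-- reduction to squarefree primary moduli, and the prime sum with a coprimality condition -/
def S_Rad : Prop :=
  (∀ r : O, r ≠ 0 → ∃ r' : O, SQ r' ∧ N r' ≤ N r ∧ ∀ n, Primary n → cop r n = cop r' n) ∧
    ∀ (φ : O → ℂ) (r : O) (X t : ℝ), B1 φ → SQ r → 0 < X →
      ‖Wsum (uP (cp φ r)) X t‖ ≤ ‖Wsum (uP φ) X t‖ + Real.log (N r)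

/-- lower bound for the primes in a dyadic window -/
def S_Cheb : Prop :=
  ∃ P₀ : ℝ, ∀ P : ℝ, P₀ ≤ P → P / 4 ≤ ∑ p ∈ (ball (2 * P)).filter fun p => P < N p, lp p

/-- the zero layer with prime sums and coprimality conditions -/
def S_Zero2 : Prop :=
  ∀ ε A : ℝ, 0 < ε → 1 ≤ A → ∃ C : ℝ, 1 ≤ C ∧ ∀ (Z : ℝ) (𝒯 : Set (O → ℂ)), C ≤ Z →
    (∀ φ ∈ 𝒯, Mul1 φ ∧ ∀ X t : ℝ, 1 ≤ X →
      ‖Wsum (uL φ) X t‖ ≤ Z ^ A * (1 + |t|) ^ A / X ^ 2) →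
    ∃ β T : ℝ, 1 / 2 ≤ β ∧ β ≤ 1 ∧ Real.log Z ≤ T ∧ T ≤ C * Real.log Z ∧
      (∀ φ ∈ 𝒯, ∀ (r : O) (X t : ℝ), r ≠ 0 → (N r : ℝ) ≤ Z ^ A → 0 < X → |t| ≤ T + Real.log Z →
        ‖Wsum (uL (cp φ r)) X t‖ ≤ Z ^ ε * X ^ β ∧
          (X ≤ Z ^ A → ‖Wsum (uM (cp φ r)) X t‖ ≤ Z ^ ε * X ^ β ∧
            ‖Wsum (uP (cp φ r)) X t‖ ≤ Z ^ ε * X ^ β)) ∧
      (β ≤ 1 / 2 + ε ∨ ∃ φ ∈ 𝒯, ∃ t : ℝ, |t| ≤ T ∧ ∀ U : ℝ, Z ^ ε ≤ U → U ≤ Z ^ A →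
        ∃ X₁ X₂ : ℝ, Z ^ (-ε) ≤ X₁ ∧ X₁ ≤ U ∧ Z ^ (-ε) ≤ X₂ ∧ X₂ ≤ Z ^ A ∧
          U ≤ Z ^ ε * (X₁ * X₂) ∧
          X₁ ^ β ≤ Z ^ ε * ‖Wsum (uM φ) X₁ t‖ ∧ X₂ ^ β ≤ Z ^ ε * ‖Wsum (uL φ) X₂ t‖)

lemma cp_one (φ : O → ℂ) : cp φ 1 = φ := by
  funext n
  simp [cp, cop, isCoprime_one_right]

lemma lp_nonneg (p : O) : 0 ≤ lp p := by
  unfold lp
  split_ifs
  exacts [Real.log_natCast_nonneg _, le_rfl]

lemma lp_le (p : O) : lp p ≤ nr p ^ (1 / 2 : ℝ) := by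
  have h0 := Real.rpow_pos_of_pos (nr_pos p) (1 / 2 : ℝ)
  unfold lp
  split_ifs with h
  · rw [← nr_eq h.1.ne_zero]
    have h1 := Real.log_le_rpow_div (nr_pos p).le (show (0 : ℝ) < 1 / 4 by norm_num)
    have h2 : nr p ^ (1 / 2 : ℝ) = (nr p ^ (1 / 4 : ℝ)) ^ 2 := by
      rw [← Real.rpow_natCast, ← Real.rpow_mul (nr_pos p).le]; norm_num
    have h3 := Real.log_le_sub_one_of_pos (Real.rpow_pos_of_pos (nr_pos p) (1 / 4 : ℝ))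
    rw [Real.log_rpow (nr_pos p)] at h3
    nlinarith [sq_nonneg (nr p ^ (1 / 4 : ℝ) - 2)]
  · exact h0.le

lemma B1.cp {φ : O → ℂ} (h : B1 φ) (r : O) : B1 (cp φ r) := fun n => by
  unfold QZ.cp cop
  split_ifs
  exacts [by simpa using h n, by simp]

lemma B1.uP {φ : O → ℂ} (h : B1 φ) : B2 (uP φ) := fun p => by
  rw [QZ.uP, norm_mul, norm_real, Real.norm_of_nonneg (lp_nonneg p)]
  exact (mul_le_of_le_one_right (lp_nonneg p) (h p)).trans (lp_le p)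

lemma Mul1.cp {φ : O → ℂ} (h : Mul1 φ) (r : O) : Mul1 (cp φ r) where
  one := by simp [QZ.cp, cop, h.one, isCoprime_one_left]
  mul a b ha hb := by
    simp only [QZ.cp, cop, h.mul a b ha hb, IsCoprime.mul_left_iff]
    by_cases h1 : IsCoprime a r <;> by_cases h2 : IsCoprime b r <;> simp [h1, h2]
  le := B1.cp h.le r

lemma B2.term {u : O → ℂ} (hu : B2 u) (c : O) {k : ℝ} (hk : 2 ≤ k) :
    ‖u c‖ * nr c ^ (-k) ≤ nr c ^ (-(3 / 2) : ℝ) := by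
  refine (mul_le_mul_of_nonneg_right (hu c) (Real.rpow_pos_of_pos (nr_pos c) _).le).trans ?_
  rw [← Real.rpow_add (nr_pos c)]
  exact Real.rpow_le_rpow_of_exponent_le (one_le_nr c) (by linarith)

lemma B2.summable {u : O → ℂ} (hu : B2 u) {k : ℝ} (hk : 2 ≤ k) :
    Summable fun c : O => ‖u c‖ * nr c ^ (-k) :=
  Summable.of_nonneg_of_le
    (fun c => mul_nonneg (norm_nonneg _) (Real.rpow_pos_of_pos (nr_pos c) _).le)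
    (fun c => hu.term c hk) summable_KO

lemma B2.summable_W {u : O → ℂ} (hu : B2 u) {X : ℝ} (hX : 0 < X) (t : ℝ) :
    Summable fun c : O => u c * W X t (nr c) :=
  (summable_W0 nr_pos (hu.summable le_rfl) hX t).of_norm

lemma B2.DD_le {u : O → ℂ} (hu : B2 u) {s : ℂ} (hs : 2 ≤ s.re) : ‖DD u s‖ ≤ KO :=
  tsum_of_norm_bounded summable_KO.hasSum fun c => by
    rw [norm_term_DD]
    exact hu.term c hs

lemma B2.Wsum_le {u : O → ℂ} (hu : B2 u) {X : ℝ} (hX : 0 < X) (t : ℝ) {k : ℝ} (hk : 2 ≤ k) :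
    ‖Wsum u X t‖ ≤ KO * (Real.exp (k ^ 2 / 4) * X ^ k) := by
  refine (tsum_of_norm_bounded (summable_KO.mul_left
    (Real.exp (k ^ 2 / 4) * X ^ k)).hasSum fun c => ?_).trans ?_
  · rw [norm_mul]
    refine (mul_le_mul_of_nonneg_left (norm_W_le hX (nr_pos c) t k) (norm_nonneg _)).trans ?_
    rw [mul_left_comm]
    exact mul_le_mul_of_nonneg_left (hu.term c hk) (by positivity)
  · rw [tsum_mul_left, mul_comm]
    exact le_rfl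

end Pool.Agent.P.MP_323ce2_nt.QZ
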