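import Pool.Agent.P.MP_323ce2_nt.QZ.St

/-! Upper bounds for the weighted sums from a local zero free region. -/

namespace Pool.Agent.P.MP_323ce2_nt.QZ

open Pool.Agent.P.MP_26a8c3_nt Pool.Agent.P.MP_26a8c3_nt.QO Pool.Agent.P.MP_26a8c3_nt.QA
open Complex Filter Metric

lemma DD_mul {a l : O → ℂ} (ha : B1 a) (hl : B1 l) (h : Cv a l) {s : ℂ} (hs : 1 < s.re) :
    DD a s * DD l s = 1 := by
  have e : ∀ p : O × O, (((nr p.1 * nr p.2 : ℝ)) : ℂ) ^ (-s) =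
      (nr p.1 : ℂ) ^ (-s) * (nr p.2 : ℂ) ^ (-s) := fun p => by
    rw [ofReal_mul, mul_cpow_ofReal_nonneg (nr_pos _).le (nr_pos _).le]
  have h1 := h (fun y => (y : ℂ) ^ (-s)) (by
    simp only [e, norm_mul, norm_cpow_eq_rpow_re_of_pos (nr_pos _), neg_re]
    exact (QB.summable_nr hs).mul_of_nonneg (QB.summable_nr hs)
      (fun c => (Real.rpow_pos_of_pos (nr_pos c) _).le)
      fun c => (Real.rpow_pos_of_pos (nr_pos c) _).le)
  rw [DD, DD, tsum_mul_tsum_of_summable_norm (summable_DD ha hs) (summable_DD hl hs)]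
  simp only [e, ofReal_one, one_cpow] at h1
  rw [← h1]
  exact tsum_congr fun p => by ring

/-- the data attached to one twist -/
structure Dat (a l : O → ℂ) (L : ℂ → ℂ) (A Λ : ℝ) : Prop where
  ha : B1 a
  hl : B1 l
  cv : Cv a l
  dec : ∀ X t : ℝ, 1 ≤ X → ‖Wsum l X t‖ ≤ Real.exp (A * Λ) * (1 + |t|) ^ A / X ^ 2
  dif : DifferentiableOn ℂ L {s | -2 < s.re}
  eq : ∀ s : ℂ, 1 < s.re → L s = DD l s
  bd : ∀ σ t : ℝ, 0 ≤ σ → σ ≤ 2 → ‖L (σ + t * I)‖ ≤ Real.exp (A * Λ) * (1 + |t|) ^ A + 10 * KO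
  zer : ∀ σ t : ℝ, 0 ≤ σ → σ ≤ 2 → MeasureTheory.Integrable (Bk l σ (-t)) ∧
    (L (σ + t * I) = 0 → ∫ z, Bk l σ (-t) z = 0)

lemma Dat.inv {a l : O → ℂ} {L : ℂ → ℂ} {A Λ : ℝ} (h : Dat a l L A Λ) {s : ℂ} (hs : 1 < s.re) :
    L s ≠ 0 ∧ (L s)⁻¹ = DD a s := by
  have h1 := DD_mul h.ha h.hl h.cv hs
  rw [← h.eq s hs] at h1
  exact ⟨right_ne_zero_of_mul_eq_one h1, (eq_inv_of_mul_eq_one_left h1).symm⟩

lemma ev_lin (c : ℝ) {κ : ℝ} (hκ : 0 < κ) :
    ∀ᶠ Λ : ℝ in atTop, c * (1 + c * Λ) ≤ Real.exp (κ * Λ) := by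
  filter_upwards [eventually_ge_atTop 1, eventually_ge_atTop (2 * (|c| + c ^ 2) / κ ^ 2)]
    with Λ h1 h2
  have h3 := Real.quadratic_le_exp_of_nonneg (x := κ * Λ) (by positivity)
  rw [div_le_iff₀ (by positivity)] at h2
  have h4 := mul_le_mul_of_nonneg_right h2 (by linarith : 0 ≤ Λ)
  nlinarith [le_abs_self c, abs_nonneg c, mul_pos hκ (by linarith : 0 < Λ)]

/-- bounds for the function and its inverse -/
lemma bound_L (h : S_Lw) {δ η A : ℝ} (hδ : 0 < δ) (hη : 0 < η) (hA : 1 ≤ A) :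
    ∃ L₀ : ℝ, ∀ (a l : O → ℂ) (L : ℂ → ℂ) (Λ β T : ℝ), L₀ ≤ Λ → Dat a l L A Λ → 1 / 2 ≤ β → β ≤ 1 →
      1 + (T + 2) ≤ Real.exp Λ → (∀ s : ℂ, β < s.re → |s.im| ≤ T + 2 → L s ≠ 0) →
      ∀ s : ℂ, β + δ ≤ s.re → s.re ≤ 2 → |s.im| ≤ T →
        ‖L s‖ ≤ Real.exp (η * Λ) ∧ ‖L s‖⁻¹ ≤ Real.exp (η * Λ) := by
  obtain ⟨L₀, h⟩ := h δ η (2 * A + 1) KO hδ hη (by linarith) one_le_KO
  have hK := one_le_KO
  refine ⟨max L₀ (11 * KO), fun a l L Λ β T h0 D b0 b1 hT hz s s0 s1 s2 => ?_⟩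
  have h1 : 11 * KO ≤ Λ := le_of_max_le_right h0
  set c : ℂ := 2 + s.im * I with hc
  have cre : c.re = 2 := by simp [hc]
  have cim : c.im = s.im := by simp [hc]
  have k : ∀ {r : ℝ} {z : ℂ}, z ∈ Metric.ball c r → 2 - r < z.re ∧ |z.im| ≤ T + r := fun {r z} hz' => by
    rw [Metric.mem_ball, dist_eq_norm] at hz'
    have k1 := abs_lt.1 ((abs_re_le_norm _).trans_lt hz')
    have k2 := (abs_im_le_norm _).trans hz'.le
    rw [sub_re, cre] at k1
    rw [sub_im, cim] at k2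
    exact ⟨by linarith, by linarith [abs_sub_abs_le_abs_sub z.im s.im]⟩
  have e1 : 1 ≤ Real.exp (2 * A * Λ) := Real.one_le_exp (by nlinarith)
  have e2 : 11 * KO ≤ Real.exp Λ := by linarith [Real.add_one_le_exp Λ]
  refine h L c (2 - β) Λ (le_of_max_le_left h0) (by linarith) (by linarith)
    (D.dif.mono fun z hz' => show -2 < z.re by linarith [(k hz').1]) (fun z hz' => ?_)
    (fun z hz' => ?_) ?_ s ?_
  · obtain ⟨k1, k2⟩ := k hz'
    refine ⟨hz z (by linarith) (by linarith), ?_⟩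
    rw [add_mul, one_mul, Real.exp_add]
    by_cases h2 : z.re ≤ 2
    · have k3 := D.bd z.re z.im (by linarith) h2
      rw [re_add_im] at k3
      have k4 : (1 + |z.im|) ^ A ≤ Real.exp (A * Λ) := by
        rw [mul_comm, Real.exp_mul]
        exact Real.rpow_le_rpow (by positivity) (by linarith) (by linarith)
      have k5 : Real.exp (A * Λ) * (1 + |z.im|) ^ A ≤ Real.exp (2 * A * Λ) := by
        rw [show 2 * A * Λ = A * Λ + A * Λ by ring, Real.exp_add]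
        gcongr
      nlinarith
    · rw [D.eq z (by linarith)]
      nlinarith [norm_DD_le D.hl (s := z) (by linarith)]
  · rw [D.eq z (by linarith [(k hz').1])]
    exact norm_DD_le D.hl (by linarith [(k hz').1])
  · rw [← norm_inv, (D.inv (by rw [cre]; norm_num)).2]
    exact norm_DD_le D.ha (by rw [cre]; norm_num)
  · rw [mem_closedBall, dist_eq_norm, show s - c = ((s.re - 2 : ℝ) : ℂ) by
      apply Complex.ext <;> simp [hc], norm_real, Real.norm_eq_abs, abs_le]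
    constructor <;> linarith

lemma small_X {u : O → ℂ} (hu : B1 u) {X β E : ℝ} (hX : 0 < X) (h1 : X ≤ 1) (hβ : β ≤ 2)
    (hE : 3 * KO ≤ E) (t : ℝ) : ‖Wsum u X t‖ ≤ E * X ^ β := by
  have hK := one_le_KO
  refine (norm_Wsum_le hu hX t (k := 2) (by norm_num)).trans ?_
  rw [← mul_assoc, show (2 : ℝ) ^ 2 / 4 = 1 by norm_num]
  exact mul_le_mul (by nlinarith [Real.exp_one_lt_three]) (Real.rpow_le_rpow_of_exponent_ge hX h1 hβ)
    (by positivity) (by linarith)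

/-- bounds for the weighted sums -/
lemma bound_W (h : S_Lw) (hU : S_Up) {δ η A : ℝ} (hδ : 0 < δ) (hη : 0 < η) (hη1 : η ≤ 1)
    (hA : 1 ≤ A) (hδA : δ * A ≤ η) :
    ∃ L₀ : ℝ, ∀ (a l : O → ℂ) (L : ℂ → ℂ) (Λ β T : ℝ), L₀ ≤ Λ → Dat a l L A Λ → 1 / 2 ≤ β → β ≤ 1 →
      1 + (T + 3 * Λ) ≤ Real.exp Λ → (∀ s : ℂ, β < s.re → |s.im| ≤ T + 3 * Λ → L s ≠ 0) →
      ∀ X t : ℝ, 0 < X → |t| ≤ T + Λ → ‖Wsum l X t‖ ≤ Real.exp (3 * η * Λ) * X ^ β ∧
        (X ≤ Real.exp (A * Λ) → ‖Wsum a X t‖ ≤ Real.exp (3 * η * Λ) * X ^ β) := by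
  obtain ⟨L₀, h⟩ := bound_L h hδ hη hA
  have hK := one_le_KO
  obtain ⟨L₁, h1⟩ := eventually_atTop.1 ((ev_lin (20 * KO) hη).and ((eventually_ge_atTop L₀).and
    (eventually_ge_atTop (8 * (2 * A + 2)))))
  refine ⟨L₁, fun a l L Λ β T h0 D b0 b1 hT hz X t hX ht => ?_⟩
  obtain ⟨k1, k2, k3⟩ := h1 Λ h0
  have hΛ : 2 ≤ Λ := by linarith
  have e0 : 20 * KO ≤ Real.exp (η * Λ) :=
    le_trans (le_mul_of_one_le_right (by linarith) (by nlinarith)) k1
  have e1 : Real.exp (η * Λ) ≤ Real.exp (3 * η * Λ) := Real.exp_le_exp.2 (by nlinarith)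
  have hb := h a l L Λ β (T + 2 * Λ) k2 D b0 b1 (by linarith)
    fun s s0 s1 => hz s s0 (by linarith)
  have him : ∀ s : ℂ, |s.im + t| ≤ Λ → |s.im| ≤ T + 2 * Λ := fun s hs => by
    have h2 := abs_sub (s.im + t) t
    rw [add_sub_cancel_right] at h2
    linarith
  have hδ1 : δ ≤ 1 := by nlinarith
  have key : ∀ (u : O → ℂ) (F : ℂ → ℂ), B1 u → 1 ≤ X → X ≤ Real.exp (A * Λ) →
      DifferentiableOn ℂ F {s | β + δ ≤ s.re ∧ s.re ≤ 2 ∧ |s.im + t| ≤ Λ} →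
      (∀ s : ℂ, β + δ ≤ s.re → s.re ≤ 2 → |s.im + t| ≤ Λ → ‖F s‖ ≤ Real.exp (η * Λ)) →
      (∀ s : ℂ, s.re = 2 → F s = DD u s) → ‖Wsum u X t‖ ≤ Real.exp (3 * η * Λ) * X ^ β := by
    intro u F hu X1 X2 F1 F2 F3
    refine (hU u F (β + δ) Λ _ X t hu (by linarith) (by linarith) (by linarith)
      (Real.exp_pos _).le X1 F1 F2 F3).trans ?_
    have x1 : 1 ≤ X ^ β := Real.one_le_rpow X1 (by linarith)
    have x2 : X ^ δ ≤ Real.exp (η * Λ) := by
      refine (Real.rpow_le_rpow hX.le X2 hδ.le).trans ?_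
      rw [← Real.exp_mul, Real.exp_le_exp]
      nlinarith
    have x3 : X ^ 2 ≤ Real.exp (2 * A * Λ) := by
      rw [show 2 * A * Λ = A * Λ + A * Λ by ring, Real.exp_add, sq]
      gcongr
    have x4 : Real.exp (η * Λ) ≤ Real.exp Λ := Real.exp_le_exp.2 (by nlinarith)
    have x5 : 10 * (Real.exp (η * Λ) + KO) * X ^ 2 * Real.exp (-(Λ ^ 2 / 8)) ≤ 1 := by
      calc _ ≤ Real.exp Λ * Real.exp Λ * Real.exp (2 * A * Λ) * Real.exp (-(Λ ^ 2 / 8)) := by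
            gcongr ?_ * ?_ * _
            nlinarith
        _ ≤ 1 := by
            rw [← Real.exp_add, ← Real.exp_add, ← Real.exp_add, Real.exp_le_one_iff]
            nlinarith
    have x6 : Real.exp (3 * η * Λ) =
        Real.exp (η * Λ) * Real.exp (η * Λ) * Real.exp (η * Λ) := by
      rw [← Real.exp_add, ← Real.exp_add]; congr 1; ring
    rw [Real.rpow_add hX, x6]
    set E := Real.exp (η * Λ)
    have x7 : 3 * E * (X ^ β * X ^ δ) ≤ 3 * (E * E * X ^ β) := by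
      have : 0 ≤ E := by linarith
      calc _ ≤ 3 * E * (X ^ β * E) := by gcongr
        _ = _ := by ring
    have x8 : 1 ≤ E * E * X ^ β := one_le_mul_of_one_le_of_one_le (by nlinarith) x1
    nlinarith
  by_cases X1 : X ≤ 1
  · exact ⟨small_X D.hl hX X1 (by linarith) (by linarith) t,
      fun _ => small_X D.ha hX X1 (by linarith) (by linarith) t⟩
  replace X1 := (not_le.1 X1).le
  have dL : DifferentiableOn ℂ L {s | β + δ ≤ s.re ∧ s.re ≤ 2 ∧ |s.im + t| ≤ Λ} :=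
    D.dif.mono fun z hz' => show -2 < z.re by linarith [hz'.1]
  refine ⟨?_, fun X2 => key a (fun s => (L s)⁻¹) D.ha X1 X2
    (dL.inv fun s hs => hz s (by linarith [hs.1]) (by linarith [him s hs.2.2]))
    (fun s s0 s1 s2 => by rw [norm_inv]; exact (hb s s0 s1 (him s s2)).2)
    fun s hs => (D.inv (by rw [hs]; norm_num)).2⟩
  by_cases X2 : X ≤ Real.exp (A * Λ)
  · exact key l L D.hl X1 X2 dL (fun s s0 s1 s2 => (hb s s0 s1 (him s s2)).1)
      fun s hs => D.eq s (by rw [hs]; norm_num)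
  replace X2 := (not_le.1 X2).le
  have k4 : (1 + |t|) ^ A ≤ Real.exp (A * Λ) := by
    rw [mul_comm, Real.exp_mul]
    exact Real.rpow_le_rpow (by positivity) (by linarith) (by linarith)
  refine (D.dec X t X1).trans (le_trans ?_ (one_le_mul_of_one_le_of_one_le (by linarith)
    (Real.one_le_rpow X1 (by linarith))))
  rw [div_le_one (by positivity), sq]
  exact mul_le_mul X2 (k4.trans X2) (by positivity) hX.le

end Pool.Agent.P.MP_323ce2_nt.QZ
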